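import Mathlib

/-!
# Lower bounds for integer combinations of products of square roots
-/

open Finset Polynomial

namespace Pool.Agent.W24.Liou

lemma multiset_prod_le {B : ℝ} (hB : 0 ≤ B) (s : Multiset ℂ) (h : ∀ z ∈ s, ‖z‖ ≤ B) :
    (s.map (fun z => ‖z‖)).prod ≤ B ^ (Multiset.card s) := by
  induction s using Multiset.induction_on with
  | empty => simp
  | cons a s ih =>
    rw [Multiset.map_cons, Multiset.prod_cons, Multiset.card_cons, pow_succ, mul_comm]
    have h1 := ih (fun z hz => h z (Multiset.mem_cons_of_mem hz))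
    have h2 := h a (Multiset.mem_cons_self a s)
    apply mul_le_mul h1 h2 (norm_nonneg _) (by positivity)

lemma norm_multiset_prod (s : Multiset ℂ) : ‖s.prod‖ = (s.map (fun z => ‖z‖)).prod := by
  induction s using Multiset.induction_on with
  | empty => simp
  | cons a s ih => rw [Multiset.prod_cons, Multiset.map_cons, Multiset.prod_cons, norm_mul, ih]

/-- a nonzero real root of a monic integer polynomial with small roots is not too small -/
lemma int_poly_bound {P : ℤ[X]} (hP : P.Monic) {ξ : ℝ} (hξ : aeval ξ P = 0) (hne : ξ ≠ 0) {B : ℝ} (hB1 : 1 ≤ B)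
    (hB : ∀ z : ℂ, aeval z P = 0 → ‖z‖ ≤ B) : 1 ≤ |ξ| * B ^ P.natDegree := by
  obtain ⟨Q, hQ, hnd⟩ := Polynomial.exists_eq_pow_rootMultiplicity_mul_and_not_dvd P hP.ne_zero 0
  set k := P.rootMultiplicity 0 with hk
  have hX : (X - C (0:ℤ)) = X := by simp
  rw [hX] at hQ hnd
  have hQm : Q.Monic := by
    have h1 : (X^k : ℤ[X]).Monic := monic_X_pow k
    apply h1.of_mul_monic_left
    rw [← hQ]; exact hP
  have hQ0 : Q.coeff 0 ≠ 0 := by
    intro h
    exact hnd (X_dvd_iff.mpr h)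
  have hQdeg : Q.natDegree ≤ P.natDegree := by
    conv_rhs => rw [hQ]
    rw [(monic_X_pow k).natDegree_mul hQm]
    omega
  have hQξ : aeval ξ Q = 0 := by
    rw [hQ, map_mul, map_pow, aeval_X] at hξ
    rcases mul_eq_zero.mp hξ with h | h
    · exact absurd h (pow_ne_zero k hne)
    · exact h
  have hroots : ∀ z : ℂ, aeval z Q = 0 → ‖z‖ ≤ B := by
    intro z hz
    apply hB
    rw [hQ, map_mul, hz, mul_zero]
  set R : ℂ[X] := Q.map (Int.castRingHom ℂ) with hR
  have hRm : R.Monic := hQm.map _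
  have hsp : R.Splits := IsAlgClosed.splits R
  have h1 := hsp.coeff_zero_eq_prod_roots_of_monic hRm
  have h2 : ‖R.coeff 0‖ = (R.roots.map (fun z => ‖z‖)).prod := by
    rw [h1, norm_mul, norm_pow, norm_neg, norm_one, one_pow, one_mul, norm_multiset_prod]
  have h3 : 1 ≤ ‖R.coeff 0‖ := by
    rw [hR, coeff_map, eq_intCast, Complex.norm_intCast]
    have : 1 ≤ |Q.coeff 0| := Int.one_le_abs hQ0
    exact_mod_cast this
  have h4 : (ξ:ℂ) ∈ R.roots := by
    rw [mem_roots hRm.ne_zero, IsRoot.def, hR, eval_map, ← algebraMap_int_eq, ← aeval_def]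
    have h5 : aeval (ξ:ℂ) Q = ((aeval ξ Q : ℝ) : ℂ) := by
      have := Polynomial.aeval_algebraMap_apply ℂ ξ Q
      exact this
    rw [h5, hQξ]; simp
  have h6 : ∀ z ∈ R.roots.erase (ξ:ℂ), ‖z‖ ≤ B := by
    intro z hz
    apply hroots
    have h7 := Multiset.mem_of_mem_erase hz
    rw [mem_roots hRm.ne_zero, IsRoot.def, hR, eval_map, ← algebraMap_int_eq, ← aeval_def] at h7
    exact h7
  have hB0 : 0 ≤ B := by linarith
  have h8 : (R.roots.map (fun z => ‖z‖)).prod = |ξ| * ((R.roots.erase (ξ:ℂ)).map (fun z => ‖z‖)).prod := by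
    conv_lhs => rw [← Multiset.cons_erase h4]
    rw [Multiset.map_cons, Multiset.prod_cons, Complex.norm_real, Real.norm_eq_abs]
  have h9 := multiset_prod_le hB0 _ h6
  have h10 : B ^ (Multiset.card (R.roots.erase (ξ:ℂ))) ≤ B ^ P.natDegree := by
    apply pow_le_pow_right₀ hB1
    have h11 : Multiset.card (R.roots.erase (ξ:ℂ)) ≤ Multiset.card R.roots := Multiset.card_le_card (Multiset.erase_le _ _)
    have h12 : Multiset.card R.roots ≤ R.natDegree := R.card_roots'
    have h13 : R.natDegree = Q.natDegree := by rw [hR, hQm.natDegree_map]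
    omega
  rw [h2, h8] at h3
  refine h3.trans ?_
  exact mul_le_mul_of_nonneg_left (h9.trans h10) (abs_nonneg _)

set_option linter.unusedSectionVars false

variable {ι : Type*} [Fintype ι] [DecidableEq ι]

/-- product of the square roots over a subset -/
noncomputable def vv (g : ι → ℕ) (S : Finset ι) : ℝ := ∏ i ∈ S, √(g i : ℝ)

lemma vv_pos {g : ι → ℕ} (hg : ∀ i, 1 ≤ g i) (S : Finset ι) : 0 < vv g S :=
  Finset.prod_pos (fun i _ => Real.sqrt_pos.mpr (by exact_mod_cast hg i))

lemma vv_mul (g : ι → ℕ) (S T : Finset ι) :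
    vv g (symmDiff S T) * ∏ i ∈ S ∩ T, (g i : ℝ) = vv g S * vv g T := by
  have h1 : vv g S = vv g (S \ T) * vv g (S ∩ T) := by
    unfold vv
    rw [← Finset.prod_union (Finset.disjoint_sdiff_inter S T), Finset.sdiff_union_inter]
  have h2 : vv g T = vv g (T \ S) * vv g (S ∩ T) := by
    unfold vv
    rw [Finset.inter_comm S T, ← Finset.prod_union (Finset.disjoint_sdiff_inter T S), Finset.sdiff_union_inter]
  have h3 : vv g (symmDiff S T) = vv g (S \ T) * vv g (T \ S) := by
    unfold vv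
    rw [← Finset.prod_union (disjoint_sdiff_sdiff)]
    rfl
  have h4 : ∏ i ∈ S ∩ T, (g i : ℝ) = vv g (S ∩ T) * vv g (S ∩ T) := by
    unfold vv
    rw [← Finset.prod_mul_distrib]
    apply Finset.prod_congr rfl
    intro i _
    rw [Real.mul_self_sqrt (Nat.cast_nonneg _)]
  rw [h1, h2, h3, h4]
  ring

/-- the matrix of multiplication by the element `∑ c S ∏_{i ∈ S} x_i`, `x_i^2 = g i` -/
def Mx (g : ι → ℕ) (c : Finset ι → ℤ) : Matrix (Finset ι) (Finset ι) ℤ :=
  Matrix.of (fun T' T => c (symmDiff T' T) * ∏ i ∈ (symmDiff T' T) ∩ T, (g i : ℤ))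

lemma sum_symmDiff {M : Type*} [AddCommMonoid M] (T : Finset ι) (f : Finset ι → M) :
    ∑ S, f (symmDiff S T) = ∑ S, f S := by
  apply Equiv.sum_comp (Function.Involutive.toPerm (fun S : Finset ι => symmDiff S T) (fun S => by
    simp only []
    rw [symmDiff_assoc, symmDiff_self]
    simp)) f

lemma vecMul_Mx (g : ι → ℕ) (c : Finset ι → ℤ) :
    Matrix.vecMul (vv g) ((Mx g c).map (Int.cast : ℤ → ℝ)) = (∑ S, (c S : ℝ) * vv g S) • (vv g) := by
  funext T
  rw [Matrix.vecMul, dotProduct, Pi.smul_apply, smul_eq_mul, Finset.sum_mul,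
    ← sum_symmDiff T (fun S => (c S : ℝ) * vv g S * vv g T)]
  apply Finset.sum_congr rfl
  intro T' _
  rw [Matrix.map_apply, Mx, Matrix.of_apply]
  push_cast
  have h := vv_mul g (symmDiff T' T) T
  have h1 : symmDiff (symmDiff T' T) T = T' := by rw [symmDiff_assoc, symmDiff_self]; simp
  rw [h1] at h
  linear_combination (c (symmDiff T' T) : ℝ) * h

lemma eig_bound {g : ι → ℕ} (hg : ∀ i, 1 ≤ g i) (c : Finset ι → ℤ) {w : Finset ι → ℂ} (hw : w ≠ 0) {z : ℂ}
    (h : Matrix.vecMul w ((Mx g c).map (Int.cast : ℤ → ℂ)) = z • w) {B : ℝ}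
    (hB : ∑ S, |(c S : ℝ)| * vv g S ≤ B) : ‖z‖ ≤ B := by
  obtain ⟨T, -, hT⟩ := Finset.exists_max_image (Finset.univ : Finset (Finset ι)) (fun T => ‖w T‖ / vv g T) ⟨∅, Finset.mem_univ _⟩
  have hT' : ∀ S, ‖w S‖ ≤ ‖w T‖ / vv g T * vv g S := by
    intro S
    have := hT S (Finset.mem_univ _)
    rwa [div_le_iff₀ (vv_pos hg S)] at this
  have hwT : 0 < ‖w T‖ := by
    rcases (norm_nonneg (w T)).eq_or_lt with h0 | h0
    · exfalso
      apply hw
      funext S
      have := hT' S
      rw [← h0, zero_div, zero_mul] at this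
      simpa using this
    · exact h0
  have h1 := congrFun h T
  rw [Matrix.vecMul, dotProduct, Pi.smul_apply, smul_eq_mul] at h1
  have h2 : ‖z‖ * ‖w T‖ ≤ B * ‖w T‖ := by
    rw [← norm_mul, ← h1]
    refine (norm_sum_le _ _).trans ?_
    calc ∑ T', ‖w T' * ((Mx g c).map (Int.cast : ℤ → ℂ)) T' T‖
        ≤ ∑ T', (‖w T‖ / vv g T * vv g T') * (|(c (symmDiff T' T) : ℝ)| * ∏ i ∈ (symmDiff T' T) ∩ T, (g i : ℝ)) := by
          apply Finset.sum_le_sum
          intro T' _
          rw [norm_mul]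
          have e1 : ‖((Mx g c).map (Int.cast : ℤ → ℂ)) T' T‖ = |(c (symmDiff T' T) : ℝ)| * ∏ i ∈ (symmDiff T' T) ∩ T, (g i : ℝ) := by
            rw [Matrix.map_apply, Mx, Matrix.of_apply]
            push_cast
            rw [norm_mul, norm_prod, Complex.norm_intCast]
            simp only [Complex.norm_natCast]
          rw [e1]
          apply mul_le_mul_of_nonneg_right (hT' T')
          exact mul_nonneg (abs_nonneg _) (Finset.prod_nonneg (fun i _ => Nat.cast_nonneg _))
      _ = ∑ S, ‖w T‖ * (|(c S : ℝ)| * vv g S) := by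
          rw [← sum_symmDiff T (fun S => ‖w T‖ * (|(c S : ℝ)| * vv g S))]
          apply Finset.sum_congr rfl
          intro T' _
          have h := vv_mul g (symmDiff T' T) T
          have h1 : symmDiff (symmDiff T' T) T = T' := by rw [symmDiff_assoc, symmDiff_self]; simp
          rw [h1] at h
          have hv := (vv_pos hg T).ne'
          have e2 : ‖w T‖ / vv g T * vv g T' * (|(c (symmDiff T' T) : ℝ)| * ∏ i ∈ (symmDiff T' T) ∩ T, (g i : ℝ)) =
              ‖w T‖ / vv g T * |(c (symmDiff T' T) : ℝ)| * (vv g T' * ∏ i ∈ (symmDiff T' T) ∩ T, (g i : ℝ)) := by ring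
          rw [e2, h]
          field_simp
      _ = ‖w T‖ * ∑ S, |(c S : ℝ)| * vv g S := by rw [Finset.mul_sum]
      _ ≤ ‖w T‖ * B := by gcongr
      _ = B * ‖w T‖ := mul_comm _ _
  exact le_of_mul_le_mul_right h2 hwT

/-- Liouville type inequality for integer combinations of products of square roots -/
theorem liou {g : ι → ℕ} (hg : ∀ i, 1 ≤ g i) (c : Finset ι → ℤ) {B : ℝ} (hB1 : 1 ≤ B)
    (hB : ∑ S, |(c S : ℝ)| * vv g S ≤ B) (hne : ∑ S, (c S : ℝ) * vv g S ≠ 0) :
    1 ≤ |∑ S, (c S : ℝ) * vv g S| * B ^ (2 ^ Fintype.card ι) := by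
  set ξ : ℝ := ∑ S, (c S : ℝ) * vv g S with hξ
  set P : ℤ[X] := (Mx g c).charpoly with hP
  have hdeg : P.natDegree = 2 ^ Fintype.card ι := by
    rw [hP, Matrix.charpoly_natDegree_eq_dim, Fintype.card_finset]
  have h1 : aeval ξ P = 0 := by
    have h2 : aeval ξ P = ((Mx g c).map (Int.castRingHom ℝ)).charpoly.eval ξ := by
      rw [Matrix.charpoly_map, eval_map, ← algebraMap_int_eq, ← aeval_def]
    rw [h2, Matrix.eval_charpoly, ← Matrix.exists_vecMul_eq_zero_iff]
    refine ⟨vv g, ?_, ?_⟩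
    · intro h0
      have := congrFun h0 ∅
      have h3 := vv_pos hg ∅
      rw [this] at h3
      exact lt_irrefl _ h3
    · rw [Matrix.vecMul_sub]
      have h4 := vecMul_Mx g c
      have h5 : Matrix.vecMul (vv g) ((Mx g c).map (Int.castRingHom ℝ)) = ξ • (vv g) := h4
      rw [h5]
      have h6 : Matrix.vecMul (vv g) (Matrix.scalar (Finset ι) ξ) = ξ • (vv g) := by
        rw [Matrix.scalar_apply, ← Matrix.smul_one_eq_diagonal, Matrix.vecMul_smul, Matrix.vecMul_one]
      rw [h6, sub_self]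
  have h2 : ∀ z : ℂ, aeval z P = 0 → ‖z‖ ≤ B := by
    intro z hz
    have h2 : aeval z P = ((Mx g c).map (Int.castRingHom ℂ)).charpoly.eval z := by
      rw [Matrix.charpoly_map, eval_map, ← algebraMap_int_eq, ← aeval_def]
    rw [h2, Matrix.eval_charpoly, ← Matrix.exists_vecMul_eq_zero_iff] at hz
    obtain ⟨w, hw, hz⟩ := hz
    apply eig_bound hg c hw (z := z) _ hB
    rw [Matrix.vecMul_sub, sub_eq_zero] at hz
    have h6 : Matrix.vecMul w (Matrix.scalar (Finset ι) z) = z • w := by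
      rw [Matrix.scalar_apply, ← Matrix.smul_one_eq_diagonal, Matrix.vecMul_smul, Matrix.vecMul_one]
    rw [← h6, hz]
    rfl
  have := int_poly_bound (Matrix.charpoly_monic _) h1 hne hB1 h2
  rw [hdeg] at this
  exact this

end Pool.Agent.W24.Liou
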