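import Mathlib
import Pool.Agent.H425R3.JL.F3

/-!
# Riesz products against almost periodic polynomials
-/

open Filter Topology MeasureTheory Finset
open Pool.Agent.H383.AP Pool.Agent.H383.Gen

namespace Pool.Agent.W24.Riesz

/-- distance to the nearest integer -/
noncomputable def nz (θ : ℝ) : ℝ := |θ - round θ|

lemma norm_chr_one_sub (θ : ℝ) : 4 * nz θ ≤ ‖chr θ 1 - 1‖ := by
  set r : ℝ := θ - round θ with hr
  have h1 : chr θ 1 = Complex.exp (((2 * Real.pi * r : ℝ) : ℂ) * Complex.I) := by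
    unfold chr
    rw [Complex.exp_eq_exp_iff_exists_int]
    refine ⟨round θ, ?_⟩
    rw [hr]; push_cast; ring
  have hr2 : |r| ≤ 1/2 := abs_sub_round θ
  have h2 : ‖Complex.exp (((2 * Real.pi * r : ℝ) : ℂ) * Complex.I) - 1‖ = 2 * |Real.sin (Real.pi * r)| := by
    have h3 : ‖Complex.exp (((2 * Real.pi * r : ℝ) : ℂ) * Complex.I) - 1‖^2 = (2 * |Real.sin (Real.pi * r)|)^2 := by
      rw [← Complex.normSq_eq_norm_sq, Complex.normSq_apply]
      simp only [Complex.sub_re, Complex.sub_im, Complex.one_re, Complex.one_im, Complex.exp_ofReal_mul_I_re,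
        Complex.exp_ofReal_mul_I_im]
      rw [mul_pow, sq_abs]
      have e1 : 2 * Real.pi * r = 2 * (Real.pi * r) := by ring
      rw [e1, Real.cos_two_mul, Real.sin_two_mul]
      have e2 := Real.sin_sq_add_cos_sq (Real.pi * r)
      have e3 : Real.cos (Real.pi * r) ^ 2 = 1 - Real.sin (Real.pi * r)^2 := by linarith
      have e4 : Real.cos (Real.pi * r) ^ 4 = (1 - Real.sin (Real.pi * r)^2)^2 := by rw [← e3]; ring
      ring_nf
      rw [e4, e3]
      ring
    exact (sq_eq_sq₀ (norm_nonneg _) (by positivity)).mp h3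
  rw [h1, h2]
  have h4 : 2 / Real.pi * |Real.pi * r| ≤ |Real.sin (Real.pi * r)| := by
    apply Real.mul_abs_le_abs_sin
    rw [abs_mul, abs_of_pos Real.pi_pos]
    nlinarith [Real.pi_pos]
  have h5 : 2 / Real.pi * |Real.pi * r| = 2 * |r| := by
    rw [abs_mul, abs_of_pos Real.pi_pos]
    field_simp
  unfold nz
  rw [← hr]
  linarith

/-- averages over a window -/
noncomputable def av (N : ℕ) (g : ℕ → ℂ) : ℂ := (∑ n ∈ Finset.Ico N (2*N), g n) / N

lemma av_chr_int {θ : ℝ} (h : ∃ k : ℤ, θ = k) {N : ℕ} (hN : 0 < N) : av N (chr θ) = 1 := by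
  obtain ⟨k, rfl⟩ := h
  have h2 : ∀ n, chr (k:ℝ) n = 1 := by
    intro n
    simp only [chr]
    rw [Complex.exp_eq_one_iff]
    refine ⟨n * k, ?_⟩
    push_cast; ring
  unfold av
  rw [Finset.sum_congr rfl (fun n _ => h2 n)]
  have hN' : (N:ℂ) ≠ 0 := by exact_mod_cast hN.ne'
  simp only [Finset.sum_const, Nat.card_Ico, nsmul_eq_mul, mul_one]
  rw [show 2 * N - N = N by omega, div_self hN']

lemma av_chr_le {θ δ : ℝ} (hδ : 0 < δ) (h : δ ≤ nz θ) {N : ℕ} (hN : 0 < N) : ‖av N (chr θ)‖ ≤ 1 / (2 * δ * N) := by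
  have hN' : (0:ℝ) < N := by exact_mod_cast hN
  have hz := norm_chr_one_sub θ
  have hz0 : 0 < ‖chr θ 1 - 1‖ := by linarith
  have hz1 : chr θ 1 ≠ 1 := by
    intro h1
    rw [h1, sub_self, norm_zero] at hz0
    exact lt_irrefl _ hz0
  have hpow : ∀ n : ℕ, chr θ n = (chr θ 1) ^ n := by
    intro n
    simp only [chr]
    rw [← Complex.exp_nat_mul]
    congr 1
    push_cast; ring
  have e : ∑ n ∈ Finset.Ico N (2*N), chr θ n = ((chr θ 1)^(2*N) - (chr θ 1)^N)/(chr θ 1 - 1) := by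
    rw [← geom_sum_Ico hz1 (by omega)]
    exact Finset.sum_congr rfl (fun n _ => hpow n)
  unfold av
  rw [e, norm_div, norm_div, Complex.norm_natCast]
  have h1 : ‖(chr θ 1)^(2*N) - (chr θ 1)^N‖ ≤ 2 := by
    refine (norm_sub_le _ _).trans ?_
    rw [← hpow, ← hpow, norm_chr, norm_chr]; norm_num
  calc ‖(chr θ 1)^(2*N) - (chr θ 1)^N‖ / ‖chr θ 1 - 1‖ / N ≤ 2 / (4 * δ) / N := by
        gcongr
        linarith
    _ = _ := by field_simp; norm_num

set_option linter.unusedSectionVars false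

variable {J : Type*} [Fintype J] [DecidableEq J]

/-- the Riesz product -/
noncomputable def KK (α β : J → ℝ) (n : ℕ) : ℝ := ∏ j, (1 + Real.cos (2 * Real.pi * (n * α j) + β j))

lemma KK_nonneg (α β : J → ℝ) (n : ℕ) : 0 ≤ KK α β n :=
  Finset.prod_nonneg (fun j _ => by have := Real.neg_one_le_cos (2 * Real.pi * (n * α j) + β j); linarith)

lemma KK_le (α β : J → ℝ) (n : ℕ) : KK α β n ≤ 2 ^ (Fintype.card J) := by
  unfold KK
  calc ∏ j, (1 + Real.cos (2 * Real.pi * (n * α j) + β j)) ≤ ∏ j : J, (2:ℝ) := by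
        apply Finset.prod_le_prod
        · intro j _
          have := Real.neg_one_le_cos (2 * Real.pi * (n * α j) + β j); linarith
        · intro j _
          have := Real.cos_le_one (2 * Real.pi * (n * α j) + β j); linarith
    _ = _ := by rw [Finset.prod_const, Finset.card_univ]

/-- the index set of signs -/
def sg : Finset ℤ := {-1, 0, 1}

/-- coefficient of one factor -/
noncomputable def cc (e : ℤ) : ℝ := if e = 0 then 1 else 1/2

/-- the coefficients of the Riesz product -/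
noncomputable def Z (β : J → ℝ) (ε : J → ℤ) : ℂ := ∏ j, ((cc (ε j) : ℂ) * Complex.exp (((ε j * β j : ℝ) : ℂ) * Complex.I))

lemma norm_Z (β : J → ℝ) (ε : J → ℤ) : ‖Z β ε‖ = ∏ j, cc (ε j) := by
  unfold Z
  rw [norm_prod]
  apply Finset.prod_congr rfl
  intro j _
  rw [norm_mul, Complex.norm_exp_ofReal_mul_I, mul_one, Complex.norm_real, Real.norm_eq_abs, abs_of_nonneg]
  unfold cc; split_ifs <;> norm_num

lemma sum_norm_Z (β : J → ℝ) : ∑ ε ∈ Fintype.piFinset (fun _ : J => sg), ‖Z β ε‖ = 2 ^ (Fintype.card J) := by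
  simp only [norm_Z]
  rw [← Finset.prod_univ_sum (fun _ : J => sg) (fun _ e => cc e)]
  have : ∑ e ∈ sg, cc e = 2 := by
    unfold sg cc
    rw [Finset.sum_insert (by norm_num), Finset.sum_insert (by norm_num), Finset.sum_singleton]
    norm_num
  rw [this, Finset.prod_const, Finset.card_univ]

/-- the frequencies of the Riesz product -/
noncomputable def fr (α : J → ℝ) (ε : J → ℤ) : ℝ := ∑ j, (ε j : ℝ) * α j

lemma KK_eq (α β : J → ℝ) (n : ℕ) : ((KK α β n : ℝ) : ℂ) =
    ∑ ε ∈ Fintype.piFinset (fun _ : J => sg), Z β ε * chr (fr α ε) n := by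
  have h1 : ∀ j, ((1 + Real.cos (2 * Real.pi * (n * α j) + β j) : ℝ) : ℂ) =
      ∑ e ∈ sg, ((cc e : ℂ) * Complex.exp (((e * β j : ℝ) : ℂ) * Complex.I) * chr (e * α j) n) := by
    intro j
    unfold sg cc
    rw [Finset.sum_insert (by norm_num), Finset.sum_insert (by norm_num), Finset.sum_singleton]
    rw [if_neg (by norm_num), if_pos rfl, if_neg (by norm_num)]
    push_cast
    rw [Complex.cos]
    unfold chr
    have e1 : Complex.exp (-1 * (β j : ℂ) * Complex.I) * Complex.exp (((2 * Real.pi * (n * (-1 * α j)) : ℝ) : ℂ) * Complex.I) =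
        Complex.exp (-(2 * Real.pi * (n * α j) + β j) * Complex.I) := by
      rw [← Complex.exp_add]
      congr 1
      push_cast; ring
    have e2 : Complex.exp (1 * (β j : ℂ) * Complex.I) * Complex.exp (((2 * Real.pi * (n * (1 * α j)) : ℝ) : ℂ) * Complex.I) =
        Complex.exp ((2 * Real.pi * (n * α j) + β j) * Complex.I) := by
      rw [← Complex.exp_add]
      congr 1
      push_cast; ring
    have e3 : Complex.exp (0 * (β j : ℂ) * Complex.I) = 1 := by rw [zero_mul, zero_mul, Complex.exp_zero]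
    have e4 : Complex.exp (((2 * Real.pi * (n * (0 * α j)) : ℝ) : ℂ) * Complex.I) = 1 := by
      rw [zero_mul, mul_zero, mul_zero, Complex.ofReal_zero, zero_mul, Complex.exp_zero]
    rw [e3, e4]
    linear_combination (-1/2 : ℂ) * e1 + (-1/2 : ℂ) * e2
  unfold KK
  rw [Complex.ofReal_prod, Finset.prod_congr rfl (fun j _ => h1 j), Finset.prod_univ_sum]
  apply Finset.sum_congr rfl
  intro ε _
  unfold Z fr
  rw [Finset.prod_mul_distrib]
  congr 1
  unfold chr
  rw [← Complex.exp_sum]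
  congr 1
  push_cast
  rw [← Finset.sum_mul]
  congr 1
  rw [Finset.mul_sum, Finset.mul_sum]

lemma av_KK_chr (α β : J → ℝ) (θ : ℝ) (N : ℕ) : av N (fun n => ((KK α β n : ℝ) : ℂ) * chr θ n) =
    ∑ ε ∈ Fintype.piFinset (fun _ : J => sg), Z β ε * av N (chr (fr α ε + θ)) := by
  unfold av
  simp only [KK_eq]
  have h1 : ∑ n ∈ Finset.Ico N (2*N), (∑ ε ∈ Fintype.piFinset (fun _ : J => sg), Z β ε * chr (fr α ε) n) * chr θ n =
      ∑ ε ∈ Fintype.piFinset (fun _ : J => sg), Z β ε * ∑ n ∈ Finset.Ico N (2*N), chr (fr α ε + θ) n := by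
    simp only [Finset.sum_mul]
    rw [Finset.sum_comm]
    apply Finset.sum_congr rfl
    intro ε _
    rw [Finset.mul_sum]
    apply Finset.sum_congr rfl
    intro n _
    rw [← chr_mul, Pi.mul_apply]; ring
  rw [h1, Finset.sum_div]
  apply Finset.sum_congr rfl
  intro ε _
  rw [mul_div_assoc]

open Classical in
/-- the averages of the Riesz product times a character -/
lemma av_KK_main (α β : J → ℝ) {θ δ : ℝ} (hδ : 0 < δ) {N : ℕ} (hN : 0 < N)
    (hgap : ∀ ε ∈ Fintype.piFinset (fun _ : J => sg), (∃ k : ℤ, fr α ε + θ = k) ∨ δ ≤ nz (fr α ε + θ)) :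
    ‖av N (fun n => ((KK α β n : ℝ) : ℂ) * chr θ n) -
      ∑ ε ∈ (Fintype.piFinset (fun _ : J => sg)).filter (fun ε => ∃ k : ℤ, fr α ε + θ = k), Z β ε‖ ≤
      2 ^ (Fintype.card J) / (2 * δ * N) := by
  rw [av_KK_chr, Finset.sum_filter, ← Finset.sum_sub_distrib]
  calc ‖∑ ε ∈ Fintype.piFinset (fun _ : J => sg), (Z β ε * av N (chr (fr α ε + θ)) -
          if ∃ k : ℤ, fr α ε + θ = k then Z β ε else 0)‖
      ≤ ∑ ε ∈ Fintype.piFinset (fun _ : J => sg), ‖Z β ε‖ * (1 / (2 * δ * N)) := by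
        refine (norm_sum_le _ _).trans (Finset.sum_le_sum (fun ε hε => ?_))
        have hN' : (0:ℝ) < N := by exact_mod_cast hN
        by_cases hk : ∃ k : ℤ, fr α ε + θ = k
        · rw [if_pos hk, av_chr_int hk hN, mul_one, sub_self, norm_zero]
          positivity
        · rw [if_neg hk, sub_zero, norm_mul]
          gcongr
          exact av_chr_le hδ ((hgap ε hε).resolve_left hk) hN
    _ = _ := by rw [← Finset.sum_mul, sum_norm_Z]; ring

end Pool.Agent.W24.Riesz
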