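import Mathlib
import Pool.Agent.W24.Riesz

/-!
# Riesz products against almost periodic polynomials: the main term
-/

open Filter Topology MeasureTheory Finset
open Pool.Agent.H383.AP Pool.Agent.H383.Gen

namespace Pool.Agent.W24.Riesz

set_option linter.unusedSectionVars false

variable {J : Type*} [Fintype J] [DecidableEq J]

lemma zero_mem_sg : (0 : J → ℤ) ∈ Fintype.piFinset (fun _ : J => sg) := by
  rw [Fintype.mem_piFinset]
  intro j
  simp [sg]

lemma single_mem_sg (j : J) : (-Pi.single j 1 : J → ℤ) ∈ Fintype.piFinset (fun _ : J => sg) := by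
  rw [Fintype.mem_piFinset]
  intro i
  rw [Pi.neg_apply]
  by_cases h : i = j
  · subst h; simp [sg]
  · rw [Pi.single_eq_of_ne h]; simp [sg]

lemma Z_zero (β : J → ℝ) : Z β 0 = 1 := by
  unfold Z cc
  apply Finset.prod_eq_one
  intro j _
  simp

lemma Z_single (β : J → ℝ) (j : J) : Z β (-Pi.single j 1) = 1/2 * Complex.exp (((-β j : ℝ) : ℂ) * Complex.I) := by
  unfold Z
  rw [Finset.prod_eq_single j]
  · rw [Pi.neg_apply, Pi.single_eq_same]
    unfold cc
    rw [if_neg (by norm_num)]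
    push_cast
    congr 2
    ring
  · intro i _ hi
    rw [Pi.neg_apply, Pi.single_eq_of_ne hi]
    unfold cc
    simp
  · intro h; exact absurd (Finset.mem_univ j) h

lemma fr_zero (α : J → ℝ) : fr α 0 = 0 := by
  unfold fr; simp

lemma fr_single (α : J → ℝ) (j : J) : fr α (-Pi.single j 1) = -α j := by
  unfold fr
  rw [Finset.sum_eq_single j]
  · rw [Pi.neg_apply, Pi.single_eq_same]; push_cast; ring
  · intro i _ hi
    rw [Pi.neg_apply, Pi.single_eq_of_ne hi]; simp
  · intro h; exact absurd (Finset.mem_univ j) h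

/-- real averages over a window -/
noncomputable def avr (N : ℕ) (g : ℕ → ℝ) : ℝ := (∑ n ∈ Finset.Ico N (2*N), g n) / N

/-- the arithmetic input: integrality relations and gaps -/
structure Arith (α0 : ℝ) (d : J → ℕ) (M : ℕ) (δ : ℝ) : Prop where
  d_pos : ∀ j, 1 ≤ d j
  d_le : ∀ j, d j ≤ M^2
  d_inj : Function.Injective d
  nonint : ∀ j, ¬ ∃ k : ℤ, α0 * √(d j : ℝ) = k
  δ_pos : 0 < δ
  ind0 : ∀ ε ∈ Fintype.piFinset (fun _ : J => sg), (∃ k : ℤ, fr (fun j => α0 * √(d j : ℝ)) ε = k) → ε = 0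
  ind : ∀ ε ∈ Fintype.piFinset (fun _ : J => sg), ∀ m : ℕ, 1 ≤ m → m ≤ M^2 →
    (∃ k : ℤ, fr (fun j => α0 * √(d j : ℝ)) ε + α0 * √(m:ℝ) = k) → ε = 0 ∨ ∃ j, m = d j ∧ ε = -Pi.single j 1
  gap : ∀ ε ∈ Fintype.piFinset (fun _ : J => sg), ∀ m : ℕ, m ≤ M^2 →
    (∃ k : ℤ, fr (fun j => α0 * √(d j : ℝ)) ε + α0 * √(m:ℝ) = k) ∨ δ ≤ nz (fr (fun j => α0 * √(d j : ℝ)) ε + α0 * √(m:ℝ))

lemma avr_KK {α0 δ : ℝ} {d : J → ℕ} {M : ℕ} (hA : Arith α0 d M δ) (β : J → ℝ) {N : ℕ} (hN : 0 < N) :
    |avr N (KK (fun j => α0 * √(d j : ℝ)) β) - 1| ≤ 2 ^ (Fintype.card J) / (2 * δ * N) := by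
  classical
  have h := av_KK_main (fun j => α0 * √(d j : ℝ)) β (θ := 0) hA.δ_pos hN (by
    intro ε hε
    have := hA.gap ε hε 0 (Nat.zero_le _)
    simpa using this)
  have h1 : (Fintype.piFinset (fun _ : J => sg)).filter (fun ε => ∃ k : ℤ, fr (fun j => α0 * √(d j : ℝ)) ε + 0 = k) = {0} := by
    ext ε
    rw [Finset.mem_filter, Finset.mem_singleton]
    constructor
    · rintro ⟨h1, h2⟩
      rw [add_zero] at h2
      exact hA.ind0 ε h1 h2
    · rintro rfl
      exact ⟨zero_mem_sg, 0, by rw [fr_zero]; simp⟩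
  rw [h1, Finset.sum_singleton, Z_zero] at h
  have h2 : av N (fun n => ((KK (fun j => α0 * √(d j : ℝ)) β n : ℝ) : ℂ) * chr 0 n) =
      ((avr N (KK (fun j => α0 * √(d j : ℝ)) β) : ℝ) : ℂ) := by
    unfold av avr
    push_cast
    congr 1
    apply Finset.sum_congr rfl
    intro n _
    rw [chr_zero, Pi.one_apply, mul_one]
  rw [h2] at h
  rw [← Real.norm_eq_abs, ← Complex.norm_real]
  push_cast
  exact h

open Classical in
lemma av_KK_m {α0 δ : ℝ} {d : J → ℕ} {M : ℕ} (hA : Arith α0 d M δ) (β : J → ℝ) {N : ℕ} (hN : 0 < N)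
    {m : ℕ} (hm1 : 1 ≤ m) (hm : m ≤ M^2) :
    ‖av N (fun n => ((KK (fun j => α0 * √(d j : ℝ)) β n : ℝ) : ℂ) * chr (α0 * √(m:ℝ)) n) -
      ((if ∃ k : ℤ, α0 * √(m:ℝ) = k then 1 else 0) +
        ∑ j, if m = d j then 1/2 * Complex.exp (((-β j : ℝ) : ℂ) * Complex.I) else 0)‖ ≤
      2 ^ (Fintype.card J) / (2 * δ * N) := by
  have h := av_KK_main (fun j => α0 * √(d j : ℝ)) β (θ := α0 * √(m:ℝ)) hA.δ_pos hN (fun ε hε => hA.gap ε hε m hm)
  have h1 : ∑ ε ∈ (Fintype.piFinset (fun _ : J => sg)).filter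
        (fun ε => ∃ k : ℤ, fr (fun j => α0 * √(d j : ℝ)) ε + α0 * √(m:ℝ) = k), Z β ε =
      ((if ∃ k : ℤ, α0 * √(m:ℝ) = k then 1 else 0) +
        ∑ j, if m = d j then 1/2 * Complex.exp (((-β j : ℝ) : ℂ) * Complex.I) else 0) := by
    by_cases hk : ∃ k : ℤ, α0 * √(m:ℝ) = k
    · have hne : ∀ j, m ≠ d j := by
        intro j hj
        apply hA.nonint j
        rw [← hj]; exact hk
      have h2 : (Fintype.piFinset (fun _ : J => sg)).filter
          (fun ε => ∃ k : ℤ, fr (fun j => α0 * √(d j : ℝ)) ε + α0 * √(m:ℝ) = k) = {0} := by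
        ext ε
        rw [Finset.mem_filter, Finset.mem_singleton]
        constructor
        · rintro ⟨h1, h2⟩
          rcases hA.ind ε h1 m hm1 hm h2 with h3 | ⟨j, hj, -⟩
          · exact h3
          · exact absurd hj (hne j)
        · rintro rfl
          refine ⟨zero_mem_sg, ?_⟩
          rw [fr_zero, zero_add]; exact hk
      rw [h2, Finset.sum_singleton, Z_zero, if_pos hk, Finset.sum_eq_zero, add_zero]
      intro j _
      rw [if_neg (hne j)]
    · rw [if_neg hk, zero_add]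
      by_cases hj : ∃ j, m = d j
      · obtain ⟨j, hj⟩ := hj
        have h2 : (Fintype.piFinset (fun _ : J => sg)).filter
            (fun ε => ∃ k : ℤ, fr (fun j => α0 * √(d j : ℝ)) ε + α0 * √(m:ℝ) = k) = {-Pi.single j 1} := by
          ext ε
          rw [Finset.mem_filter, Finset.mem_singleton]
          constructor
          · rintro ⟨h1, h2⟩
            rcases hA.ind ε h1 m hm1 hm h2 with h3 | ⟨j', hj', h3⟩
            · exfalso
              apply hk
              rw [h3, fr_zero, zero_add] at h2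
              exact h2
            · have : j' = j := hA.d_inj (by rw [← hj', hj])
              rw [h3, this]
          · rintro rfl
            refine ⟨single_mem_sg j, 0, ?_⟩
            rw [fr_single, hj]; simp
        rw [h2, Finset.sum_singleton, Z_single, Finset.sum_eq_single j, if_pos hj]
        · intro i _ hi
          rw [if_neg]
          intro h3
          exact hi (hA.d_inj (by rw [← h3, hj]))
        · intro h; exact absurd (Finset.mem_univ j) h
      · push Not at hj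
        have h2 : (Fintype.piFinset (fun _ : J => sg)).filter
            (fun ε => ∃ k : ℤ, fr (fun j => α0 * √(d j : ℝ)) ε + α0 * √(m:ℝ) = k) = ∅ := by
          apply Finset.filter_eq_empty_iff.mpr
          intro ε h1 h2
          rcases hA.ind ε h1 m hm1 hm h2 with h3 | ⟨j', hj', -⟩
          · apply hk
            rw [h3, fr_zero, zero_add] at h2
            exact h2
          · exact hj j' hj'
        rw [h2, Finset.sum_empty, Finset.sum_eq_zero]
        intro j _
        rw [if_neg (hj j)]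
  rw [h1] at h
  exact h

/-- the main term -/
lemma avr_KU {α0 δ : ℝ} {d : J → ℕ} {M : ℕ} (hA : Arith α0 d M δ) (a : ℕ → ℝ) (φ X : ℝ) {s ψ : ℝ}
    (hψ : Complex.exp (((-ψ : ℝ) : ℂ) * Complex.I) = s) {N : ℕ} (hN : 0 < N) :
    |avr N (fun n => KK (fun j => α0 * √(d j : ℝ)) (fun j => 2 * Real.pi * (X * √(d j : ℝ)) - φ + ψ) n *
        U a φ (X + n * α0) M) - (∑ m ∈ Finset.Icc 1 (M^2), rt a φ α0 X m + s / 2 * ∑ j, a (d j))| ≤
      (∑ m ∈ Finset.Icc 1 (M^2), |a m|) * (2 ^ (Fintype.card J) / (2 * δ * N)) := by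
  classical
  set β : J → ℝ := fun j => 2 * Real.pi * (X * √(d j : ℝ)) - φ + ψ with hβ
  set K : ℕ → ℝ := KK (fun j => α0 * √(d j : ℝ)) β with hK
  have hN' : (0:ℝ) < N := by exact_mod_cast hN
  have e1 : avr N (fun n => K n * U a φ (X + n * α0) M) =
      (∑ m ∈ Finset.Icc 1 (M^2), ac a φ X m * av N (fun n => ((K n : ℝ) : ℂ) * chr (α0 * √(m:ℝ)) n)).re := by
    unfold avr av
    have e2 : ∀ m ∈ Finset.Icc 1 (M^2), ac a φ X m * ((∑ n ∈ Finset.Ico N (2*N), ((K n : ℝ) : ℂ) * chr (α0 * √(m:ℝ)) n) / N) =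
        (∑ n ∈ Finset.Ico N (2*N), ((K n : ℝ) : ℂ) * (ac a φ X m * chr (α0 * √(m:ℝ)) n)) / N := by
      intro m _
      rw [← mul_div_assoc, Finset.mul_sum]
      congr 1
      apply Finset.sum_congr rfl
      intro n _
      ring
    rw [Finset.sum_congr rfl e2, ← Finset.sum_div, Finset.sum_comm]
    have e3 : ∀ n ∈ Finset.Ico N (2*N), ∑ m ∈ Finset.Icc 1 (M^2), ((K n : ℝ) : ℂ) * (ac a φ X m * chr (α0 * √(m:ℝ)) n) =
        ((K n : ℝ) : ℂ) * ∑ m ∈ Finset.Icc 1 (M^2), ac a φ X m * chr (α0 * √(m:ℝ)) n := by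
      intro n _
      rw [Finset.mul_sum]
    rw [Finset.sum_congr rfl e3]
    have e4 : ∀ z : ℂ, (z / (N:ℂ)).re = z.re / N := by
      intro z
      rw [show (N:ℂ) = (((N:ℝ)) : ℂ) by push_cast; rfl, Complex.div_ofReal_re]
    rw [e4, Complex.re_sum]
    congr 1
    apply Finset.sum_congr rfl
    intro n _
    rw [Complex.re_ofReal_mul, ← U_eq_re]
  have e5 : (∑ m ∈ Finset.Icc 1 (M^2), rt a φ α0 X m + s / 2 * ∑ j, a (d j)) =
      (∑ m ∈ Finset.Icc 1 (M^2), ac a φ X m * ((if ∃ k : ℤ, α0 * √(m:ℝ) = k then 1 else 0) +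
        ∑ j, if m = d j then 1/2 * Complex.exp (((-β j : ℝ) : ℂ) * Complex.I) else 0)).re := by
    have e6 : ∑ m ∈ Finset.Icc 1 (M^2), ac a φ X m * ((if ∃ k : ℤ, α0 * √(m:ℝ) = k then 1 else 0) +
        ∑ j, if m = d j then 1/2 * Complex.exp (((-β j : ℝ) : ℂ) * Complex.I) else 0) =
        ∑ m ∈ Finset.Icc 1 (M^2), ac a φ X m * (if ∃ k : ℤ, α0 * √(m:ℝ) = k then 1 else 0) +
        ∑ j, ac a φ X (d j) * (1/2 * Complex.exp (((-β j : ℝ) : ℂ) * Complex.I)) := by
      simp only [mul_add, Finset.sum_add_distrib]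
      congr 1
      simp only [Finset.mul_sum]
      rw [Finset.sum_comm]
      apply Finset.sum_congr rfl
      intro j _
      rw [Finset.sum_eq_single (d j)]
      · rw [if_pos rfl]
      · intro m _ hm
        rw [if_neg hm, mul_zero]
      · intro h
        exfalso
        apply h
        rw [Finset.mem_Icc]
        exact ⟨hA.d_pos j, hA.d_le j⟩
    rw [e6, Complex.add_re, Complex.re_sum, Complex.re_sum]
    congr 1
    · apply Finset.sum_congr rfl
      intro m _
      unfold rt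
      split_ifs with hk
      · rw [mul_one, ac_re]
      · simp
    · rw [Finset.mul_sum]
      apply Finset.sum_congr rfl
      intro j _
      have e7 : ac a φ X (d j) * (1/2 * Complex.exp (((-β j : ℝ) : ℂ) * Complex.I)) = (((s / 2 * a (d j) : ℝ)) : ℂ) := by
        unfold ac
        have e8 : Complex.exp (((2 * Real.pi * (X * √(d j : ℝ)) - φ : ℝ) : ℂ) * Complex.I) *
            Complex.exp (((-β j : ℝ) : ℂ) * Complex.I) = s := by
          rw [← hψ, ← Complex.exp_add]
          congr 1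
          simp only [hβ]
          push_cast; ring
        push_cast
        push_cast at e8
        linear_combination ((a (d j) : ℂ) / 2) * e8
      rw [e7, Complex.ofReal_re]
  rw [e1, e5, ← Complex.sub_re, ← Finset.sum_sub_distrib]
  refine (Complex.abs_re_le_norm _).trans ?_
  refine (norm_sum_le _ _).trans ?_
  rw [Finset.sum_mul]
  apply Finset.sum_le_sum
  intro m hm
  rw [Finset.mem_Icc] at hm
  rw [← mul_sub, norm_mul, norm_ac]
  exact mul_le_mul_of_nonneg_left (av_KK_m hA β hN hm.1 hm.2) (abs_nonneg _)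

/-- values of prescribed sign of the sequence `e` -/
theorem riesz_main {α0 δ : ℝ} {d : J → ℕ} {M : ℕ} (hA : Arith α0 d M δ) (a : ℕ → ℝ) (φ X : ℝ) {s ψ : ℝ}
    (hψ : Complex.exp (((-ψ : ℝ) : ℂ) * Complex.I) = s) (hs : s = 1 ∨ s = -1) {N : ℕ} (hN : 0 < N)
    {e : ℕ → ℝ} {C1 : ℝ} (hC1 : |∑ m ∈ Finset.Icc 1 (M^2), rt a φ α0 X m| ≤ C1)
    (hc1 : 2 ^ (Fintype.card J) / (2 * δ * N) ≤ 1/2)
    (hc2 : (∑ m ∈ Finset.Icc 1 (M^2), |a m|) * (2 ^ (Fintype.card J) / (2 * δ * N)) ≤ 1)
    (hc3 : 4 ^ (Fintype.card J) * ∑ n ∈ Finset.range (2*N), (e n - U a φ (X + n * α0) M)^2 ≤ N)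
    (hpos : 0 < ∑ j, a (d j)) :
    ∃ n ∈ Finset.Ico N (2*N), 1/3 * ∑ j, a (d j) - 2 * (C1 + 2) ≤ s * e n := by
  by_contra hcon
  push Not at hcon
  set A : ℝ := ∑ j, a (d j) with hAdef
  set V : ℝ := 1/3 * A - 2 * (C1 + 2) with hV
  set K : ℕ → ℝ := KK (fun j => α0 * √(d j : ℝ)) (fun j => 2 * Real.pi * (X * √(d j : ℝ)) - φ + ψ) with hK
  have hN' : (0:ℝ) < N := by exact_mod_cast hN
  have hK0 : ∀ n, 0 ≤ K n := fun n => KK_nonneg _ _ n
  have hK1 : ∀ n, K n ≤ 2 ^ (Fintype.card J) := fun n => KK_le _ _ n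
  have hC10 : 0 ≤ C1 := (abs_nonneg _).trans hC1
  have m1 := avr_KK hA (fun j => 2 * Real.pi * (X * √(d j : ℝ)) - φ + ψ) hN
  have m2 := avr_KU hA a φ X hψ hN
  rw [← hK] at m1 m2
  have m3 := m1.trans hc1
  have m4 := m2.trans hc2
  -- the error of the model
  have m5 : |avr N (fun n => K n * (e n - U a φ (X + n * α0) M))| ≤ 1 := by
    unfold avr
    rw [abs_div, Nat.abs_cast, div_le_iff₀ hN', one_mul]
    have h1 : |∑ n ∈ Finset.Ico N (2*N), K n * (e n - U a φ (X + n * α0) M)| ≤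
        2 ^ (Fintype.card J) * ∑ n ∈ Finset.Ico N (2*N), |e n - U a φ (X + n * α0) M| := by
      rw [Finset.mul_sum]
      refine (Finset.abs_sum_le_sum_abs _ _).trans (Finset.sum_le_sum (fun n _ => ?_))
      rw [abs_mul, abs_of_nonneg (hK0 n)]
      exact mul_le_mul_of_nonneg_right (hK1 n) (abs_nonneg _)
    refine h1.trans ?_
    have h2 : (∑ n ∈ Finset.Ico N (2*N), |e n - U a φ (X + n * α0) M|)^2 ≤
        N * ∑ n ∈ Finset.range (2*N), (e n - U a φ (X + n * α0) M)^2 := by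
      refine sq_sum_le_card_mul_sum_sq.trans ?_
      rw [Nat.card_Ico, show 2 * N - N = N by omega]
      apply mul_le_mul_of_nonneg_left _ hN'.le
      simp only [sq_abs]
      apply Finset.sum_le_sum_of_subset_of_nonneg
      · intro n hn
        rw [Finset.mem_Ico] at hn
        rw [Finset.mem_range]; exact hn.2
      · intro n _ _; exact sq_nonneg _
    have h3 : (2 ^ (Fintype.card J) * ∑ n ∈ Finset.Ico N (2*N), |e n - U a φ (X + n * α0) M|)^2 ≤ (N:ℝ)^2 := by
      rw [mul_pow, ← pow_mul, mul_comm (Fintype.card J) 2, pow_mul]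
      norm_num
      calc (4:ℝ) ^ (Fintype.card J) * (∑ n ∈ Finset.Ico N (2*N), |e n - U a φ (X + n * α0) M|)^2
          ≤ 4 ^ (Fintype.card J) * (N * ∑ n ∈ Finset.range (2*N), (e n - U a φ (X + n * α0) M)^2) := by gcongr
        _ = N * (4 ^ (Fintype.card J) * ∑ n ∈ Finset.range (2*N), (e n - U a φ (X + n * α0) M)^2) := by ring
        _ ≤ N * N := by gcongr
        _ = (N:ℝ)^2 := by ring
    exact (abs_le_of_sq_le_sq' h3 hN'.le).2
  have m6 : avr N (fun n => K n * (e n - U a φ (X + n * α0) M)) =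
      avr N (fun n => K n * e n) - avr N (fun n => K n * U a φ (X + n * α0) M) := by
    unfold avr
    rw [← sub_div, ← Finset.sum_sub_distrib]
    congr 1
    apply Finset.sum_congr rfl
    intro n _
    ring
  -- upper bound
  have m7 : s * avr N (fun n => K n * e n) ≤ V * avr N K := by
    unfold avr
    rw [← mul_div_assoc, ← mul_div_assoc, Finset.mul_sum, Finset.mul_sum]
    apply div_le_div_of_nonneg_right _ hN'.le
    apply Finset.sum_le_sum
    intro n hn
    have h1 := (hcon n hn).le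
    have h2 := mul_le_mul_of_nonneg_right h1 (hK0 n)
    linarith
  rw [m6] at m5
  rw [abs_le] at m3 m4 m5 hC1
  have m8 : V * avr N K < 1/2 * A - (C1 + 2) := by
    rcases le_or_gt 0 V with h | h
    · have : V * avr N K ≤ V * (3/2) := by
        apply mul_le_mul_of_nonneg_left _ h
        linarith
      have e1 : V * (3/2) = 1/2 * A - 3 * (C1 + 2) := by rw [hV]; ring
      linarith
    · have : V * avr N K ≤ V * (1/2) := by
        apply mul_le_mul_of_nonpos_left _ h.le
        linarith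
      have e1 : V * (1/2) = 1/6 * A - (C1 + 2) := by rw [hV]; ring
      linarith
  have hs2 : s * s = 1 := by rcases hs with rfl | rfl <;> norm_num
  have m9 : 1/2 * A - (C1 + 2) ≤ s * avr N (fun n => K n * e n) := by
    rcases hs with rfl | rfl
    · linarith
    · linarith
  linarith

end Pool.Agent.W24.Riesz
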