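import Mathlib
import Pool.Agent.H383.LinIndep
import Pool.Agent.W24.Riesz2
import Pool.Agent.W24.Liou

/-!
# The arithmetic input for the Riesz products
-/

open Finset
open Pool.Agent.W24.Riesz Pool.Agent.W24.Liou

namespace Pool.Agent.W24.Ar

variable {ι : Type*} [Fintype ι] [DecidableEq ι]

/-- nonempty subsets -/
abbrev JJ (ι : Type*) [Fintype ι] [DecidableEq ι] := {S : Finset ι // S.Nonempty}

/-- products of primes -/
def dd (p : ι → ℕ) (S : JJ ι) : ℕ := ∏ i ∈ S.1, p i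

lemma dd_pos {p : ι → ℕ} (hp : ∀ i, (p i).Prime) (S : JJ ι) : 1 ≤ dd p S :=
  Finset.prod_pos (fun i _ => (hp i).pos)

lemma dd_ne_one {p : ι → ℕ} (hp : ∀ i, (p i).Prime) (S : JJ ι) : dd p S ≠ 1 := by
  obtain ⟨i, hi⟩ := S.2
  intro h
  have h1 : p i ∣ dd p S := Finset.dvd_prod_of_mem p hi
  rw [h] at h1
  exact (hp i).one_lt.ne' (Nat.dvd_one.mp h1)

lemma mem_of_dvd {p : ι → ℕ} (hp : ∀ i, (p i).Prime) (hinj : Function.Injective p) {S : JJ ι} {i : ι}
    (h : p i ∣ dd p S) : i ∈ S.1 := by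
  unfold dd at h
  rw [Prime.dvd_finsetProd_iff (hp i).prime] at h
  obtain ⟨j, hj, hij⟩ := h
  have := (Nat.prime_dvd_prime_iff_eq (hp i) (hp j)).mp hij
  rw [hinj this]; exact hj

lemma dd_inj {p : ι → ℕ} (hp : ∀ i, (p i).Prime) (hinj : Function.Injective p) : Function.Injective (dd p) := by
  intro S T h
  apply Subtype.ext
  ext i
  constructor
  · intro hi
    apply mem_of_dvd hp hinj
    rw [← h]
    exact Finset.dvd_prod_of_mem p hi
  · intro hi
    apply mem_of_dvd hp hinj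
    rw [h]
    exact Finset.dvd_prod_of_mem p hi

lemma dd_sqf {p : ι → ℕ} (hp : ∀ i, (p i).Prime) (hinj : Function.Injective p) (S : JJ ι) : Squarefree (dd p S) := by
  unfold dd
  apply Finset.squarefree_prod_of_pairwise_isCoprime
  · intro i _ j _ hij
    simp only [Function.onFun]
    exact Nat.coprime_iff_isRelPrime.mp ((Nat.coprime_primes (hp i) (hp j)).mpr (fun h => hij (hinj h)))
  · intro i _
    exact (hp i).squarefree

lemma cop {p : ι → ℕ} (hp : ∀ i, (p i).Prime) {κ0 : ℕ} (hκ : ∀ i, ¬ p i ∣ κ0) (S : JJ ι) : Nat.Coprime κ0 (dd p S) := by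
  unfold dd
  apply Nat.Coprime.prod_right
  intro i _
  exact ((Nat.Prime.coprime_iff_not_dvd (hp i)).mpr (hκ i)).symm

lemma sqf_mul {p : ι → ℕ} (hp : ∀ i, (p i).Prime) (hinj : Function.Injective p) {κ0 : ℕ} (hκ : ∀ i, ¬ p i ∣ κ0)
    (h0 : Squarefree κ0) (S : JJ ι) : Squarefree (κ0 * dd p S) :=
  (Nat.squarefree_mul (cop hp hκ S)).mpr ⟨h0, dd_sqf hp hinj S⟩

/-- the linear relations between the frequencies -/
lemma rel {p : ι → ℕ} (hp : ∀ i, (p i).Prime) (hinj : Function.Injective p) {κ0 : ℕ} (hκ : ∀ i, ¬ p i ∣ κ0)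
    (h0 : Squarefree κ0) (ε : JJ ι → ℤ) {m0 : ℕ} (hm0 : Squarefree m0) (r k : ℤ)
    (h : ∑ S, (ε S : ℝ) * √((κ0 * dd p S : ℕ):ℝ) + (r:ℝ) * √(m0:ℝ) = k) (S : JJ ι) :
    ε S + (if m0 = κ0 * dd p S then r else 0) = 0 := by
  have hli := Pool.Agent.H383.Gauss.sf_indep
  rw [linearIndependent_iff] at hli
  set F : {s : ℕ // Squarefree s} →₀ ℚ := ∑ S, Finsupp.single ⟨κ0 * dd p S, sqf_mul hp hinj hκ h0 S⟩ (ε S : ℚ) +
    Finsupp.single ⟨m0, hm0⟩ (r:ℚ) - Finsupp.single ⟨1, squarefree_one⟩ (k:ℚ) with hF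
  have h1 : Finsupp.linearCombination ℚ (fun s : {s : ℕ // Squarefree s} => √((s:ℕ):ℝ)) F = 0 := by
    rw [hF, map_sub, map_add, map_sum]
    simp only [Finsupp.linearCombination_single, Rat.smul_def]
    push_cast at h ⊢
    rw [Real.sqrt_one]
    linarith
  have h2 := hli F h1
  have h3 := DFunLike.congr_fun h2 ⟨κ0 * dd p S, sqf_mul hp hinj hκ h0 S⟩
  rw [hF, Finsupp.sub_apply, Finsupp.add_apply, Finsupp.finsetSum_apply] at h3
  simp only [Finsupp.single_apply, Subtype.mk.injEq, Finsupp.coe_zero, Pi.zero_apply] at h3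
  have hκpos : 0 < κ0 := Nat.pos_of_ne_zero h0.ne_zero
  have h4 : ∀ T : JJ ι, (κ0 * dd p T = κ0 * dd p S) ↔ T = S := by
    intro T
    constructor
    · intro h5
      exact dd_inj hp hinj (Nat.eq_of_mul_eq_mul_left hκpos h5)
    · rintro rfl; rfl
  simp only [h4, Finset.sum_ite_eq', Finset.mem_univ, if_true] at h3
  have h5 : ¬ (1 = κ0 * dd p S) := by
    intro h6
    exact dd_ne_one hp S (Nat.eq_one_of_mul_eq_one_left h6.symm)
  rw [if_neg h5, sub_zero] at h3
  split_ifs at h3 ⊢ with h6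
  · exact_mod_cast h3
  · exact_mod_cast h3

lemma sqrt_split {κ κ0 l : ℕ} (h : l^2 * κ0 = κ) (n : ℕ) : √(κ:ℝ) * √(n:ℝ) = l * √((κ0 * n : ℕ):ℝ) := by
  rw [← h]
  push_cast
  rw [Real.sqrt_mul (by positivity), Real.sqrt_sq (Nat.cast_nonneg _), Real.sqrt_mul (Nat.cast_nonneg _)]
  ring

lemma fr_eq {p : ι → ℕ} {κ κ0 l : ℕ} (h : l^2 * κ0 = κ) (ε : JJ ι → ℤ) :
    fr (fun S => √(κ:ℝ) * √(dd p S : ℝ)) ε = ∑ S, (((ε S * l : ℤ)) : ℝ) * √((κ0 * dd p S : ℕ):ℝ) := by
  unfold fr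
  apply Finset.sum_congr rfl
  intro S _
  have h1 := sqrt_split h (dd p S)
  simp only []
  rw [h1]
  push_cast; ring

lemma ind_all {p : ι → ℕ} (hp : ∀ i, (p i).Prime) (hinj : Function.Injective p) {κ : ℕ} (hκ0 : 0 < κ)
    (hκ : ∀ i, ¬ p i ∣ κ) (ε : JJ ι → ℤ) (hε : ε ∈ Fintype.piFinset (fun _ : JJ ι => sg)) (m : ℕ)
    (h : ∃ k : ℤ, fr (fun S => √(κ:ℝ) * √(dd p S : ℝ)) ε + √(κ:ℝ) * √(m:ℝ) = k) :
    ε = 0 ∨ ∃ S, m = dd p S ∧ ε = -Pi.single S 1 := by
  obtain ⟨k, hk⟩ := h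
  obtain ⟨κ0, l, hl, hsq⟩ := Nat.sq_mul_squarefree κ
  have hl0 : 0 < l := by
    rcases Nat.eq_zero_or_pos l with h | h
    · subst h; simp at hl; omega
    · exact h
  have hκ' : ∀ i, ¬ p i ∣ κ0 := fun i hi => hκ i (hi.trans ⟨l^2, by rw [← hl]; ring⟩)
  rw [fr_eq hl] at hk
  rcases Nat.eq_zero_or_pos m with hm | hm
  · left
    subst hm
    funext S
    have h1 := rel hp hinj hκ' hsq (fun S => ε S * l) squarefree_one 0 k (by
      rw [Nat.cast_zero, Real.sqrt_zero, mul_zero] at hk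
      rw [← hk]; simp) S
    simp only [ite_self, add_zero] at h1
    rcases mul_eq_zero.mp h1 with h2 | h2
    · exact h2
    · exfalso
      have : l = 0 := by exact_mod_cast h2
      omega
  · obtain ⟨m0, r, hr, hm0⟩ := Nat.sq_mul_squarefree (κ * m)
    have hr0 : 0 < r := by
      rcases Nat.eq_zero_or_pos r with h | h
      · subst h; simp at hr; omega
      · exact h
    have e1 : √(κ:ℝ) * √(m:ℝ) = (r:ℤ) * √(m0:ℝ) := by
      rw [← Real.sqrt_mul (Nat.cast_nonneg _), ← Nat.cast_mul, ← hr]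
      push_cast
      rw [Real.sqrt_mul (by positivity), Real.sqrt_sq (Nat.cast_nonneg _)]
    rw [e1] at hk
    have h1 := rel hp hinj hκ' hsq (fun S => ε S * l) hm0 r k hk
    by_cases hex : ∃ S, m0 = κ0 * dd p S
    · right
      obtain ⟨S1, hS1⟩ := hex
      have hκ0pos : 0 < κ0 := Nat.pos_of_ne_zero hsq.ne_zero
      have h2 : ∀ S, S ≠ S1 → ε S = 0 := by
        intro S hS
        have h3 := h1 S
        rw [if_neg, add_zero] at h3
        · rcases mul_eq_zero.mp h3 with h2 | h2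
          · exact h2
          · exfalso
            have : l = 0 := by exact_mod_cast h2
            omega
        · intro h4
          apply hS
          rw [hS1] at h4
          exact (dd_inj hp hinj (Nat.eq_of_mul_eq_mul_left hκ0pos h4)).symm
      have h3 := h1 S1
      rw [if_pos hS1] at h3
      have h4 := (Fintype.mem_piFinset.mp hε) S1
      simp only [sg, Finset.mem_insert, Finset.mem_singleton] at h4
      have hl0' : (0:ℤ) < l := by exact_mod_cast hl0
      have hr0' : (0:ℤ) < r := by exact_mod_cast hr0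
      have h5 : ε S1 = -1 := by
        rcases h4 with h4 | h4 | h4
        · exact h4
        · rw [h4] at h3; omega
        · rw [h4] at h3; omega
      have h6 : (l:ℤ) = r := by rw [h5] at h3; omega
      have h7 : l = r := by exact_mod_cast h6
      refine ⟨S1, ?_, ?_⟩
      · have h8 : κ * m = κ * dd p S1 := by
          rw [← hr, ← h7, hS1, ← hl]; ring
        exact Nat.eq_of_mul_eq_mul_left hκ0 h8
      · funext S
        rw [Pi.neg_apply]
        by_cases hS : S = S1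
        · subst hS; rw [Pi.single_eq_same]; exact h5
        · rw [Pi.single_eq_of_ne hS, h2 S hS]; rfl
    · left
      push Not at hex
      funext S
      have h3 := h1 S
      rw [if_neg (hex S), add_zero] at h3
      rcases mul_eq_zero.mp h3 with h2 | h2
      · exact h2
      · exfalso
        have : l = 0 := by exact_mod_cast h2
        omega

end Pool.Agent.W24.Ar
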