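import Mathlib
import Pool.Agent.W24.Arith

/-!
# Gaps between the frequencies
-/

open Finset
open Pool.Agent.W24.Riesz Pool.Agent.W24.Liou

namespace Pool.Agent.W24.Ar

/-- Liouville type inequality for a finite family of products of square roots -/
theorem liou_family {ι : Type*} [Fintype ι] [DecidableEq ι] {K : Type*} [Fintype K] {g : ι → ℕ} (hg : ∀ i, 1 ≤ g i)
    (n : K → ℤ) (f : K → Finset ι) {B : ℝ} (hB1 : 1 ≤ B)
    (hB : ∑ k, |(n k : ℝ)| * vv g (f k) ≤ B) (hne : ∑ k, (n k : ℝ) * vv g (f k) ≠ 0) :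
    1 ≤ |∑ k, (n k : ℝ) * vv g (f k)| * B ^ (2 ^ Fintype.card ι) := by
  set c : Finset ι → ℤ := fun T => ∑ k, if f k = T then n k else 0 with hc
  have h1 : ∑ T, (c T : ℝ) * vv g T = ∑ k, (n k : ℝ) * vv g (f k) := by
    simp only [hc]
    push_cast
    simp only [Finset.sum_mul]
    rw [Finset.sum_comm]
    apply Finset.sum_congr rfl
    intro k _
    rw [Finset.sum_eq_single (f k)]
    · rw [if_pos rfl]
    · intro T _ hT
      rw [if_neg (Ne.symm hT), zero_mul]
    · intro h; exact absurd (Finset.mem_univ _) h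
  have h2 : ∑ T, |(c T : ℝ)| * vv g T ≤ ∑ k, |(n k : ℝ)| * vv g (f k) := by
    have h3 : ∀ T, |(c T : ℝ)| * vv g T ≤ ∑ k, (if f k = T then |(n k : ℝ)| else 0) * vv g T := by
      intro T
      rw [← Finset.sum_mul]
      apply mul_le_mul_of_nonneg_right _ (vv_pos hg T).le
      simp only [hc]
      push_cast
      refine (Finset.abs_sum_le_sum_abs _ _).trans (le_of_eq ?_)
      apply Finset.sum_congr rfl
      intro k _
      split_ifs <;> simp
    refine (Finset.sum_le_sum (fun T _ => h3 T)).trans (le_of_eq ?_)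
    rw [Finset.sum_comm]
    apply Finset.sum_congr rfl
    intro k _
    rw [Finset.sum_eq_single (f k)]
    · rw [if_pos rfl]
    · intro T _ hT
      rw [if_neg (Ne.symm hT), zero_mul]
    · intro h; exact absurd (Finset.mem_univ _) h
  rw [← h1] at hne ⊢
  exact liou hg c hB1 (h2.trans hB) hne

variable {ι : Type*} [Fintype ι] [DecidableEq ι]

lemma sqrt_prod_nat (p : ι → ℕ) (S : Finset ι) : √((∏ i ∈ S, p i : ℕ):ℝ) = ∏ i ∈ S, √(p i : ℝ) := by
  induction S using Finset.induction_on with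
  | empty => simp
  | insert a S ha ih =>
    rw [Finset.prod_insert ha, Finset.prod_insert ha, Nat.cast_mul, Real.sqrt_mul (Nat.cast_nonneg _), ih]

/-- the generators -/
def gg (p : ι → ℕ) (κ m : ℕ) : Option (Option ι) → ℕ
  | none => κ
  | some none => m
  | some (some i) => p i

/-- the subsets -/
def ff : Option (Option (JJ ι)) → Finset (Option (Option ι))
  | none => ∅
  | some none => {none, some none}
  | some (some S) => insert none (S.1.image (fun i => some (some i)))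

/-- the coefficients -/
def nn (ε : JJ ι → ℤ) (η k : ℤ) : Option (Option (JJ ι)) → ℤ
  | none => -k
  | some none => η
  | some (some S) => ε S

lemma vv_ff_none (p : ι → ℕ) (κ m : ℕ) : vv (gg p κ m) (ff (none : Option (Option (JJ ι)))) = 1 := by
  unfold vv ff; simp

lemma vv_ff_sn (p : ι → ℕ) (κ m : ℕ) : vv (gg p κ m) (ff (some none : Option (Option (JJ ι)))) = √(κ:ℝ) * √(m:ℝ) := by
  unfold vv ff
  rw [Finset.prod_insert (by simp), Finset.prod_singleton]
  rfl

lemma vv_ff_ss (p : ι → ℕ) (κ m : ℕ) (S : JJ ι) : vv (gg p κ m) (ff (some (some S))) = √(κ:ℝ) * √(dd p S : ℝ) := by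
  unfold vv ff dd
  rw [Finset.prod_insert (by simp), sqrt_prod_nat, Finset.prod_image]
  · rfl
  · intro i _ j _ h
    simpa using h

lemma sum_opt (F : Option (Option (JJ ι)) → ℝ) : ∑ x, F x = F none + (F (some none) + ∑ S, F (some (some S))) := by
  rw [Fintype.sum_option, Fintype.sum_option]

/-- the gaps between the frequencies -/
lemma gap_all {p : ι → ℕ} (hp : ∀ i, (p i).Prime) {κ : ℕ} (hκ0 : 0 < κ) {M : ℕ} (hM : 1 ≤ M) {B : ℝ} (hB1 : 1 ≤ B)
    (hB : 2 * (√(κ:ℝ) * ∑ S : JJ ι, √(dd p S : ℝ) + √(κ:ℝ) * M) + 1 ≤ B)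
    (ε : JJ ι → ℤ) (hε : ε ∈ Fintype.piFinset (fun _ : JJ ι => sg)) (m : ℕ) (hm : m ≤ M^2) :
    (∃ k : ℤ, fr (fun S => √(κ:ℝ) * √(dd p S : ℝ)) ε + √(κ:ℝ) * √(m:ℝ) = k) ∨
      1 / B ^ (2 ^ (Fintype.card ι + 2)) ≤ nz (fr (fun S => √(κ:ℝ) * √(dd p S : ℝ)) ε + √(κ:ℝ) * √(m:ℝ)) := by
  set θ : ℝ := fr (fun S => √(κ:ℝ) * √(dd p S : ℝ)) ε + √(κ:ℝ) * √(m:ℝ) with hθ
  set k : ℤ := round θ with hk
  by_cases h0 : θ - k = 0
  · left
    exact ⟨k, by linarith⟩
  · right
    have hB0 : 0 < B := by linarith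
    -- the case m = 0 is treated with generator 1 and coefficient 0
    set m' : ℕ := max m 1 with hm'
    set η : ℤ := if m = 0 then 0 else 1 with hη
    have e1 : (η:ℝ) * (√(κ:ℝ) * √(m':ℝ)) = √(κ:ℝ) * √(m:ℝ) := by
      rcases Nat.eq_zero_or_pos m with h | h
      · rw [hη, if_pos h, h]; simp
      · rw [hη, if_neg (by omega), hm', max_eq_left (by omega)]; push_cast; ring
    have hm'M : √(m':ℝ) ≤ M := by
      rw [Real.sqrt_le_left (Nat.cast_nonneg _)]
      have : m' ≤ M^2 := by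
        rw [hm']
        apply max_le hm
        exact Nat.one_le_pow _ _ hM
      exact_mod_cast this
    have hmM : √(m:ℝ) ≤ M := by
      rw [Real.sqrt_le_left (Nat.cast_nonneg _)]
      exact_mod_cast hm
    have hg : ∀ x, 1 ≤ gg p κ m' x := by
      intro x
      match x with
      | none => exact hκ0
      | some none => exact le_max_right _ _
      | some (some i) => exact (hp i).pos
    have hεabs : ∀ S, |(ε S : ℝ)| ≤ 1 := by
      intro S
      have h4 := (Fintype.mem_piFinset.mp hε) S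
      simp only [sg, Finset.mem_insert, Finset.mem_singleton] at h4
      rcases h4 with h | h | h <;> rw [h] <;> norm_num
    have hfr : |fr (fun S => √(κ:ℝ) * √(dd p S : ℝ)) ε| ≤ √(κ:ℝ) * ∑ S : JJ ι, √(dd p S : ℝ) := by
      unfold fr
      rw [Finset.mul_sum]
      refine (Finset.abs_sum_le_sum_abs _ _).trans (Finset.sum_le_sum (fun S _ => ?_))
      rw [abs_mul, abs_of_nonneg (by positivity : 0 ≤ √(κ:ℝ) * √(dd p S : ℝ))]
      calc |(ε S : ℝ)| * (√(κ:ℝ) * √(dd p S : ℝ)) ≤ 1 * (√(κ:ℝ) * √(dd p S : ℝ)) := by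
            gcongr
            exact hεabs S
        _ = _ := one_mul _
    have hκm : √(κ:ℝ) * √(m:ℝ) ≤ √(κ:ℝ) * M := by gcongr
    have hκm' : √(κ:ℝ) * √(m':ℝ) ≤ √(κ:ℝ) * M := by gcongr
    have hθb : |θ| ≤ √(κ:ℝ) * ∑ S : JJ ι, √(dd p S : ℝ) + √(κ:ℝ) * M := by
      rw [hθ]
      refine (abs_add_le _ _).trans ?_
      rw [abs_of_nonneg (by positivity : 0 ≤ √(κ:ℝ) * √(m:ℝ))]
      linarith
    have hkb : |(k:ℝ)| ≤ |θ| + 1/2 := by
      have h1 := abs_sub_round θ
      rw [← hk] at h1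
      have h2 : |(k:ℝ)| = |θ - (θ - k)| := by congr 1; ring
      rw [h2]
      refine (abs_sub _ _).trans ?_
      linarith
    have hsum : ∑ x, ((nn ε η k x : ℤ) : ℝ) * vv (gg p κ m') (ff x) = θ - k := by
      rw [sum_opt]
      rw [vv_ff_none, vv_ff_sn]
      simp only [vv_ff_ss, nn]
      rw [e1]
      have : fr (fun S => √(κ:ℝ) * √(dd p S : ℝ)) ε = ∑ S, (ε S : ℝ) * (√(κ:ℝ) * √(dd p S : ℝ)) := rfl
      rw [← this, hθ]
      push_cast; ring
    have hbd : ∑ x, |((nn ε η k x : ℤ) : ℝ)| * vv (gg p κ m') (ff x) ≤ B := by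
      rw [sum_opt]
      rw [vv_ff_none, vv_ff_sn]
      simp only [vv_ff_ss, nn]
      have h1 : |((-k : ℤ):ℝ)| * 1 ≤ √(κ:ℝ) * ∑ S : JJ ι, √(dd p S : ℝ) + √(κ:ℝ) * M + 1/2 := by
        push_cast
        rw [abs_neg, mul_one]; linarith
      have h2 : |(η:ℝ)| * (√(κ:ℝ) * √(m':ℝ)) ≤ √(κ:ℝ) * M := by
        have : |(η:ℝ)| ≤ 1 := by rw [hη]; split_ifs <;> norm_num
        calc |(η:ℝ)| * (√(κ:ℝ) * √(m':ℝ)) ≤ 1 * (√(κ:ℝ) * √(m':ℝ)) := by gcongr
          _ ≤ _ := by rw [one_mul]; exact hκm'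
      have h3 : ∑ S, |(ε S : ℝ)| * (√(κ:ℝ) * √(dd p S : ℝ)) ≤ √(κ:ℝ) * ∑ S : JJ ι, √(dd p S : ℝ) := by
        rw [Finset.mul_sum]
        apply Finset.sum_le_sum
        intro S _
        calc |(ε S : ℝ)| * (√(κ:ℝ) * √(dd p S : ℝ)) ≤ 1 * (√(κ:ℝ) * √(dd p S : ℝ)) := by
              gcongr
              exact hεabs S
          _ = _ := one_mul _
      linarith
    have key := liou_family hg (nn ε η k) ff hB1 hbd (by rw [hsum]; exact h0)
    rw [hsum] at key
    have hcard : Fintype.card (Option (Option ι)) = Fintype.card ι + 2 := by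
      rw [Fintype.card_option, Fintype.card_option]
    rw [hcard] at key
    unfold nz
    rw [← hk, div_le_iff₀ (by positivity)]
    exact key

/-- the arithmetic input -/
theorem arith_of {p : ι → ℕ} (hp : ∀ i, (p i).Prime) (hinj : Function.Injective p) {κ : ℕ} (hκ0 : 0 < κ)
    (hκ : ∀ i, ¬ p i ∣ κ) {M : ℕ} (hM : 1 ≤ M) (hdM : ∀ S : JJ ι, dd p S ≤ M^2) {B : ℝ} (hB1 : 1 ≤ B)
    (hB : 2 * (√(κ:ℝ) * ∑ S : JJ ι, √(dd p S : ℝ) + √(κ:ℝ) * M) + 1 ≤ B) :
    Arith (√(κ:ℝ)) (dd p) M (1 / B ^ (2 ^ (Fintype.card ι + 2))) where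
  d_pos := dd_pos hp
  d_le := hdM
  d_inj := dd_inj hp hinj
  nonint := by
    intro S h
    have h1 := ind_all hp hinj hκ0 hκ (Pi.single S 1) (by
      rw [Fintype.mem_piFinset]
      intro T
      by_cases hT : T = S
      · subst hT; simp [sg]
      · rw [Pi.single_eq_of_ne hT]; simp [sg]) 0 (by
      obtain ⟨k, hk⟩ := h
      refine ⟨k, ?_⟩
      have : fr (fun S => √(κ:ℝ) * √(dd p S : ℝ)) (Pi.single S 1) = √(κ:ℝ) * √(dd p S : ℝ) := by
        unfold fr
        rw [Finset.sum_eq_single S]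
        · rw [Pi.single_eq_same]; push_cast; ring
        · intro i _ hi
          rw [Pi.single_eq_of_ne hi]; simp
        · intro h; exact absurd (Finset.mem_univ S) h
      rw [this, Nat.cast_zero, Real.sqrt_zero, mul_zero, add_zero]
      exact hk)
    rcases h1 with h1 | ⟨T, hT, -⟩
    · have := congrFun h1 S
      rw [Pi.single_eq_same] at this
      exact one_ne_zero this
    · have := dd_pos hp T
      omega
  δ_pos := by positivity
  ind0 := by
    intro ε hε h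
    have h1 := ind_all hp hinj hκ0 hκ ε hε 0 (by
      obtain ⟨k, hk⟩ := h
      refine ⟨k, ?_⟩
      rw [Nat.cast_zero, Real.sqrt_zero, mul_zero, add_zero]
      exact hk)
    rcases h1 with h1 | ⟨T, hT, -⟩
    · exact h1
    · have := dd_pos hp T
      omega
  ind := by
    intro ε hε m _ _ h
    exact ind_all hp hinj hκ0 hκ ε hε m h
  gap := by
    intro ε hε m hm
    exact gap_all hp hκ0 hM hB1 hB ε hε m hm

end Pool.Agent.W24.Ar
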