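import Mathlib
import Pool.Agent.W24.Riesz2

/-!
# Riesz products against almost periodic polynomials: counting
-/

open Filter Topology MeasureTheory Finset
open Pool.Agent.H383.AP Pool.Agent.H383.Gen

namespace Pool.Agent.W24.Riesz

variable {J : Type*} [Fintype J] [DecidableEq J]

open Classical in
/-- number of values of prescribed sign of the sequence `e` -/
theorem riesz_count {α0 δ : ℝ} {d : J → ℕ} {M : ℕ} (hA : Arith α0 d M δ) (a : ℕ → ℝ) (φ X : ℝ) {s ψ : ℝ}
    (hψ : Complex.exp (((-ψ : ℝ) : ℂ) * Complex.I) = s) (hs : s = 1 ∨ s = -1) {N : ℕ} (hN : 0 < N)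
    {e : ℕ → ℝ} {C1 : ℝ} (hC1 : |∑ m ∈ Finset.Icc 1 (M^2), rt a φ α0 X m| ≤ C1)
    (hc1 : 2 ^ (Fintype.card J) / (2 * δ * N) ≤ 1/2)
    (hc2 : (∑ m ∈ Finset.Icc 1 (M^2), |a m|) * (2 ^ (Fintype.card J) / (2 * δ * N)) ≤ 1)
    (hc3 : 4 ^ (Fintype.card J) * ∑ n ∈ Finset.range (2*N), (e n - U a φ (X + n * α0) M)^2 ≤ N)
    (hpos : 0 ≤ 1/3 * ∑ j, a (d j) - 2 * (C1 + 2)) {A2 : ℝ} (hA2 : ∑ n ∈ Finset.range (2*N), (e n)^2 ≤ A2 * N) :
    (N:ℝ) ≤ 4 ^ (Fintype.card J) * A2 *
      (((Finset.Ico N (2*N)).filter (fun n => 1/3 * ∑ j, a (d j) - 2 * (C1 + 2) ≤ s * e n)).card : ℝ) := by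
  set A : ℝ := ∑ j, a (d j) with hAdef
  set V : ℝ := 1/3 * A - 2 * (C1 + 2) with hV
  set K : ℕ → ℝ := KK (fun j => α0 * √(d j : ℝ)) (fun j => 2 * Real.pi * (X * √(d j : ℝ)) - φ + ψ) with hK
  set G : Finset ℕ := (Finset.Ico N (2*N)).filter (fun n => V ≤ s * e n) with hG
  have hN' : (0:ℝ) < N := by exact_mod_cast hN
  have hK0 : ∀ n, 0 ≤ K n := fun n => KK_nonneg _ _ n
  have hK1 : ∀ n, K n ≤ 2 ^ (Fintype.card J) := fun n => KK_le _ _ n
  have hC10 : 0 ≤ C1 := (abs_nonneg _).trans hC1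
  have m1 := avr_KK hA (fun j => 2 * Real.pi * (X * √(d j : ℝ)) - φ + ψ) hN
  have m2 := avr_KU hA a φ X hψ hN
  rw [← hK] at m1 m2
  have m3 := m1.trans hc1
  have m4 := m2.trans hc2
  have hsub : ∑ n ∈ Finset.Ico N (2*N), (e n)^2 ≤ A2 * N := by
    refine le_trans ?_ hA2
    apply Finset.sum_le_sum_of_subset_of_nonneg
    · intro n hn
      rw [Finset.mem_Ico] at hn
      rw [Finset.mem_range]; exact hn.2
    · intro n _ _; exact sq_nonneg _
  -- the error of the model
  have m5 : |avr N (fun n => K n * (e n - U a φ (X + n * α0) M))| ≤ 1 := by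
    unfold avr
    rw [abs_div, Nat.abs_cast, div_le_iff₀ hN', one_mul]
    have h1 : |∑ n ∈ Finset.Ico N (2*N), K n * (e n - U a φ (X + n * α0) M)| ≤
        2 ^ (Fintype.card J) * ∑ n ∈ Finset.Ico N (2*N), |e n - U a φ (X + n * α0) M| := by
      rw [Finset.mul_sum]
      refine (Finset.abs_sum_le_sum_abs _ _).trans (Finset.sum_le_sum (fun n _ => ?_))
      rw [abs_mul, abs_of_nonneg (hK0 n)]
      exact mul_le_mul_of_nonneg_right (hK1 n) (abs_nonneg _)
    refine h1.trans ?_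
    have h2 : (∑ n ∈ Finset.Ico N (2*N), |e n - U a φ (X + n * α0) M|)^2 ≤
        N * ∑ n ∈ Finset.range (2*N), (e n - U a φ (X + n * α0) M)^2 := by
      refine sq_sum_le_card_mul_sum_sq.trans ?_
      rw [Nat.card_Ico, show 2 * N - N = N by omega]
      apply mul_le_mul_of_nonneg_left _ hN'.le
      simp only [sq_abs]
      apply Finset.sum_le_sum_of_subset_of_nonneg
      · intro n hn
        rw [Finset.mem_Ico] at hn
        rw [Finset.mem_range]; exact hn.2
      · intro n _ _; exact sq_nonneg _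
    have h3 : (2 ^ (Fintype.card J) * ∑ n ∈ Finset.Ico N (2*N), |e n - U a φ (X + n * α0) M|)^2 ≤ (N:ℝ)^2 := by
      rw [mul_pow, ← pow_mul, mul_comm (Fintype.card J) 2, pow_mul]
      norm_num
      calc (4:ℝ) ^ (Fintype.card J) * (∑ n ∈ Finset.Ico N (2*N), |e n - U a φ (X + n * α0) M|)^2
          ≤ 4 ^ (Fintype.card J) * (N * ∑ n ∈ Finset.range (2*N), (e n - U a φ (X + n * α0) M)^2) := by gcongr
        _ = N * (4 ^ (Fintype.card J) * ∑ n ∈ Finset.range (2*N), (e n - U a φ (X + n * α0) M)^2) := by ring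
        _ ≤ N * N := by gcongr
        _ = (N:ℝ)^2 := by ring
    exact (abs_le_of_sq_le_sq' h3 hN'.le).2
  have m6 : avr N (fun n => K n * (e n - U a φ (X + n * α0) M)) =
      avr N (fun n => K n * e n) - avr N (fun n => K n * U a φ (X + n * α0) M) := by
    unfold avr
    rw [← sub_div, ← Finset.sum_sub_distrib]
    congr 1
    apply Finset.sum_congr rfl
    intro n _
    ring
  -- upper bound
  have hs1 : |s| = 1 := by rcases hs with rfl | rfl <;> norm_num
  have hs2 : s * s = 1 := by rcases hs with rfl | rfl <;> norm_num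
  have m7 : s * avr N (fun n => K n * e n) ≤ (V * avr N K) + (∑ n ∈ G, K n * |e n|) / N := by
    unfold avr
    rw [← mul_div_assoc, ← mul_div_assoc, ← add_div, Finset.mul_sum, Finset.mul_sum]
    apply div_le_div_of_nonneg_right _ hN'.le
    have h1 : ∑ n ∈ G, K n * |e n| =
        ∑ n ∈ Finset.Ico N (2*N), if V ≤ s * e n then K n * |e n| else 0 := by
      rw [hG, Finset.sum_filter]
    rw [h1, ← Finset.sum_add_distrib]
    apply Finset.sum_le_sum
    intro n hn
    split_ifs with hc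
    · have h2 : s * e n ≤ |e n| := by
        calc s * e n ≤ |s * e n| := le_abs_self _
          _ = |e n| := by rw [abs_mul, hs1, one_mul]
      have h4 := mul_le_mul_of_nonneg_right h2 (hK0 n)
      have h5 := mul_nonneg hpos (hK0 n)
      linarith
    · push Not at hc
      have h2 := mul_le_mul_of_nonneg_right hc.le (hK0 n)
      linarith
  rw [m6] at m5
  rw [abs_le] at m3 m4 m5 hC1
  have m8 : V * avr N K ≤ 1/2 * A - 3 * (C1 + 2) := by
    have : V * avr N K ≤ V * (3/2) := by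
      apply mul_le_mul_of_nonneg_left _ hpos
      linarith
    have e1 : V * (3/2) = 1/2 * A - 3 * (C1 + 2) := by rw [hV]; ring
    linarith
  have m9 : 1/2 * A - (C1 + 2) ≤ s * avr N (fun n => K n * e n) := by
    rcases hs with rfl | rfl
    · linarith
    · linarith
  have m10 : 1 ≤ (∑ n ∈ G, K n * |e n|) / N := by linarith
  rw [le_div_iff₀ hN', one_mul] at m10
  have m11 : ∑ n ∈ G, K n * |e n| ≤ 2 ^ (Fintype.card J) * ∑ n ∈ G, |e n| := by
    rw [Finset.mul_sum]
    apply Finset.sum_le_sum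
    intro n _
    exact mul_le_mul_of_nonneg_right (hK1 n) (abs_nonneg _)
  have m12 : (∑ n ∈ G, |e n|)^2 ≤ (G.card : ℝ) * (A2 * N) := by
    refine sq_sum_le_card_mul_sum_sq.trans ?_
    apply mul_le_mul_of_nonneg_left _ (Nat.cast_nonneg _)
    simp only [sq_abs]
    refine le_trans ?_ hsub
    apply Finset.sum_le_sum_of_subset_of_nonneg
    · exact Finset.filter_subset _ _
    · intro n _ _; exact sq_nonneg _
  have m13 : (N:ℝ)^2 ≤ (4 ^ (Fintype.card J) * A2 * G.card) * N := by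
    calc (N:ℝ)^2 ≤ (2 ^ (Fintype.card J) * ∑ n ∈ G, |e n|)^2 := by
          apply pow_le_pow_left₀ hN'.le (m10.trans m11)
      _ = 4 ^ (Fintype.card J) * (∑ n ∈ G, |e n|)^2 := by
          rw [mul_pow, ← pow_mul, mul_comm (Fintype.card J) 2, pow_mul]; norm_num
      _ ≤ 4 ^ (Fintype.card J) * ((G.card : ℝ) * (A2 * N)) := by gcongr
      _ = _ := by ring
  rw [sq] at m13
  exact le_of_mul_le_mul_right m13 hN'

end Pool.Agent.W24.Riesz
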