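import Mathlib
import Pool.Agent.W24.Gap
import Pool.Agent.W24.Riesz3

/-!
# Large values of both signs
-/

open Filter Topology MeasureTheory Finset
open Pool.Agent.H383.AP Pool.Agent.H383.Gen Pool.Agent.H383.Gauss Pool.Agent.H425R3.JL
open Pool.Agent.W24.Riesz Pool.Agent.W24.Liou Pool.Agent.W24.Ar

namespace Pool.Agent.W24.Both

lemma card_JJ_le (h : ℕ) : Fintype.card (JJ (Fin h)) ≤ 2 ^ h := by
  have h1 : Fintype.card (JJ (Fin h)) ≤ Fintype.card (Finset (Fin h)) :=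
    Fintype.card_le_of_injective (fun S => S.1) (fun S T h => Subtype.ext h)
  rw [Fintype.card_finset, Fintype.card_fin] at h1
  exact h1

lemma sq_le_two_pow_two (h : ℕ) : h ^ 2 ≤ 2000 * 2 ^ h := by
  have h1 : h < 2 ^ h := Nat.lt_two_pow_self
  have h2 : ∀ k : ℕ, k ^ 2 ≤ 4 * 2 ^ k := by
    intro k
    induction k with
    | zero => simp
    | succ k ih =>
      rcases Nat.lt_or_ge k 3 with hk | hk
      · interval_cases k <;> norm_num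
      · have : (k+1)^2 ≤ 2 * k^2 := by nlinarith
        calc (k+1)^2 ≤ 2 * k^2 := this
          _ ≤ 2 * (4 * 2^k) := by omega
          _ = 4 * 2^(k+1) := by ring
  have := h2 h
  omega

lemma dd_le {h : ℕ} {p : Fin h → ℕ} (hp : ∀ i, p i ≤ 2 ^ h) (S : JJ (Fin h)) :
    dd p S ≤ (2 ^ (1000 * 2 ^ h)) ^ 2 := by
  unfold dd
  calc ∏ i ∈ S.1, p i ≤ ∏ i ∈ S.1, 2 ^ h := Finset.prod_le_prod' (fun i _ => hp i)
    _ = (2 ^ h) ^ S.1.card := by rw [Finset.prod_const]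
    _ ≤ (2 ^ h) ^ h := by
        apply Nat.pow_le_pow_right (by positivity)
        have := Finset.card_le_univ S.1
        rwa [Fintype.card_fin] at this
    _ = 2 ^ (h^2) := by rw [← pow_mul, sq]
    _ ≤ 2 ^ (2 * (1000 * 2^h)) := by
        apply Nat.pow_le_pow_right (by norm_num)
        have := sq_le_two_pow_two h
        omega
    _ = _ := by rw [← pow_mul]; congr 1; ring

open Classical in
theorem both_core {Ex : ℝ → ℝ} {af : ℕ → ℝ} {φ : ℝ} {κ : ℕ → ℕ} {X : ℕ → ℝ → ℝ} (hD : Data Ex af φ κ X)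
    {a : ℕ} {b c : ℝ} (ha : 0 < a) (hP : ∀ n : ℕ, 0 < (a:ℝ) * (n:ℝ)^2 + b * n + c) :
    ∃ C0 A2 : ℝ, 0 ≤ C0 ∧ 0 < A2 ∧ ∃ h0 : ℕ, ∀ h : ℕ, h0 ≤ h → ∀ p : Fin h → ℕ, (∀ i, (p i).Prime) →
      Function.Injective p → (∀ i, ¬ p i ∣ κ a) → (∀ i, p i ≤ 2 ^ h) → ∀ N : ℕ, 2 ^ (20000 * 4 ^ h) ≤ N →
      ∀ s : ℝ, (s = 1 ∨ s = -1) → 6 * (C0 + 2) ≤ ∑ S : JJ (Fin h), af (dd p S) →
      (N:ℝ) ≤ 4 ^ (2 ^ h) * A2 *
        (((Finset.Ico N (2*N)).filter (fun n : ℕ => 1/3 * ∑ S : JJ (Fin h), af (dd p S) - 2 * (C0 + 2) ≤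
          s * Ex ((a:ℝ) * (n:ℝ)^2 + b * n + c))).card : ℝ) := by
  have hκ0 : 0 < κ a := hD.pos a ha
  have hκ0' : (0:ℝ) < κ a := by exact_mod_cast hκ0
  have hα : 0 < √(κ a:ℝ) := Real.sqrt_pos.mpr hκ0'
  obtain ⟨C, hC, N1, hq⟩ := hD.apq a b c ha hP
  obtain ⟨C', hC', hTl⟩ := Tl_pow
  obtain ⟨Cs, hCs, hsum⟩ := sum_a_le hD.bd
  obtain ⟨A, hA0, hA⟩ := (hD.ap a b c ha hP).b2.sq_bdd
  have hrt := (rt_summable hD.bd hD.zero (φ := φ) hα (X a b)).abs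
  -- thresholds
  obtain ⟨t1, ht1⟩ := exists_nat_ge (2 * C * (C' + 1))
  obtain ⟨t2, ht2⟩ := exists_nat_ge Cs
  refine ⟨∑' m, |rt af φ (√(κ a:ℝ)) (X a b) m|, 2 * A + 1, tsum_nonneg (fun m => abs_nonneg _), by positivity,
    max (max (max t1 t2) (5 * κ a)) (max 4 N1), ?_⟩
  intro h hh p hp hinj hpκ hple N hN s hs hbig
  have hh1 : t1 ≤ h := by omega
  have hh2 : t2 ≤ h := by omega
  have hh3 : 5 * κ a ≤ h := by omega
  have hh4 : 4 ≤ h := by omega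
  have hh5 : N1 ≤ h := by omega
  have hhT : h < 2 ^ h := Nat.lt_two_pow_self
  have hdM0 := dd_le hple
  have hcard0 := card_JJ_le h
  obtain ⟨T, hT⟩ : ∃ T : ℕ, T = 2 ^ h := ⟨_, rfl⟩
  rw [← hT] at hhT hdM0 hcard0
  have hT16 : 16 ≤ T := by
    calc 16 = 2^4 := by norm_num
      _ ≤ 2^h := Nat.pow_le_pow_right (by norm_num) hh4
      _ = T := hT.symm
  have hT4 : 4 ^ h = T * T := by
    rw [hT, ← mul_pow]; norm_num
  obtain ⟨M, hM⟩ : ∃ M : ℕ, M = 2 ^ (1000 * T) := ⟨_, rfl⟩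
  rw [← hM] at hdM0
  have hM1 : 1 ≤ M := by rw [hM]; exact Nat.one_le_two_pow
  rw [hT4] at hN
  have hNpos : 0 < N := lt_of_lt_of_le (by positivity) hN
  have hN0 : (0:ℝ) < N := by exact_mod_cast hNpos
  have hN1 : (1:ℝ) ≤ N := by exact_mod_cast hNpos
  have hNR : (2:ℝ) ^ (20000 * (T * T)) ≤ N := by exact_mod_cast hN
  have hMR : (M:ℝ) = 2 ^ (1000 * T) := by rw [hM]; push_cast; rfl
  have hM1R : (1:ℝ) ≤ M := by exact_mod_cast hM1
  have hM0R : (0:ℝ) < M := by linarith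
  have hTT : T ≤ T * T := Nat.le_mul_of_pos_left T (by omega)
  -- card
  have hcard : Fintype.card (JJ (Fin h)) ≤ T := hcard0
  have hN1' : N1 ≤ 2 * N := by
    have h1 : 20000 * (T*T) < 2 ^ (20000 * (T*T)) := Nat.lt_two_pow_self
    nlinarith
  -- M ≤ (2N)^(1/200)
  have hMN : (M:ℝ) ≤ ((2 * N : ℕ):ℝ) ^ (1/200:ℝ) := by
    have h1 : (M:ℝ) ^ (200:ℕ) ≤ ((2 * N : ℕ):ℝ) := by
      rw [hMR, ← pow_mul]
      calc (2:ℝ) ^ (1000 * T * 200) ≤ 2 ^ (20000 * (T * T)) := by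
            apply pow_le_pow_right₀ (by norm_num)
            nlinarith
        _ ≤ N := hNR
        _ ≤ ((2 * N : ℕ):ℝ) := by push_cast; linarith
    calc (M:ℝ) = ((M:ℝ) ^ (200:ℕ)) ^ (1/200:ℝ) := by
          rw [← Real.rpow_natCast, ← Real.rpow_mul hM0R.le]; norm_num
      _ ≤ _ := Real.rpow_le_rpow (by positivity) h1 (by norm_num)
  have hq1 := hq (2*N) hN1' M hM1 hMN
  -- the arithmetic data
  have hdM : ∀ S : JJ (Fin h), dd p S ≤ M^2 := hdM0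
  have hB1 : (1:ℝ) ≤ (M:ℝ)^2 := one_le_pow₀ hM1R
  have hB : 2 * (√(κ a:ℝ) * ∑ S : JJ (Fin h), √(dd p S : ℝ) + √(κ a:ℝ) * M) + 1 ≤ (M:ℝ)^2 := by
    have h1 : ∑ S : JJ (Fin h), √(dd p S : ℝ) ≤ T * M := by
      calc ∑ S : JJ (Fin h), √(dd p S : ℝ) ≤ ∑ S : JJ (Fin h), (M:ℝ) := by
            apply Finset.sum_le_sum
            intro S _
            rw [Real.sqrt_le_left hM0R.le]
            exact_mod_cast hdM S
        _ = (Fintype.card (JJ (Fin h)) : ℝ) * M := by rw [Finset.sum_const, Finset.card_univ, nsmul_eq_mul]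
        _ ≤ _ := by gcongr
    have h2 : √(κ a:ℝ) ≤ κ a := by
      rw [Real.sqrt_le_left hκ0'.le]
      have : (1:ℝ) ≤ κ a := by exact_mod_cast hκ0
      nlinarith
    have h3 : 5 * (κ a:ℝ) ≤ T := by
      have : 5 * κ a ≤ T := by omega
      exact_mod_cast this
    have h4 : (T:ℝ) * T ≤ M := by
      have h5 : T * T ≤ M := by
        rw [hM]
        have h6 : T < 2 ^ T := Nat.lt_two_pow_self
        calc T * T ≤ 2^T * 2^T := Nat.mul_le_mul h6.le h6.le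
          _ = 2^(T+T) := by rw [pow_add]
          _ ≤ 2^(1000*T) := Nat.pow_le_pow_right (by norm_num) (by omega)
      exact_mod_cast h5
    have h7 : (16:ℝ) ≤ T := by exact_mod_cast hT16
    have hκ1 : (1:ℝ) ≤ κ a := by exact_mod_cast hκ0
    have h8 : √(κ a:ℝ) * ∑ S : JJ (Fin h), √(dd p S : ℝ) ≤ (κ a:ℝ) * ((T:ℝ) * M) := by gcongr
    have h9 : √(κ a:ℝ) * M ≤ (κ a:ℝ) * M := by gcongr
    have h10 : 2 * ((κ a:ℝ) * ((T:ℝ) * M) + κ a * M) + 1 ≤ 5 * κ a * (T * M) := by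
      have h11 : (1:ℝ) ≤ κ a * ((T:ℝ) * M) := by
        have : (1:ℝ) ≤ (T:ℝ) * M := by nlinarith
        nlinarith
      have h12 : (κ a:ℝ) * M * 16 ≤ κ a * (T * M) := by
        have : (κ a:ℝ) * M * 16 ≤ κ a * M * T := by gcongr
        linarith
      linarith
    calc _ ≤ 2 * ((κ a:ℝ) * ((T:ℝ) * M) + κ a * M) + 1 := by linarith
      _ ≤ 5 * (κ a:ℝ) * ((T:ℝ) * M) := h10
      _ ≤ (T:ℝ) * ((T:ℝ) * M) := by gcongr
      _ = ((T:ℝ) * T) * M := by ring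
      _ ≤ (M:ℝ) * M := by gcongr
      _ = (M:ℝ)^2 := by ring
  have hAr := arith_of hp hinj hκ0 hpκ hM1 hdM hB1 hB
  rw [Fintype.card_fin] at hAr
  -- the sign
  obtain ⟨ψ, hψ⟩ : ∃ ψ : ℝ, Complex.exp (((-ψ : ℝ) : ℂ) * Complex.I) = (s:ℂ) := by
    rcases hs with rfl | rfl
    · exact ⟨0, by simp⟩
    · refine ⟨Real.pi, ?_⟩
      push_cast
      rw [neg_mul, Complex.exp_neg, Complex.exp_pi_mul_I]
      norm_num
  -- the gap
  have hδ : 2 ^ (Fintype.card (JJ (Fin h))) / (2 * (1 / ((M:ℝ)^2) ^ (2 ^ (h + 2))) * N) ≤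
      2 ^ T * 2 ^ (8000 * (T * T)) / (2 * N) := by
    have h1 : ((M:ℝ)^2) ^ (2 ^ (h + 2)) = 2 ^ (8000 * (T * T)) := by
      rw [hMR, ← pow_mul, ← pow_mul, pow_add, ← hT]
      congr 1
      ring
    rw [h1]
    have h2 : (2:ℝ) ^ (Fintype.card (JJ (Fin h))) ≤ 2 ^ T := pow_le_pow_right₀ (by norm_num) hcard
    have h3 : 2 * (1 / (2:ℝ) ^ (8000 * (T * T))) * N = (2 * N) / 2 ^ (8000 * (T * T)) := by ring
    rw [h3, div_div_eq_mul_div]
    gcongr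
  have hc1 : 2 ^ (Fintype.card (JJ (Fin h))) / (2 * (1 / ((M:ℝ)^2) ^ (2 ^ (h + 2))) * N) ≤ 1/2 := by
    refine hδ.trans ?_
    rw [div_le_iff₀ (by positivity)]
    have : (2:ℝ) ^ T * 2 ^ (8000 * (T * T)) ≤ N := by
      rw [← pow_add]
      refine le_trans ?_ hNR
      apply pow_le_pow_right₀ (by norm_num)
      omega
    linarith
  have hc2 : (∑ m ∈ Finset.Icc 1 (M^2), |af m|) *
      (2 ^ (Fintype.card (JJ (Fin h))) / (2 * (1 / ((M:ℝ)^2) ^ (2 ^ (h + 2))) * N)) ≤ 1 := by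
    have h1 := hsum M
    have hCsT : Cs ≤ 2 ^ T := by
      have h2 : (t2:ℝ) ≤ T := by exact_mod_cast (by omega : t2 ≤ T)
      have h3 : (T:ℝ) ≤ 2 ^ T := by exact_mod_cast (Nat.lt_two_pow_self (n := T)).le
      linarith
    calc _ ≤ (Cs * (M:ℝ)^2) * (2 ^ T * 2 ^ (8000 * (T * T)) / (2 * N)) := by gcongr
      _ ≤ (2 ^ T * (M:ℝ)^2) * (2 ^ T * 2 ^ (8000 * (T * T)) / (2 * N)) := by gcongr
      _ = 2 ^ (2002 * T + 8000 * (T * T)) / (2 * N) := by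
          rw [hMR, ← pow_mul, ← mul_div_assoc, ← pow_add, ← pow_add, ← pow_add]
          congr 2
          ring
      _ ≤ 1 := by
          rw [div_le_one (by positivity)]
          have : (2:ℝ) ^ (2002 * T + 8000 * (T * T)) ≤ N := by
            refine le_trans ?_ hNR
            apply pow_le_pow_right₀ (by norm_num)
            omega
          linarith
  have hc3 : 4 ^ (Fintype.card (JJ (Fin h))) * ∑ n ∈ Finset.range (2*N),
      (Ex ((a:ℝ) * (n:ℝ)^2 + b * n + c) - U af φ (X a b + n * √(κ a:ℝ)) M)^2 ≤ N := by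
    have h1 : Tl M ≤ C' * (2:ℝ) ^ (-(5 * (T:ℝ))) := by
      refine (hTl M hM1).trans (le_of_eq ?_)
      congr 1
      rw [hMR, ← Real.rpow_natCast, ← Real.rpow_mul (by norm_num)]
      congr 1
      push_cast; ring
    have h2 : (((2 * N : ℕ)):ℝ) ^ (-(1/100):ℝ) ≤ (2:ℝ) ^ (-(5 * (T:ℝ))) := by
      calc (((2 * N : ℕ)):ℝ) ^ (-(1/100):ℝ) ≤ ((2:ℝ) ^ (20000 * (T * T))) ^ (-(1/100):ℝ) := by
            apply Real.rpow_le_rpow_of_nonpos (by positivity) _ (by norm_num)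
            push_cast
            linarith
        _ = (2:ℝ) ^ (-(200 * ((T:ℝ) * T))) := by
            rw [← Real.rpow_natCast, ← Real.rpow_mul (by norm_num)]
            congr 1
            push_cast; ring
        _ ≤ _ := by
            apply Real.rpow_le_rpow_of_exponent_le (by norm_num)
            have h3 : (16:ℝ) ≤ T := by exact_mod_cast hT16
            nlinarith
    have h3 : 2 * C * (C' + 1) ≤ (2:ℝ) ^ (3 * (T:ℝ)) := by
      have h4 : (t1:ℝ) ≤ T := by exact_mod_cast (by omega : t1 ≤ T)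
      have h5 : (T:ℝ) ≤ 2 ^ T := by exact_mod_cast (Nat.lt_two_pow_self (n := T)).le
      have h6 : (2:ℝ) ^ T ≤ (2:ℝ) ^ (3 * (T:ℝ)) := by
        rw [← Real.rpow_natCast]
        apply Real.rpow_le_rpow_of_exponent_le (by norm_num)
        have : (0:ℝ) ≤ T := Nat.cast_nonneg T
        linarith
      linarith
    have h4 : (4:ℝ) ^ (Fintype.card (JJ (Fin h))) ≤ (2:ℝ) ^ (2 * (T:ℝ)) := by
      calc (4:ℝ) ^ (Fintype.card (JJ (Fin h))) ≤ 4 ^ T := pow_le_pow_right₀ (by norm_num) hcard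
        _ = (2:ℝ) ^ (2 * (T:ℝ)) := by
            rw [show (4:ℝ) = 2^2 by norm_num, ← pow_mul, ← Real.rpow_natCast]
            push_cast; rfl
    calc _ ≤ (2:ℝ) ^ (2 * (T:ℝ)) * (C * (Tl M + (((2 * N : ℕ)):ℝ) ^ (-(1/100):ℝ)) * ((2 * N : ℕ):ℝ)) := by
          gcongr
      _ ≤ (2:ℝ) ^ (2 * (T:ℝ)) * (C * (C' * (2:ℝ) ^ (-(5 * (T:ℝ))) + (2:ℝ) ^ (-(5 * (T:ℝ)))) * ((2 * N : ℕ):ℝ)) := by
          gcongr
      _ = (2 * C * (C' + 1)) * ((2:ℝ) ^ (2 * (T:ℝ)) * (2:ℝ) ^ (-(5 * (T:ℝ)))) * N := by push_cast; ring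
      _ ≤ (2:ℝ) ^ (3 * (T:ℝ)) * ((2:ℝ) ^ (2 * (T:ℝ)) * (2:ℝ) ^ (-(5 * (T:ℝ)))) * N := by gcongr
      _ = N := by
          rw [← Real.rpow_add (by norm_num), ← Real.rpow_add (by norm_num)]
          have : 3 * (T:ℝ) + (2 * (T:ℝ) + -(5 * (T:ℝ))) = 0 := by ring
          rw [this, Real.rpow_zero, one_mul]
  have hA2 : ∑ n ∈ Finset.range (2*N), (Ex ((a:ℝ) * (n:ℝ)^2 + b * n + c))^2 ≤ (2 * A + 1) * N := by
    have h1 := hA (2*N)
    unfold rm at h1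
    have h2 : (0:ℝ) < ((2 * N : ℕ):ℝ) := by push_cast; linarith
    rw [div_le_iff₀ h2] at h1
    push_cast at h1
    linarith
  have hrtb : |∑ m ∈ Finset.Icc 1 (M^2), rt af φ (√(κ a:ℝ)) (X a b) m| ≤ ∑' m, |rt af φ (√(κ a:ℝ)) (X a b) m| :=
    (Finset.abs_sum_le_sum_abs _ _).trans (hrt.sum_le_tsum _ (fun m _ => abs_nonneg _))
  have key := riesz_count hAr af φ (X a b) hψ hs hNpos (e := fun n : ℕ => Ex ((a:ℝ) * (n:ℝ)^2 + b * n + c)) hrtb hc1 hc2 hc3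
    (by linarith) hA2
  refine key.trans ?_
  rw [← hT]
  gcongr
  · norm_num
  
end Pool.Agent.W24.Both
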