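import Mathlib
import Pool.Agent.W24.Both
import Pool.Agent.H383.Rich

/-!
# Large values of both signs: choice of the primes and of the parameters
-/

open Filter Topology Finset
open Pool.Agent.H383.AP Pool.Agent.H383.Gen Pool.Agent.H425R3.JL
open Pool.Agent.W24.Ar

namespace Pool.Agent.W24.Both

/-- the primes -/
lemma primes_h {κ : ℕ} (hκ : 0 < κ) : ∃ h0 : ℕ, ∀ h : ℕ, h0 ≤ h → ∃ p : Fin h → ℕ,
    (∀ i, (p i).Prime) ∧ (∀ i, p i % 4 = 1) ∧ Function.Injective p ∧ (∀ i, ¬ p i ∣ κ) ∧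
    ∀ i, (p i : ℝ) ≤ 80 * h * Real.log h := by
  obtain ⟨y0, hy0, hPB⟩ := Pool.Agent.H383.Rich.PB_card κ.primeFactors
  have e1 : ∀ᶠ x : ℝ in atTop, 40 * Real.log x ≤ x := by
    have h3 : Tendsto (fun y : ℝ => Real.log y / y ^ (1:ℝ)) atTop (𝓝 0) :=
      (isLittleO_log_rpow_atTop (by norm_num : (0:ℝ) < 1)).tendsto_div_nhds_zero
    have h4 := h3.eventually (gt_mem_nhds (show (0:ℝ) < 1/40 by norm_num))
    filter_upwards [h4, eventually_gt_atTop (0:ℝ)] with y h5 hy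
    rw [Real.rpow_one, div_lt_iff₀ hy] at h5
    linarith
  have e2 : ∀ᶠ h : ℕ in atTop, 40 * Real.log (h:ℝ) ≤ h := tendsto_natCast_atTop_atTop.eventually e1
  obtain ⟨h1, hh1⟩ := eventually_atTop.mp e2
  obtain ⟨h2, hh2⟩ := exists_nat_ge y0
  refine ⟨max (max h1 h2) 3, fun h hh => ?_⟩
  have hh3 : 3 ≤ h := by omega
  have hR : (3:ℝ) ≤ h := by exact_mod_cast hh3
  have hlog1 : 1 ≤ Real.log h := by
    rw [Real.le_log_iff_exp_le (by linarith)]
    linarith [Real.exp_one_lt_three]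
  have a1 := hh1 h (by omega)
  have a2 : y0 ≤ h := hh2.trans (by exact_mod_cast (by omega : h2 ≤ h))
  set y : ℝ := 40 * h * Real.log h with hy
  have hyh : (h:ℝ) ≤ y := by rw [hy]; nlinarith
  have hy2 : y ≤ (h:ℝ)^2 := by rw [hy]; nlinarith
  have hylog : Real.log y ≤ 2 * Real.log h := by
    calc Real.log y ≤ Real.log ((h:ℝ)^2) := Real.log_le_log (by linarith) hy2
      _ = _ := by rw [Real.log_pow]; norm_num
  have hylog0 : 0 < Real.log y := Real.log_pos (by linarith)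
  have hcard : h ≤ (Pool.Agent.H383.Rich.PB κ.primeFactors y).card := by
    have h3 := hPB y (a2.trans hyh)
    have h4 : (h:ℝ) ≤ (1/20) * y / Real.log y := by
      rw [le_div_iff₀ hylog0]
      calc (h:ℝ) * Real.log y ≤ h * (2 * Real.log h) := by gcongr
        _ = (1/20) * y := by rw [hy]; ring
    exact_mod_cast h4.trans h3
  refine ⟨fun i => Finset.orderEmbOfCardLe _ hcard i, ?_, ?_, ?_, ?_, ?_⟩
  · intro i
    exact (Pool.Agent.H383.Rich.PB_mem (by linarith) (Finset.orderEmbOfCardLe_mem _ hcard i)).1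
  · intro i
    exact (Pool.Agent.H383.Rich.PB_mem (by linarith) (Finset.orderEmbOfCardLe_mem _ hcard i)).2.1
  · intro i j hij
    exact (Finset.orderEmbOfCardLe _ hcard).injective hij
  · intro i hdvd
    have h5 := Pool.Agent.H383.Rich.PB_mem (by linarith) (Finset.orderEmbOfCardLe_mem _ hcard i)
    exact h5.2.2.1 (Nat.mem_primeFactors.mpr ⟨h5.1, hdvd, hκ.ne'⟩)
  · intro i
    have h5 := (Pool.Agent.H383.Rich.PB_mem (by linarith) (Finset.orderEmbOfCardLe_mem _ hcard i)).2.2.2.2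
    linarith

/-- lower bound for the coefficients at products of primes congruent to one modulo four -/
def LBp (af : ℕ → ℝ) : Prop := ∃ cf : ℝ, 0 < cf ∧ ∀ S : Finset ℕ, (∀ p ∈ S, p.Prime ∧ p % 4 = 1) →
  cf * ∏ p ∈ S, (2 * (p:ℝ) ^ (-(3/4):ℝ)) ≤ af (∏ p ∈ S, p)

lemma exp_half_le {x : ℝ} (h0 : 0 ≤ x) (h2 : x ≤ 2) : Real.exp (x/2) ≤ 1 + x := by
  have h1 := Real.le_log_one_add_of_nonneg h0
  have h3 : x / 2 ≤ 2 * x / (x + 2) := by
    rw [div_le_div_iff₀ (by norm_num) (by linarith)]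
    nlinarith
  rw [← Real.le_log_iff_exp_le (by linarith)]
  linarith

lemma sum_af_ge {af : ℕ → ℝ} {cf : ℝ} (hcf : 0 < cf) (hL : ∀ S : Finset ℕ, (∀ p ∈ S, p.Prime ∧ p % 4 = 1) →
      cf * ∏ p ∈ S, (2 * (p:ℝ) ^ (-(3/4):ℝ)) ≤ af (∏ p ∈ S, p))
    {h : ℕ} {p : Fin h → ℕ} (hp : ∀ i, (p i).Prime) (hp4 : ∀ i, p i % 4 = 1) (hinj : Function.Injective p)
    {Y : ℝ} (hY : ∀ i, (p i : ℝ) ≤ Y) :
    cf * (Real.exp (h * Y ^ (-(3/4):ℝ)) - 1) ≤ ∑ S : JJ (Fin h), af (dd p S) := by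
  have h1 : ∀ S : JJ (Fin h), cf * ∏ i ∈ S.1, (2 * (p i:ℝ) ^ (-(3/4):ℝ)) ≤ af (dd p S) := by
    intro S
    have h2 := hL (S.1.image p) (by
      intro q hq
      rw [Finset.mem_image] at hq
      obtain ⟨i, -, rfl⟩ := hq
      exact ⟨hp i, hp4 i⟩)
    rw [Finset.prod_image (fun i _ j _ hij => hinj hij), Finset.prod_image (fun i _ j _ hij => hinj hij)] at h2
    exact h2
  refine le_trans ?_ (Finset.sum_le_sum (fun S _ => h1 S))
  rw [← Finset.mul_sum]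
  apply mul_le_mul_of_nonneg_left _ hcf.le
  have h3 : ∑ S : JJ (Fin h), ∏ i ∈ S.1, (2 * (p i:ℝ) ^ (-(3/4):ℝ)) =
      ∏ i : Fin h, (1 + 2 * (p i:ℝ) ^ (-(3/4):ℝ)) - 1 := by
    rw [Finset.prod_one_add, Finset.powerset_univ]
    have h4 : ∑ S : Finset (Fin h), ∏ i ∈ S, (2 * (p i:ℝ) ^ (-(3/4):ℝ)) =
        ∑ S ∈ (Finset.univ : Finset (Finset (Fin h))).filter (fun S => S.Nonempty), ∏ i ∈ S, (2 * (p i:ℝ) ^ (-(3/4):ℝ)) + 1 := by
      rw [← Finset.sum_filter_add_sum_filter_not (Finset.univ : Finset (Finset (Fin h))) (fun S => S.Nonempty)]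
      congr 1
      have : (Finset.univ : Finset (Finset (Fin h))).filter (fun S => ¬ S.Nonempty) = {∅} := by
        ext S; simp [Finset.not_nonempty_iff_eq_empty]
      rw [this, Finset.sum_singleton, Finset.prod_empty]
    rw [h4, add_sub_cancel_right]
    rw [← Finset.sum_subtype_eq_sum_filter]
    apply Finset.sum_congr
    · ext S; simp
    · intro _ _; rfl
  rw [h3]
  have h5 : Real.exp (h * Y ^ (-(3/4):ℝ)) ≤ ∏ i : Fin h, (1 + 2 * (p i:ℝ) ^ (-(3/4):ℝ)) := by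
    have h6 : (h:ℝ) * Y ^ (-(3/4):ℝ) = ∑ i : Fin h, Y ^ (-(3/4):ℝ) := by
      rw [Finset.sum_const, Finset.card_univ, Fintype.card_fin, nsmul_eq_mul]
    rw [h6, Real.exp_sum]
    apply Finset.prod_le_prod
    · intro i _; exact (Real.exp_pos _).le
    · intro i _
      have hpi : (1:ℝ) ≤ p i := by exact_mod_cast (hp i).pos
      have h7 : Y ^ (-(3/4):ℝ) ≤ (p i:ℝ) ^ (-(3/4):ℝ) :=
        Real.rpow_le_rpow_of_nonpos (by linarith) (hY i) (by norm_num)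
      have h8 : (p i:ℝ) ^ (-(3/4):ℝ) ≤ 1 := Real.rpow_le_one_of_one_le_of_nonpos hpi (by norm_num)
      have h9 : 0 ≤ (p i:ℝ) ^ (-(3/4):ℝ) := by positivity
      calc Real.exp (Y ^ (-(3/4):ℝ)) ≤ Real.exp ((2 * (p i:ℝ) ^ (-(3/4):ℝ))/2) := by
            apply Real.exp_le_exp.mpr; linarith
        _ ≤ _ := exp_half_le (by linarith) (by linarith)
  linarith

/-- the exponent -/
noncomputable def GG (h : ℕ) : ℝ := h * (80 * h * Real.log h) ^ (-(3/4):ℝ)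

lemma GG_tendsto : Tendsto GG atTop atTop := by
  have e1 : ∀ᶠ x : ℝ in atTop, 80 * Real.log x ≤ x ^ (1/6:ℝ) := by
    have h3 : Tendsto (fun y : ℝ => Real.log y / y ^ (1/6:ℝ)) atTop (𝓝 0) :=
      (isLittleO_log_rpow_atTop (by norm_num : (0:ℝ) < 1/6)).tendsto_div_nhds_zero
    have h4 := h3.eventually (gt_mem_nhds (show (0:ℝ) < 1/80 by norm_num))
    filter_upwards [h4, eventually_gt_atTop (0:ℝ)] with y h5 hy
    rw [div_lt_iff₀ (by positivity)] at h5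
    linarith
  have e2 : ∀ᶠ h : ℕ in atTop, 80 * Real.log (h:ℝ) ≤ (h:ℝ) ^ (1/6:ℝ) := tendsto_natCast_atTop_atTop.eventually e1
  have e3 : Tendsto (fun h : ℕ => (h:ℝ) ^ (1/8:ℝ)) atTop atTop :=
    (tendsto_rpow_atTop (by norm_num : (0:ℝ) < 1/8)).comp tendsto_natCast_atTop_atTop
  apply tendsto_atTop_mono' _ _ e3
  filter_upwards [e2, eventually_ge_atTop 3] with h h1 h3
  have hR : (3:ℝ) ≤ h := by exact_mod_cast h3
  have h0 : (0:ℝ) < h := by linarith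
  have hlog : 0 < Real.log h := Real.log_pos (by linarith)
  unfold GG
  have h4 : 80 * h * Real.log h ≤ (h:ℝ) ^ (7/6:ℝ) := by
    calc 80 * h * Real.log h = h * (80 * Real.log h) := by ring
      _ ≤ h * (h:ℝ) ^ (1/6:ℝ) := by gcongr
      _ = (h:ℝ) ^ (7/6:ℝ) := by
          nth_rewrite 1 [← Real.rpow_one (h:ℝ)]
          rw [← Real.rpow_add h0]; norm_num
  calc (h:ℝ) ^ (1/8:ℝ) = h * ((h:ℝ) ^ (7/6:ℝ)) ^ (-(3/4):ℝ) := by
        rw [← Real.rpow_mul h0.le]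
        nth_rewrite 2 [← Real.rpow_one (h:ℝ)]
        rw [← Real.rpow_add h0]; norm_num
    _ ≤ h * (80 * h * Real.log h) ^ (-(3/4):ℝ) := by
        apply mul_le_mul_of_nonneg_left _ h0.le
        exact Real.rpow_le_rpow_of_nonpos (by positivity) h4 (by norm_num)

lemma ev_V {cf C0 : ℝ} (hcf : 0 < cf) : ∀ᶠ h : ℕ in atTop, 6 * (C0 + 2) ≤ cf * (Real.exp (GG h) - 1) ∧
    Real.exp (GG h / 2) ≤ 1/3 * (cf * (Real.exp (GG h) - 1)) - 2 * (C0 + 2) := by
  have h1 : ∀ᶠ x : ℝ in atTop, 6 * (C0 + 2) ≤ cf * (x^2 - 1) ∧ x ≤ 1/3 * (cf * (x^2 - 1)) - 2 * (C0 + 2) := by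
    filter_upwards [eventually_ge_atTop (1:ℝ), eventually_ge_atTop ((3 / cf) * (2 * |C0| + 6) + 2 + |C0|)] with x hx1 hx
    have h2 : 0 ≤ |C0| := abs_nonneg _
    have h3 : C0 ≤ |C0| := le_abs_self _
    have h4 : (3:ℝ) / cf * (2 * |C0| + 6) ≤ x - 1 := by linarith
    have h5 : 3 * (2 * |C0| + 6) ≤ cf * (x - 1) := by
      rw [div_mul_eq_mul_div, div_le_iff₀ hcf] at h4
      linarith
    have h6 : cf * (x^2 - 1) = (cf * (x-1)) * (x + 1) := by ring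
    have h7 : 3 * (2 * |C0| + 6) * (x + 1) ≤ cf * (x^2 - 1) := by
      rw [h6]; gcongr
    constructor
    · nlinarith
    · nlinarith
  have h2 : Tendsto (fun h : ℕ => Real.exp (GG h / 2)) atTop atTop :=
    Real.tendsto_exp_atTop.comp (GG_tendsto.atTop_div_const (by norm_num))
  filter_upwards [h2.eventually h1] with h hh
  have e : Real.exp (GG h / 2) ^ 2 = Real.exp (GG h) := by
    rw [sq, ← Real.exp_add]; congr 1; ring
  rw [e] at hh
  exact hh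

end Pool.Agent.W24.Both
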