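import Mathlib
import Pool.Agent.W24.BothFin
import Pool.Agent.H452R2.Om.RepsLow

/-!
# Large values of both signs: the main theorem
-/

open Filter Topology Finset
open Pool.Agent.H383.AP Pool.Agent.H383.Gen Pool.Agent.H425R3.JL
open Pool.Agent.W24.Ar

namespace Pool.Agent.W24.Both

lemma LBp_ag : LBp Pool.Agent.H383.Circ.ag := by
  refine ⟨1 / Real.pi, by positivity, fun S hS => ?_⟩
  have h1 := Pool.Agent.H452R2.Om.rA_prod_ge S hS
  unfold Pool.Agent.H383.Circ.ag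
  have h2 : (√((∏ p ∈ S, p : ℕ):ℝ)) ^ (-(3/2):ℝ) = ∏ p ∈ S, (p:ℝ) ^ (-(3/4):ℝ) := by
    rw [Real.sqrt_eq_rpow, ← Real.rpow_mul (Nat.cast_nonneg _), Nat.cast_prod,
      ← Real.finsetProd_rpow _ _ (fun i _ => Nat.cast_nonneg i)]
    norm_num
  rw [h2, Finset.prod_mul_distrib, Finset.prod_const]
  have h3 : 0 ≤ ∏ p ∈ S, (p:ℝ) ^ (-(3/4):ℝ) := Finset.prod_nonneg (fun p _ => by positivity)
  calc 1 / Real.pi * (2 ^ S.card * ∏ p ∈ S, (p:ℝ) ^ (-(3/4):ℝ)) =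
        (2 ^ S.card / Real.pi) * ∏ p ∈ S, (p:ℝ) ^ (-(3/4):ℝ) := by ring
    _ ≤ _ := by gcongr

/-- the constant in the exponent -/
noncomputable def c1 : ℝ := 1/2 * ((80:ℝ) ^ (-(3/4):ℝ) * (1/4) ^ (1/4:ℝ))

lemma c1_pos : 0 < c1 := by unfold c1; positivity

/-- the choice of `h` -/
lemma ev_N {A2 : ℝ} (hA2 : 0 < A2) {ε : ℝ} (hε : 0 < ε) (h0 : ℕ) : ∀ᶠ N : ℕ in atTop, ∃ h : ℕ, h0 ≤ h ∧
    2 ^ (20000 * 4 ^ h) ≤ N ∧ 4 ^ (2 ^ h) * A2 * (N:ℝ) ^ (1 - ε) ≤ N ∧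
    c1 * (Real.log (Real.log N)) ^ (1/4:ℝ) * (Real.log (Real.log (Real.log N))) ^ (-(3/4):ℝ) ≤ GG h / 2 := by
  have hx : ∀ᶠ x : ℝ in atTop, 20000 * x ^ (7/10:ℝ) ≤ x ∧ 2 * x ^ (7/10:ℝ) + |Real.log A2| ≤ ε * x ∧
      4 * (h0 + 10) ≤ Real.log x := by
    have t1 : Tendsto (fun x : ℝ => x ^ (3/10:ℝ)) atTop atTop := tendsto_rpow_atTop (by norm_num)
    filter_upwards [t1.eventually_ge_atTop 20000, t1.eventually_ge_atTop ((2 + |Real.log A2|)/ε),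
      Real.tendsto_log_atTop.eventually_ge_atTop (4 * (h0 + 10)), eventually_ge_atTop (1:ℝ)] with x a1 a2 a3 a4
    have hx0 : 0 < x := by linarith
    have e1 : x = x ^ (3/10:ℝ) * x ^ (7/10:ℝ) := by
      rw [← Real.rpow_add hx0]; norm_num
    have e2 : 1 ≤ x ^ (7/10:ℝ) := Real.one_le_rpow a4 (by norm_num)
    refine ⟨?_, ?_, a3⟩
    · calc 20000 * x ^ (7/10:ℝ) ≤ x ^ (3/10:ℝ) * x ^ (7/10:ℝ) := by gcongr
        _ = x := e1.symm
    · rw [div_le_iff₀ hε] at a2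
      have e3 := abs_nonneg (Real.log A2)
      calc 2 * x ^ (7/10:ℝ) + |Real.log A2| ≤ 2 * x ^ (7/10:ℝ) + |Real.log A2| * x ^ (7/10:ℝ) := by nlinarith
        _ = (2 + |Real.log A2|) * x ^ (7/10:ℝ) := by ring
        _ ≤ (x ^ (3/10:ℝ) * ε) * x ^ (7/10:ℝ) := by gcongr
        _ = ε * (x ^ (3/10:ℝ) * x ^ (7/10:ℝ)) := by ring
        _ = ε * x := by rw [← e1]
  have hN : ∀ᶠ N : ℕ in atTop, 20000 * (Real.log N) ^ (7/10:ℝ) ≤ Real.log N ∧
      2 * (Real.log N) ^ (7/10:ℝ) + |Real.log A2| ≤ ε * Real.log N ∧ 4 * (h0 + 10) ≤ Real.log (Real.log N) :=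
    (Real.tendsto_log_atTop.comp tendsto_natCast_atTop_atTop).eventually hx
  filter_upwards [hN, eventually_ge_atTop 3] with N hN hN3
  obtain ⟨b1, b2, b3⟩ := hN
  have hNR : (3:ℝ) ≤ N := by exact_mod_cast hN3
  have hN0 : (0:ℝ) < N := by linarith
  set L : ℝ := Real.log N with hL
  set L2 : ℝ := Real.log L with hL2
  have h00 : (0:ℝ) ≤ h0 := Nat.cast_nonneg _
  have hL2' : 40 ≤ L2 := by linarith
  have hLpos : 0 < L := by
    rw [hL]; exact Real.log_pos (by linarith)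
  refine ⟨⌊L2/2⌋₊, ?_, ?_, ?_, ?_⟩
  · apply Nat.le_floor; linarith
  all_goals
    obtain ⟨h, hh⟩ : ∃ h : ℕ, h = ⌊L2/2⌋₊ := ⟨_, rfl⟩
    rw [← hh]
    have hle : (h:ℝ) ≤ L2/2 := by rw [hh]; exact Nat.floor_le (by linarith)
    have hge : L2/4 ≤ h := by
      have := Nat.lt_floor_add_one (L2/2)
      rw [← hh] at this
      linarith
    have h4h : ((4:ℝ)) ^ h ≤ L ^ (7/10:ℝ) := by
      rw [← Real.rpow_natCast, Real.rpow_def_of_pos (by norm_num : (0:ℝ) < 4), Real.rpow_def_of_pos hLpos, ← hL2]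
      apply Real.exp_le_exp.mpr
      have e1 : Real.log 4 = 2 * Real.log 2 := by
        rw [show (4:ℝ) = 2^2 by norm_num, Real.log_pow]; norm_num
      rw [e1]
      have e2 := Real.log_two_lt_d9
      have e3 : Real.log 2 ≤ 7/10 := by linarith
      have e4 := Real.log_pos (show (1:ℝ) < 2 by norm_num)
      nlinarith
  · have e5 : (2:ℝ) ^ (20000 * 4 ^ h) ≤ N := by
      rw [← Real.rpow_natCast, Real.rpow_def_of_pos (by norm_num : (0:ℝ) < 2)]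
      rw [← Real.le_log_iff_exp_le hN0, ← hL]
      push_cast
      have e2 := Real.log_two_lt_d9
      have e4 := Real.log_pos (show (1:ℝ) < 2 by norm_num)
      have e6 : 20000 * (4:ℝ)^h ≤ 20000 * L ^ (7/10:ℝ) := by linarith
      have e7 : 0 ≤ 20000 * (4:ℝ)^h := by positivity
      nlinarith
    exact_mod_cast e5
  · have e1 : (2:ℝ) ^ h ≤ L ^ (7/10:ℝ) := by
      refine le_trans ?_ h4h
      apply pow_le_pow_left₀ (by norm_num) (by norm_num)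
    have e2 : (4:ℝ) ^ (2 ^ h) = Real.exp (Real.log 4 * 2 ^ h) := by
      rw [← Real.rpow_natCast, Real.rpow_def_of_pos (by norm_num : (0:ℝ) < 4)]
      push_cast; rfl
    have e3 : A2 = Real.exp (Real.log A2) := (Real.exp_log hA2).symm
    have e4 : (N:ℝ) ^ (1 - ε) = Real.exp (L * (1 - ε)) := by
      rw [Real.rpow_def_of_pos hN0]
    have e5 : (N:ℝ) = Real.exp L := (Real.exp_log hN0).symm
    have e6 : Real.log 4 ≤ 2 := by
      rw [show (4:ℝ) = 2^2 by norm_num, Real.log_pow]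
      have := Real.log_two_lt_d9
      push_cast; linarith
    calc (4:ℝ) ^ (2 ^ h) * A2 * (N:ℝ) ^ (1 - ε) = Real.exp (Real.log 4 * 2 ^ h + Real.log A2 + L * (1 - ε)) := by
          rw [e2, e4]
          conv_lhs => rw [e3]
          rw [← Real.exp_add, ← Real.exp_add]
      _ ≤ Real.exp L := by
          apply Real.exp_le_exp.mpr
          have e7 := le_abs_self (Real.log A2)
          have e8 : Real.log 4 * 2 ^ h ≤ 2 * L ^ (7/10:ℝ) := by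
            apply mul_le_mul e6 e1 (by positivity) (by norm_num)
          linarith
      _ = N := e5.symm
  · have hh0 : (0:ℝ) < h := by linarith
    have hh1 : (1:ℝ) < h := by linarith
    have hlogh : 0 < Real.log h := Real.log_pos hh1
    have hlogle : Real.log h ≤ Real.log L2 := Real.log_le_log hh0 (by linarith)
    have hL3 : 0 < Real.log L2 := by linarith
    unfold GG c1
    have e1 : (80 * (h:ℝ) * Real.log L2) ^ (-(3/4):ℝ) ≤ (80 * h * Real.log h) ^ (-(3/4):ℝ) := by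
      apply Real.rpow_le_rpow_of_nonpos (by positivity) (by gcongr) (by norm_num)
    have e2 : (h:ℝ) * (80 * (h:ℝ) * Real.log L2) ^ (-(3/4):ℝ) =
        (80:ℝ) ^ (-(3/4):ℝ) * (h:ℝ) ^ (1/4:ℝ) * (Real.log L2) ^ (-(3/4):ℝ) := by
      rw [Real.mul_rpow (by positivity) hL3.le, Real.mul_rpow (by norm_num) hh0.le]
      have : (h:ℝ) * (h:ℝ) ^ (-(3/4):ℝ) = (h:ℝ) ^ (1/4:ℝ) := by
        nth_rewrite 1 [← Real.rpow_one (h:ℝ)]
        rw [← Real.rpow_add hh0]; norm_num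
      calc (h:ℝ) * ((80:ℝ) ^ (-(3/4):ℝ) * (h:ℝ) ^ (-(3/4):ℝ) * (Real.log L2) ^ (-(3/4):ℝ)) =
          (80:ℝ) ^ (-(3/4):ℝ) * ((h:ℝ) * (h:ℝ) ^ (-(3/4):ℝ)) * (Real.log L2) ^ (-(3/4):ℝ) := by ring
        _ = _ := by rw [this]
    have e3 : (1/4:ℝ) ^ (1/4:ℝ) * L2 ^ (1/4:ℝ) ≤ (h:ℝ) ^ (1/4:ℝ) := by
      rw [← Real.mul_rpow (by norm_num) (by linarith)]
      apply Real.rpow_le_rpow (by positivity) (by linarith) (by norm_num)
    have e4 : (80:ℝ) ^ (-(3/4):ℝ) * ((1/4:ℝ) ^ (1/4:ℝ) * L2 ^ (1/4:ℝ)) * (Real.log L2) ^ (-(3/4):ℝ) ≤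
        h * (80 * h * Real.log h) ^ (-(3/4):ℝ) := by
      calc _ ≤ (80:ℝ) ^ (-(3/4):ℝ) * (h:ℝ) ^ (1/4:ℝ) * (Real.log L2) ^ (-(3/4):ℝ) := by gcongr
        _ = (h:ℝ) * (80 * (h:ℝ) * Real.log L2) ^ (-(3/4):ℝ) := e2.symm
        _ ≤ _ := by gcongr
    linarith

open Classical in
/-- large values of both signs along quadratic sequences -/
theorem both_main {Ex : ℝ → ℝ} {af : ℕ → ℝ} {φ : ℝ} {κ : ℕ → ℕ} {X : ℕ → ℝ → ℝ} (hD : Data Ex af φ κ X)
    (hL : LBp af) {a : ℕ} {b c : ℝ} (ha : 0 < a) (hP : ∀ n : ℕ, 0 < (a:ℝ) * (n:ℝ)^2 + b * n + c)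
    {ε : ℝ} (hε : 0 < ε) :
    ∃ N0 : ℕ, ∀ N : ℕ, N0 ≤ N → ∀ s : ℝ, (s = 1 ∨ s = -1) →
      (N:ℝ) ^ (1 - ε) ≤ (((Finset.Ico N (2*N)).filter (fun n : ℕ =>
        Real.exp (c1 * (Real.log (Real.log N)) ^ (1/4:ℝ) * (Real.log (Real.log (Real.log N))) ^ (-(3/4):ℝ)) ≤
          s * Ex ((a:ℝ) * (n:ℝ)^2 + b * n + c))).card : ℝ) := by
  obtain ⟨C0, A2, hC0, hA2, h1, hcore⟩ := both_core hD ha hP
  obtain ⟨h2, hpr⟩ := primes_h (hD.pos a ha)
  obtain ⟨cf, hcf, hLf⟩ := hL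
  obtain ⟨h3, hV⟩ := eventually_atTop.mp (ev_V (C0 := C0) hcf)
  -- 80 h log h ≤ 2 ^ h
  have hpow : ∀ᶠ h : ℕ in atTop, 80 * (h:ℝ) * Real.log h ≤ 2 ^ h := by
    have t1 := tendsto_pow_const_div_const_pow_of_one_lt 2 (show (1:ℝ) < 2 by norm_num)
    have t2 := t1.eventually (gt_mem_nhds (show (0:ℝ) < 1/80 by norm_num))
    filter_upwards [t2, eventually_ge_atTop 1] with h t3 t4
    have hR : (1:ℝ) ≤ h := by exact_mod_cast t4
    rw [div_lt_iff₀ (by positivity)] at t3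
    have t5 : Real.log h ≤ h := (Real.log_le_sub_one_of_pos (by linarith)).trans (by linarith)
    nlinarith
  obtain ⟨h4, hp4⟩ := eventually_atTop.mp hpow
  obtain ⟨N0, hN0⟩ := eventually_atTop.mp (ev_N hA2 hε (max (max h1 h2) (max (max h3 h4) 3)))
  refine ⟨N0, fun N hN s hs => ?_⟩
  obtain ⟨h, hh, a1, a2, a3⟩ := hN0 N hN
  obtain ⟨p, q1, q2, q3, q4, q5⟩ := hpr h (by omega)
  obtain ⟨v1, v2⟩ := hV h (by omega)
  have hR3 : (3:ℝ) ≤ h := by exact_mod_cast (by omega : 3 ≤ h)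
  have hlog : 0 < Real.log h := Real.log_pos (by linarith)
  have hsum := sum_af_ge hcf hLf q1 q2 q3 q5
  have hG : (h:ℝ) * (80 * h * Real.log h) ^ (-(3/4):ℝ) = GG h := rfl
  rw [hG] at hsum
  have hple : ∀ i, p i ≤ 2 ^ h := by
    intro i
    have := (q5 i).trans (hp4 h (by omega))
    exact_mod_cast this
  have key := hcore h (by omega) p q1 q3 q4 hple N a1 s hs (v1.trans hsum)
  -- compare the thresholds
  have hmono : (((Finset.Ico N (2*N)).filter (fun n : ℕ => 1/3 * ∑ S : JJ (Fin h), af (dd p S) - 2 * (C0 + 2) ≤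
          s * Ex ((a:ℝ) * (n:ℝ)^2 + b * n + c))).card : ℝ) ≤
      (((Finset.Ico N (2*N)).filter (fun n : ℕ =>
        Real.exp (c1 * (Real.log (Real.log N)) ^ (1/4:ℝ) * (Real.log (Real.log (Real.log N))) ^ (-(3/4):ℝ)) ≤
          s * Ex ((a:ℝ) * (n:ℝ)^2 + b * n + c))).card : ℝ) := by
    norm_cast
    apply Finset.card_le_card
    intro n hn
    rw [Finset.mem_filter] at hn ⊢
    refine ⟨hn.1, le_trans ?_ hn.2⟩
    calc Real.exp (c1 * (Real.log (Real.log N)) ^ (1/4:ℝ) * (Real.log (Real.log (Real.log N))) ^ (-(3/4):ℝ))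
        ≤ Real.exp (GG h / 2) := Real.exp_le_exp.mpr a3
      _ ≤ 1/3 * (cf * (Real.exp (GG h) - 1)) - 2 * (C0 + 2) := v2
      _ ≤ _ := by linarith
  have hpos : (0:ℝ) < 4 ^ (2 ^ h) * A2 := by positivity
  have k1 := key.trans (mul_le_mul_of_nonneg_left hmono hpos.le)
  have k2 := a2.trans k1
  exact le_of_mul_le_mul_left k2 hpos

end Pool.Agent.W24.Both
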