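import Mathlib
import Pool.Agent.W24.BothMain

/-!
# Large values of both signs: arbitrary quadratic polynomials
-/

open Filter Topology Finset
open Pool.Agent.H383.AP Pool.Agent.H383.Gen Pool.Agent.H425R3.JL

namespace Pool.Agent.W24.Both

/-- the size of the values -/
noncomputable def sz (c : ℝ) (N : ℕ) : ℝ :=
  Real.exp (c * (Real.log (Real.log N)) ^ (1/4:ℝ) * (Real.log (Real.log (Real.log N))) ^ (-(3/4):ℝ))

lemma shift_ev (n1 : ℕ) {ε : ℝ} (hε : 0 < ε) (hε1 : ε ≤ 1) : ∀ᶠ N : ℕ in atTop, 2 * n1 ≤ N ∧ sz (c1/2) N ≤ sz c1 (N - n1) ∧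
    (N:ℝ) ^ (1 - ε) ≤ ((N - n1 : ℕ):ℝ) ^ (1 - ε/2) := by
  have t1 : Tendsto (fun x : ℝ => x ^ (ε/2)) atTop atTop := tendsto_rpow_atTop (by positivity)
  have t2 : Tendsto (fun N : ℕ => Real.log (Real.log (Real.log (N:ℝ)))) atTop atTop :=
    Real.tendsto_log_atTop.comp (Real.tendsto_log_atTop.comp (Real.tendsto_log_atTop.comp tendsto_natCast_atTop_atTop))
  filter_upwards [(t1.comp tendsto_natCast_atTop_atTop).eventually_ge_atTop 2, t2.eventually_ge_atTop 10,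
    eventually_ge_atTop (2 * n1 + 4)] with N h1 h2 h3
  simp only [Function.comp_apply] at h1
  have hNR : (4:ℝ) ≤ N := by exact_mod_cast (by omega : 4 ≤ N)
  have hN0 : (0:ℝ) < N := by linarith
  have hsub : ((N - n1 : ℕ):ℝ) = N - n1 := by push_cast [Nat.cast_sub (by omega : n1 ≤ N)]; ring
  have hn1 : (n1:ℝ) ≤ N / 2 := by
    have : (2 * n1 : ℕ) ≤ (N:ℝ) := by exact_mod_cast (by omega : 2 * n1 ≤ N)
    push_cast at this; linarith
  have hge : (N:ℝ) / 2 ≤ ((N - n1 : ℕ):ℝ) := by rw [hsub]; linarith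
  have hle : ((N - n1 : ℕ):ℝ) ≤ N := by rw [hsub]; have : (0:ℝ) ≤ n1 := Nat.cast_nonneg _; linarith
  set N' : ℝ := ((N - n1 : ℕ):ℝ) with hN'
  have hN'1 : (1:ℝ) < N' := by linarith
  refine ⟨by omega, ?_, ?_⟩
  · -- sizes
    have hlogN : 0 < Real.log N := Real.log_pos (by linarith)
    have hL2pos : 0 < Real.log (Real.log (N:ℝ)) := by
      by_contra hcon
      push Not at hcon
      rcases hcon.lt_or_eq with h | h
      · have e0 : Real.log (Real.log (Real.log (N:ℝ))) = Real.log (-Real.log (Real.log (N:ℝ))) := by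
          rw [Real.log_neg_eq_log]
        -- log log N < 0 means log N < 1, so N < e < 4
        have e1 : Real.log (N:ℝ) < 1 := by
          by_contra hc
          push Not at hc
          have := Real.log_nonneg hc
          linarith
        have e2 : (N:ℝ) < Real.exp 1 := by
          rwa [Real.log_lt_iff_lt_exp hN0] at e1
        linarith [Real.exp_one_lt_three]
      · rw [h, Real.log_zero] at h2; linarith
    have hL2big : 20 ≤ Real.log (Real.log (N:ℝ)) := by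
      have e1 := Real.add_one_le_exp (10:ℝ)
      have e2 : Real.exp 10 ≤ Real.log (Real.log (N:ℝ)) := by
        rw [← Real.le_log_iff_exp_le hL2pos]; exact h2
      have e3 : Real.exp 10 = Real.exp 1 ^ 10 := by rw [← Real.exp_nat_mul]; norm_num
      have e4 : (2:ℝ) ^ 10 ≤ Real.exp 1 ^ 10 := by
        apply pow_le_pow_left₀ (by norm_num)
        linarith [Real.exp_one_gt_d9]
      rw [← e3] at e4
      norm_num at e4
      linarith
    have hLbig : 20 ≤ Real.log (N:ℝ) := by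
      have := Real.log_le_sub_one_of_pos hlogN
      linarith
    -- log N' ≥ (log N)/2
    have hlogN' : Real.log N / 2 ≤ Real.log N' := by
      have e1 : Real.log ((N:ℝ)/2) ≤ Real.log N' := Real.log_le_log (by linarith) hge
      rw [Real.log_div hN0.ne' (by norm_num)] at e1
      have := Real.log_two_lt_d9
      linarith
    have hlogN'le : Real.log N' ≤ Real.log N := Real.log_le_log (by linarith) hle
    have hL2' : Real.log (Real.log (N:ℝ)) / 2 ≤ Real.log (Real.log N') := by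
      have e1 : Real.log (Real.log N / 2) ≤ Real.log (Real.log N') := Real.log_le_log (by linarith) hlogN'
      rw [Real.log_div hlogN.ne' (by norm_num)] at e1
      have := Real.log_two_lt_d9
      linarith
    have hL2'le : Real.log (Real.log N') ≤ Real.log (Real.log (N:ℝ)) := Real.log_le_log (by linarith) hlogN'le
    have hL3'pos : 0 < Real.log (Real.log (Real.log N')) := Real.log_pos (by linarith)
    have hL3'le : Real.log (Real.log (Real.log N')) ≤ Real.log (Real.log (Real.log (N:ℝ))) :=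
      Real.log_le_log (by linarith) hL2'le
    unfold sz
    apply Real.exp_le_exp.mpr
    have hc := c1_pos
    have hL2'pos : 0 < Real.log (Real.log N') := by linarith
    have e1 : (Real.log (Real.log (Real.log (N:ℝ)))) ^ (-(3/4):ℝ) ≤ (Real.log (Real.log (Real.log N'))) ^ (-(3/4):ℝ) :=
      Real.rpow_le_rpow_of_nonpos hL3'pos hL3'le (by norm_num)
    have e2 : 1/2 * (Real.log (Real.log (N:ℝ))) ^ (1/4:ℝ) ≤ (Real.log (Real.log N')) ^ (1/4:ℝ) := by
      have e3 : (1/2:ℝ) ≤ (1/2:ℝ) ^ (1/4:ℝ) := by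
        calc (1/2:ℝ) = (1/2:ℝ) ^ (1:ℝ) := by rw [Real.rpow_one]
          _ ≤ _ := Real.rpow_le_rpow_of_exponent_ge (by norm_num) (by norm_num) (by norm_num)
      calc 1/2 * (Real.log (Real.log (N:ℝ))) ^ (1/4:ℝ) ≤ (1/2:ℝ) ^ (1/4:ℝ) * (Real.log (Real.log (N:ℝ))) ^ (1/4:ℝ) := by
            gcongr
        _ = (1/2 * Real.log (Real.log (N:ℝ))) ^ (1/4:ℝ) := by rw [Real.mul_rpow (by norm_num) hL2pos.le]
        _ ≤ _ := Real.rpow_le_rpow (by positivity) (by linarith) (by norm_num)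
    calc c1 / 2 * (Real.log (Real.log (N:ℝ))) ^ (1/4:ℝ) * (Real.log (Real.log (Real.log (N:ℝ)))) ^ (-(3/4):ℝ)
        = c1 * (1/2 * (Real.log (Real.log (N:ℝ))) ^ (1/4:ℝ)) * (Real.log (Real.log (Real.log (N:ℝ)))) ^ (-(3/4):ℝ) := by ring
      _ ≤ c1 * (Real.log (Real.log N')) ^ (1/4:ℝ) * (Real.log (Real.log (Real.log N'))) ^ (-(3/4):ℝ) := by
          gcongr
  · calc (N:ℝ) ^ (1 - ε) = (N:ℝ) ^ (1 - ε/2) * ((N:ℝ) ^ (ε/2))⁻¹ := by
          rw [← Real.rpow_neg hN0.le, ← Real.rpow_add hN0]; congr 1; ring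
      _ ≤ (N:ℝ) ^ (1 - ε/2) * (2:ℝ)⁻¹ := by gcongr
      _ ≤ (N:ℝ) ^ (1 - ε/2) * (1/2:ℝ) ^ (1 - ε/2) := by
          apply mul_le_mul_of_nonneg_left _ (by positivity)
          calc (2:ℝ)⁻¹ = (1/2:ℝ) ^ (1:ℝ) := by rw [Real.rpow_one]; norm_num
            _ ≤ _ := Real.rpow_le_rpow_of_exponent_ge (by norm_num) (by norm_num) (by linarith)
      _ = ((N:ℝ) / 2) ^ (1 - ε/2) := by
          rw [← Real.mul_rpow hN0.le (by norm_num)]; congr 1; ring
      _ ≤ N' ^ (1 - ε/2) := Real.rpow_le_rpow (by positivity) hge (by linarith)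

open Classical in
theorem both_all {Ex : ℝ → ℝ} {af : ℕ → ℝ} {φ : ℝ} {κ : ℕ → ℕ} {X : ℕ → ℝ → ℝ} (hD : Data Ex af φ κ X)
    (hL : LBp af) {a : ℕ} (b c : ℝ) (ha : 0 < a) {ε : ℝ} (hε : 0 < ε) :
    ∃ N0 : ℕ, ∀ N : ℕ, N0 ≤ N → ∀ s : ℝ, (s = 1 ∨ s = -1) →
      (N:ℝ) ^ (1 - ε) ≤ (((Finset.Ico N (2*N)).filter (fun n : ℕ => 0 < (a:ℝ) * (n:ℝ)^2 + b * n + c ∧
        sz (c1/2) N ≤ s * Ex ((a:ℝ) * (n:ℝ)^2 + b * n + c))).card : ℝ) := by
  have ha' : (1:ℝ) ≤ a := by exact_mod_cast ha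
  -- positivity from `n1` on
  obtain ⟨n1, hn1⟩ := exists_nat_ge (|b| + |c| + 1)
  have hpos : ∀ n : ℕ, n1 ≤ n → 0 < (a:ℝ) * (n:ℝ)^2 + b * n + c := by
    intro n hn
    have h1 : |b| + |c| + 1 ≤ n := hn1.trans (by exact_mod_cast hn)
    have h2 := neg_abs_le b
    have h3 := neg_abs_le c
    have h4 := abs_nonneg b
    have h5 := abs_nonneg c
    have h6 : (1:ℝ) ≤ n := by linarith
    have h7 : (n:ℝ)^2 ≤ a * (n:ℝ)^2 := by nlinarith [sq_nonneg (n:ℝ)]
    nlinarith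
  set b' : ℝ := 2 * a * n1 + b with hb'
  set c' : ℝ := a * n1^2 + b * n1 + c with hc'
  have hsh : ∀ n : ℕ, (a:ℝ) * (n:ℝ)^2 + b' * n + c' = (a:ℝ) * ((n + n1 : ℕ):ℝ)^2 + b * ((n + n1 : ℕ):ℝ) + c := by
    intro n; simp only [hb', hc']; push_cast; ring
  have hP' : ∀ n : ℕ, 0 < (a:ℝ) * (n:ℝ)^2 + b' * n + c' := by
    intro n; rw [hsh]; exact hpos _ (by omega)
  set ε' : ℝ := min ε 1 with hε'
  have hε'0 : 0 < ε' := lt_min hε one_pos
  obtain ⟨N1, h1⟩ := both_main hD hL ha hP' (ε := ε'/2) (by positivity)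
  obtain ⟨N2, h2⟩ := eventually_atTop.mp (shift_ev n1 hε'0 (min_le_right _ _))
  refine ⟨max (N1 + n1) (max N2 1), fun N hN s hs => ?_⟩
  obtain ⟨k1, k2, k3⟩ := h2 N (by omega)
  have k4 := h1 (N - n1) (by omega) s hs
  have hN1 : (1:ℝ) ≤ N := by exact_mod_cast (by omega : 1 ≤ N)
  have k5 : (N:ℝ) ^ (1 - ε) ≤ (N:ℝ) ^ (1 - ε') := by
    apply Real.rpow_le_rpow_of_exponent_le hN1
    have := min_le_left ε 1
    linarith
  refine k5.trans (k3.trans (k4.trans ?_))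
  apply Nat.cast_le.mpr
  apply Finset.card_le_card_of_injOn (fun n => n + n1)
  · intro n hn
    rw [Finset.mem_coe, Finset.mem_filter, Finset.mem_Ico] at hn
    have goal : n + n1 ∈ (Finset.Ico N (2*N)).filter (fun n : ℕ => 0 < (a:ℝ) * (n:ℝ)^2 + b * n + c ∧
        sz (c1/2) N ≤ s * Ex ((a:ℝ) * (n:ℝ)^2 + b * n + c)) := by
      rw [Finset.mem_filter, Finset.mem_Ico]
      refine ⟨⟨by omega, by omega⟩, hpos _ (by omega), ?_⟩
      rw [← hsh]
      refine le_trans k2 ?_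
      unfold sz
      exact hn.2
    exact goal
  · intro x _ y _ hxy
    simpa using hxy

end Pool.Agent.W24.Both
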