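import Mathlib

/-!
# The criterion of Daboussi and Kátai, uniformly over multiplicative functions
-/

open Finset Filter Topology

namespace Pool.Agent.W24.Katai

/-- number of elements of `P` dividing `n` -/
noncomputable def om (P : Finset ℕ) (n : ℕ) : ℝ := ∑ p ∈ P, if p ∣ n then (1:ℝ) else 0

/-- sum of the reciprocals -/
noncomputable def SS (P : Finset ℕ) : ℝ := ∑ p ∈ P, 1 / (p:ℝ)

lemma SS_nonneg (P : Finset ℕ) : 0 ≤ SS P := Finset.sum_nonneg (fun p _ => by positivity)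

lemma mult_count (N d : ℕ) : ∑ n ∈ Ioc 0 N, (if d ∣ n then (1:ℝ) else 0) = ((N / d : ℕ) : ℝ) := by
  rw [← Finset.sum_filter, Finset.sum_const, nsmul_eq_mul, mul_one, Nat.Ioc_filter_dvd_card_eq_div]

lemma tk {P : Finset ℕ} (hP : ∀ p ∈ P, p.Prime) (N : ℕ) :
    ∑ n ∈ Ioc 0 N, (om P n - SS P)^2 ≤ N * SS P + 2 * SS P * (P.card : ℝ) := by
  have h1 : ∑ n ∈ Ioc 0 N, (om P n)^2 ≤ N * (SS P)^2 + N * SS P := by
    have e1 : ∑ n ∈ Ioc 0 N, (om P n)^2 =
        ∑ p ∈ P, ∑ q ∈ P, ∑ n ∈ Ioc 0 N, ((if p ∣ n then (1:ℝ) else 0) * (if q ∣ n then (1:ℝ) else 0)) := by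
      calc ∑ n ∈ Ioc 0 N, (om P n)^2 = ∑ n ∈ Ioc 0 N, ∑ p ∈ P, ∑ q ∈ P, ((if p ∣ n then (1:ℝ) else 0) * (if q ∣ n then (1:ℝ) else 0)) := by
            apply Finset.sum_congr rfl
            intro n _
            unfold om
            rw [sq, Finset.sum_mul_sum]
        _ = _ := by
            rw [Finset.sum_comm]
            apply Finset.sum_congr rfl
            intro p _
            rw [Finset.sum_comm]
    rw [e1]
    have e2 : ∀ p ∈ P, ∀ q ∈ P, ∑ n ∈ Ioc 0 N, ((if p ∣ n then (1:ℝ) else 0) * (if q ∣ n then (1:ℝ) else 0)) ≤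
        N * (1 / (p:ℝ) * (1 / (q:ℝ))) + (if p = q then N * (1 / (p:ℝ)) else 0) := by
      intro p hp q hq
      have hp0 : (0:ℝ) < p := by exact_mod_cast (hP p hp).pos
      have hq0 : (0:ℝ) < q := by exact_mod_cast (hP q hq).pos
      by_cases hpq : p = q
      · subst hpq
        rw [if_pos rfl]
        have e3 : ∑ n ∈ Ioc 0 N, ((if p ∣ n then (1:ℝ) else 0) * (if p ∣ n then (1:ℝ) else 0)) =
            ((N / p : ℕ) : ℝ) := by
          rw [← mult_count]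
          apply Finset.sum_congr rfl
          intro n _
          split_ifs <;> simp
        rw [e3]
        have e4 : ((N / p : ℕ) : ℝ) ≤ (N:ℝ) / p := Nat.cast_div_le
        have e5 : 0 ≤ (N:ℝ) * (1 / (p:ℝ) * (1 / (p:ℝ))) := by positivity
        have e6 : (N:ℝ) * (1 / (p:ℝ)) = (N:ℝ) / p := by ring
        linarith
      · rw [if_neg hpq, add_zero]
        have hc : Nat.Coprime p q := (Nat.coprime_primes (hP p hp) (hP q hq)).mpr hpq
        have e3 : ∑ n ∈ Ioc 0 N, ((if p ∣ n then (1:ℝ) else 0) * (if q ∣ n then (1:ℝ) else 0)) =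
            ((N / (p * q) : ℕ) : ℝ) := by
          rw [← mult_count]
          apply Finset.sum_congr rfl
          intro n _
          by_cases h1 : p ∣ n
          · by_cases h2 : q ∣ n
            · rw [if_pos h1, if_pos h2, if_pos (hc.mul_dvd_of_dvd_of_dvd h1 h2)]; norm_num
            · rw [if_pos h1, if_neg h2, if_neg (fun h => h2 ((dvd_mul_left q p).trans h))]; norm_num
          · rw [if_neg h1, if_neg (fun h => h1 ((dvd_mul_right p q).trans h))]; norm_num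
        rw [e3]
        have e4 : ((N / (p * q) : ℕ) : ℝ) ≤ (N:ℝ) / ((p * q : ℕ) : ℝ) := Nat.cast_div_le
        rw [Nat.cast_mul] at e4
        refine e4.trans (le_of_eq ?_)
        field_simp
    refine (Finset.sum_le_sum (fun p hp => Finset.sum_le_sum (fun q hq => e2 p hp q hq))).trans (le_of_eq ?_)
    simp only [Finset.sum_add_distrib, ← Finset.mul_sum]
    congr 1
    · unfold SS
      rw [sq, Finset.sum_mul]
    · unfold SS
      rw [Finset.mul_sum]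
      apply Finset.sum_congr rfl
      intro p hp
      rw [Finset.sum_ite_eq, if_pos hp]
  have h2 : N * SS P - (P.card : ℝ) ≤ ∑ n ∈ Ioc 0 N, om P n := by
    have e1 : ∑ n ∈ Ioc 0 N, om P n = ∑ p ∈ P, ((N / p : ℕ) : ℝ) := by
      unfold om
      rw [Finset.sum_comm]
      apply Finset.sum_congr rfl
      intro p _
      rw [mult_count]
    rw [e1]
    have e2 : ∀ p ∈ P, (N:ℝ) * (1 / (p:ℝ)) - 1 ≤ ((N / p : ℕ) : ℝ) := by
      intro p hp
      have hp0 : (0:ℝ) < p := by exact_mod_cast (hP p hp).pos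
      have := Nat.lt_floor_add_one ((N:ℝ) / p)
      rw [Nat.floor_div_eq_div] at this
      have e6 : (N:ℝ) * (1 / (p:ℝ)) = (N:ℝ) / p := by ring
      linarith
    calc N * SS P - (P.card : ℝ) = ∑ p ∈ P, ((N:ℝ) * (1 / (p:ℝ)) - 1) := by
          rw [Finset.sum_sub_distrib, ← Finset.mul_sum]
          simp [SS]
      _ ≤ _ := Finset.sum_le_sum e2
  have h3 : ∑ n ∈ Ioc 0 N, (om P n - SS P)^2 =
      ∑ n ∈ Ioc 0 N, (om P n)^2 - 2 * SS P * ∑ n ∈ Ioc 0 N, om P n + N * (SS P)^2 := by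
    rw [Finset.mul_sum, ← Finset.sum_sub_distrib]
    have : (N:ℝ) * (SS P)^2 = ∑ n ∈ Ioc 0 N, (SS P)^2 := by
      rw [Finset.sum_const, Nat.card_Ioc, nsmul_eq_mul]; simp
    rw [this, ← Finset.sum_add_distrib]
    apply Finset.sum_congr rfl
    intro n _
    ring
  rw [h3]
  have h4 := SS_nonneg P
  nlinarith [mul_le_mul_of_nonneg_left h2 h4]

lemma sum_dvd (N p : ℕ) (hp : 0 < p) (h : ℕ → ℂ) :
    ∑ n ∈ Ioc 0 N, (if p ∣ n then h n else 0) = ∑ m ∈ Ioc 0 (N / p), h (p * m) := by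
  rw [← Finset.sum_filter]
  symm
  apply Finset.sum_bij' (fun m _ => p * m) (fun n _ => n / p)
  · intro m hm
    rw [Finset.mem_Ioc] at hm
    rw [Finset.mem_filter, Finset.mem_Ioc]
    refine ⟨⟨Nat.mul_pos hp hm.1, ?_⟩, dvd_mul_right p m⟩
    calc p * m ≤ p * (N / p) := Nat.mul_le_mul_left _ hm.2
      _ ≤ N := Nat.mul_div_le _ _
  · intro n hn
    rw [Finset.mem_filter, Finset.mem_Ioc] at hn
    rw [Finset.mem_Ioc]
    exact ⟨Nat.div_pos (Nat.le_of_dvd hn.1.1 hn.2) hp, Nat.div_le_div_right hn.1.2⟩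
  · intro m _
    exact Nat.mul_div_cancel_left m hp
  · intro n hn
    rw [Finset.mem_filter] at hn
    exact Nat.mul_div_cancel' hn.2
  · intro m _
    rfl

/-- multiplicative functions into the unit disc -/
def Mul1 (g : ℕ → ℂ) : Prop := (∀ n, ‖g n‖ ≤ 1) ∧ ∀ m n : ℕ, Nat.Coprime m n → g (m * n) = g m * g n

lemma step1 {P : Finset ℕ} (hP : ∀ p ∈ P, p.Prime) {F : ℕ → ℂ} (hF : ∀ n, ‖F n‖ ≤ 1)
    {g : ℕ → ℂ} (hg : Mul1 g) (N : ℕ) :
    ‖(SS P : ℂ) * ∑ n ∈ Ioc 0 N, g n * F n - ∑ p ∈ P, ∑ m ∈ Ioc 0 (N / p), g (p * m) * F (p * m)‖ ≤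
      √(N * (N * SS P + 2 * SS P * (P.card : ℝ))) := by
  have e1 : ∑ p ∈ P, ∑ m ∈ Ioc 0 (N / p), g (p * m) * F (p * m) = ∑ n ∈ Ioc 0 N, (om P n : ℂ) * (g n * F n) := by
    have : ∀ p ∈ P, ∑ m ∈ Ioc 0 (N / p), g (p * m) * F (p * m) =
        ∑ n ∈ Ioc 0 N, (if p ∣ n then g n * F n else 0) := by
      intro p hp
      rw [sum_dvd N p (hP p hp).pos (fun n => g n * F n)]
    rw [Finset.sum_congr rfl this, Finset.sum_comm]
    apply Finset.sum_congr rfl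
    intro n _
    unfold om
    push_cast
    rw [Finset.sum_mul]
    apply Finset.sum_congr rfl
    intro p _
    split_ifs <;> simp
  rw [e1, Finset.mul_sum, ← Finset.sum_sub_distrib]
  have e2 : ‖∑ n ∈ Ioc 0 N, ((SS P : ℂ) * (g n * F n) - (om P n : ℂ) * (g n * F n))‖ ≤
      ∑ n ∈ Ioc 0 N, |om P n - SS P| := by
    refine (norm_sum_le _ _).trans (Finset.sum_le_sum (fun n _ => ?_))
    rw [← sub_mul, norm_mul, norm_mul, ← Complex.ofReal_sub, Complex.norm_real, Real.norm_eq_abs, abs_sub_comm]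
    calc |om P n - SS P| * (‖g n‖ * ‖F n‖) ≤ |om P n - SS P| * (1 * 1) := by
          gcongr
          · exact hg.1 n
          · exact hF n
      _ = _ := by ring
  refine e2.trans ?_
  apply Real.le_sqrt_of_sq_le
  have e3 : (∑ n ∈ Ioc 0 N, |om P n - SS P|)^2 ≤ ((Ioc 0 N).card : ℝ) * ∑ n ∈ Ioc 0 N, |om P n - SS P|^2 := sq_sum_le_card_mul_sum_sq
  refine e3.trans ?_
  simp only [sq_abs, Nat.card_Ioc, Nat.sub_zero]
  exact mul_le_mul_of_nonneg_left (tk hP N) (Nat.cast_nonneg _)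

lemma step2 {P : Finset ℕ} (hP : ∀ p ∈ P, p.Prime) {F : ℕ → ℂ} (hF : ∀ n, ‖F n‖ ≤ 1)
    {g : ℕ → ℂ} (hg : Mul1 g) (N : ℕ) :
    ‖∑ p ∈ P, ∑ m ∈ Ioc 0 (N / p), g (p * m) * F (p * m) -
      ∑ p ∈ P, ∑ m ∈ Ioc 0 (N / p), g p * g m * F (p * m)‖ ≤ 2 * N * ∑ p ∈ P, 1 / (p:ℝ)^2 := by
  rw [← Finset.sum_sub_distrib, Finset.mul_sum]
  refine (norm_sum_le _ _).trans (Finset.sum_le_sum (fun p hp => ?_))
  have hp0 : (0:ℝ) < p := by exact_mod_cast (hP p hp).pos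
  rw [← Finset.sum_sub_distrib]
  have e1 : ∀ m ∈ Ioc 0 (N / p), ‖g (p * m) * F (p * m) - g p * g m * F (p * m)‖ ≤ 2 * (if p ∣ m then (1:ℝ) else 0) := by
    intro m _
    split_ifs with h
    · refine (norm_sub_le _ _).trans ?_
      have a1 := hg.1 (p * m)
      have a2 := hg.1 p
      have a3 := hg.1 m
      have a4 := hF (p * m)
      rw [norm_mul, norm_mul, norm_mul]
      have b1 : ‖g (p * m)‖ * ‖F (p * m)‖ ≤ 1 * 1 := by gcongr
      have b2 : ‖g p‖ * ‖g m‖ * ‖F (p * m)‖ ≤ 1 * 1 * 1 := by gcongr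
      linarith
    · rw [hg.2 p m ((Nat.Prime.coprime_iff_not_dvd (hP p hp)).mpr h), sub_self, norm_zero, mul_zero]
  refine (norm_sum_le _ _).trans ((Finset.sum_le_sum e1).trans ?_)
  rw [← Finset.mul_sum, mult_count]
  have e4 : (((N / p) / p : ℕ) : ℝ) ≤ ((N / p : ℕ) : ℝ) / p := Nat.cast_div_le
  have e5 : ((N / p : ℕ) : ℝ) ≤ (N:ℝ) / p := Nat.cast_div_le
  calc 2 * (((N / p) / p : ℕ) : ℝ) ≤ 2 * ((N:ℝ) / p / p) := by
        have : ((N / p : ℕ) : ℝ) / p ≤ (N:ℝ) / p / p := by gcongr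
        linarith
    _ = 2 * N * (1 / (p:ℝ)^2) := by field_simp

lemma step3 {P : Finset ℕ} (hP : ∀ p ∈ P, p.Prime) {F : ℕ → ℂ} {g : ℕ → ℂ} (N : ℕ) :
    ∑ p ∈ P, ∑ m ∈ Ioc 0 (N / p), g p * g m * F (p * m) =
      ∑ m ∈ Ioc 0 N, g m * ∑ p ∈ P, (if p * m ≤ N then g p * F (p * m) else 0) := by
  have e1 : ∀ p ∈ P, ∑ m ∈ Ioc 0 (N / p), g p * g m * F (p * m) =
      ∑ m ∈ Ioc 0 N, g m * (if p * m ≤ N then g p * F (p * m) else 0) := by
    intro p hp
    have hp0 := (hP p hp).pos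
    have hsub : Ioc 0 (N / p) ⊆ Ioc 0 N := Finset.Ioc_subset_Ioc_right (Nat.div_le_self _ _)
    rw [← Finset.sum_subset hsub]
    · apply Finset.sum_congr rfl
      intro m hm
      rw [Finset.mem_Ioc] at hm
      have : p * m ≤ N := by
        rw [mul_comm]; exact (Nat.le_div_iff_mul_le hp0).mp hm.2
      rw [if_pos this]; ring
    · intro m hm hm'
      rw [Finset.mem_Ioc] at hm hm'
      have : ¬ p * m ≤ N := by
        intro h
        apply hm'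
        refine ⟨hm.1, (Nat.le_div_iff_mul_le hp0).mpr ?_⟩
        rw [mul_comm]; exact h
      rw [if_neg this, mul_zero]
  rw [Finset.sum_congr rfl e1, Finset.sum_comm]
  apply Finset.sum_congr rfl
  intro m _
  rw [Finset.mul_sum]

/-- correlations -/
noncomputable def cor (F : ℕ → ℂ) (p q M : ℕ) : ℂ := ∑ m ∈ Ioc 0 M, F (p * m) * (starRingEnd ℂ) (F (q * m))

lemma step4 {P : Finset ℕ} (hP : ∀ p ∈ P, p.Prime) {F : ℕ → ℂ} (hF : ∀ n, ‖F n‖ ≤ 1)
    {g : ℕ → ℂ} (hg : Mul1 g) (N : ℕ) {B : ℝ} (hB : 0 ≤ B)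
    (hc : ∀ p ∈ P, ∀ q ∈ P, p ≠ q → ∀ M : ℕ, M ≤ N → ‖cor F p q M‖ ≤ B) :
    ∑ m ∈ Ioc 0 N, ‖∑ p ∈ P, (if p * m ≤ N then g p * F (p * m) else 0)‖^2 ≤
      N * SS P + (P.card : ℝ)^2 * B := by
  set c : ℕ → ℕ → ℂ := fun p m => if p * m ≤ N then g p * F (p * m) else 0 with hcdef
  have e1 : ∀ m, ((‖∑ p ∈ P, c p m‖^2 : ℝ) : ℂ) = ∑ p ∈ P, ∑ q ∈ P, c p m * (starRingEnd ℂ) (c q m) := by
    intro m
    rw [← Finset.sum_mul_sum, ← map_sum, Complex.mul_conj, Complex.normSq_eq_norm_sq]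
  have e2 : ((∑ m ∈ Ioc 0 N, ‖∑ p ∈ P, c p m‖^2 : ℝ) : ℂ) =
      ∑ p ∈ P, ∑ q ∈ P, ∑ m ∈ Ioc 0 N, c p m * (starRingEnd ℂ) (c q m) := by
    rw [Complex.ofReal_sum]
    rw [Finset.sum_congr rfl (fun m _ => e1 m), Finset.sum_comm]
    apply Finset.sum_congr rfl
    intro p _
    rw [Finset.sum_comm]
  have e3 : ∀ p ∈ P, ∀ q ∈ P, ‖∑ m ∈ Ioc 0 N, c p m * (starRingEnd ℂ) (c q m)‖ ≤
      (if p = q then (N:ℝ) * (1 / (p:ℝ)) else 0) + B := by
    intro p hp q hq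
    have hp0 := (hP p hp).pos
    have hq0 := (hP q hq).pos
    have hp0' : (0:ℝ) < p := by exact_mod_cast hp0
    have e4 : ∑ m ∈ Ioc 0 N, c p m * (starRingEnd ℂ) (c q m) =
        g p * (starRingEnd ℂ) (g q) * cor F p q (min (N / p) (N / q)) := by
      unfold cor
      rw [Finset.mul_sum]
      have hsub : Ioc 0 (min (N / p) (N / q)) ⊆ Ioc 0 N :=
        Finset.Ioc_subset_Ioc_right ((min_le_left _ _).trans (Nat.div_le_self _ _))
      rw [← Finset.sum_subset hsub]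
      · apply Finset.sum_congr rfl
        intro m hm
        rw [Finset.mem_Ioc, le_min_iff] at hm
        have h1 : p * m ≤ N := by rw [mul_comm]; exact (Nat.le_div_iff_mul_le hp0).mp hm.2.1
        have h2 : q * m ≤ N := by rw [mul_comm]; exact (Nat.le_div_iff_mul_le hq0).mp hm.2.2
        simp only [hcdef]
        rw [if_pos h1, if_pos h2, map_mul]; ring
      · intro m hm hm'
        rw [Finset.mem_Ioc] at hm hm'
        simp only [hcdef]
        by_cases h1 : p * m ≤ N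
        · by_cases h2 : q * m ≤ N
          · exfalso
            apply hm'
            refine ⟨hm.1, le_min ?_ ?_⟩
            · exact (Nat.le_div_iff_mul_le hp0).mpr (by rw [mul_comm]; exact h1)
            · exact (Nat.le_div_iff_mul_le hq0).mpr (by rw [mul_comm]; exact h2)
          · rw [if_neg h2, map_zero, mul_zero]
        · rw [if_neg h1, zero_mul]
    rw [e4, norm_mul, norm_mul, RCLike.norm_conj]
    have e5 : ‖g p‖ * ‖g q‖ * ‖cor F p q (min (N / p) (N / q))‖ ≤ 1 * 1 * ‖cor F p q (min (N / p) (N / q))‖ := by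
      gcongr
      · exact hg.1 p
      · exact hg.1 q
    refine e5.trans ?_
    rw [one_mul, one_mul]
    by_cases hpq : p = q
    · subst hpq
      rw [if_pos rfl, min_self]
      have e6 : ‖cor F p p (N / p)‖ ≤ ((N / p : ℕ) : ℝ) := by
        unfold cor
        refine (norm_sum_le _ _).trans ?_
        calc ∑ m ∈ Ioc 0 (N / p), ‖F (p * m) * (starRingEnd ℂ) (F (p * m))‖ ≤ ∑ m ∈ Ioc 0 (N / p), (1:ℝ) := by
              apply Finset.sum_le_sum
              intro m _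
              rw [norm_mul, RCLike.norm_conj]
              have := hF (p * m)
              calc _ ≤ (1:ℝ) * 1 := by gcongr
                _ = 1 := by ring
          _ = _ := by simp
      have e7 : ((N / p : ℕ) : ℝ) ≤ (N:ℝ) / p := Nat.cast_div_le
      have e8 : (N:ℝ) * (1 / (p:ℝ)) = (N:ℝ) / p := by ring
      linarith
    · rw [if_neg hpq, zero_add]
      exact hc p hp q hq hpq _ ((min_le_left _ _).trans (Nat.div_le_self _ _))
  have e9 : (∑ m ∈ Ioc 0 N, ‖∑ p ∈ P, c p m‖^2 : ℝ) =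
      ‖((∑ m ∈ Ioc 0 N, ‖∑ p ∈ P, c p m‖^2 : ℝ) : ℂ)‖ := by
    rw [Complex.norm_real, Real.norm_eq_abs, abs_of_nonneg]
    exact Finset.sum_nonneg (fun m _ => by positivity)
  rw [e9, e2]
  refine (norm_sum_le _ _).trans ?_
  calc ∑ p ∈ P, ‖∑ q ∈ P, ∑ m ∈ Ioc 0 N, c p m * (starRingEnd ℂ) (c q m)‖
      ≤ ∑ p ∈ P, ∑ q ∈ P, ((if p = q then (N:ℝ) * (1 / (p:ℝ)) else 0) + B) :=
        Finset.sum_le_sum (fun p hp => (norm_sum_le _ _).trans (Finset.sum_le_sum (fun q hq => e3 p hp q hq)))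
    _ = _ := by
        simp only [Finset.sum_add_distrib, Finset.sum_const, nsmul_eq_mul]
        congr 1
        · unfold SS
          rw [Finset.mul_sum]
          apply Finset.sum_congr rfl
          intro p hp
          rw [Finset.sum_ite_eq, if_pos hp]
        · ring

lemma step5 {P : Finset ℕ} (hP : ∀ p ∈ P, p.Prime) {F : ℕ → ℂ} (hF : ∀ n, ‖F n‖ ≤ 1)
    {g : ℕ → ℂ} (hg : Mul1 g) (N : ℕ) {B : ℝ} (hB : 0 ≤ B)
    (hc : ∀ p ∈ P, ∀ q ∈ P, p ≠ q → ∀ M : ℕ, M ≤ N → ‖cor F p q M‖ ≤ B) :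
    ‖∑ p ∈ P, ∑ m ∈ Ioc 0 (N / p), g p * g m * F (p * m)‖ ≤ √(N * (N * SS P + (P.card : ℝ)^2 * B)) := by
  rw [step3 hP]
  have e1 : ‖∑ m ∈ Ioc 0 N, g m * ∑ p ∈ P, (if p * m ≤ N then g p * F (p * m) else 0)‖ ≤
      ∑ m ∈ Ioc 0 N, ‖∑ p ∈ P, (if p * m ≤ N then g p * F (p * m) else 0)‖ := by
    refine (norm_sum_le _ _).trans (Finset.sum_le_sum (fun m _ => ?_))
    rw [norm_mul]
    calc _ ≤ 1 * ‖∑ p ∈ P, (if p * m ≤ N then g p * F (p * m) else 0)‖ := by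
          gcongr; exact hg.1 m
      _ = _ := one_mul _
  refine e1.trans ?_
  apply Real.le_sqrt_of_sq_le
  refine sq_sum_le_card_mul_sum_sq.trans ?_
  rw [Nat.card_Ioc, Nat.sub_zero]
  exact mul_le_mul_of_nonneg_left (step4 hP hF hg N hB hc) (Nat.cast_nonneg _)

lemma sum_inv_sq_le {P : Finset ℕ} (hP : ∀ p ∈ P, p.Prime) : ∑ p ∈ P, 1 / (p:ℝ)^2 ≤ 1 := by
  set K : ℕ := P.sup id + 1 with hK
  have hsub : P ⊆ Ioc 1 K := by
    intro p hp
    rw [Finset.mem_Ioc]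
    have : p ≤ P.sup id := Finset.le_sup (f := id) hp
    exact ⟨(hP p hp).one_lt, by omega⟩
  calc ∑ p ∈ P, 1 / (p:ℝ)^2 ≤ ∑ p ∈ Ioc 1 K, 1 / (p:ℝ)^2 :=
        Finset.sum_le_sum_of_subset_of_nonneg hsub (fun p _ _ => by positivity)
    _ = ∑ p ∈ Ioc 1 K, ((p:ℝ)^2)⁻¹ := by simp only [one_div]
    _ ≤ ((1:ℕ):ℝ)⁻¹ - (K:ℝ)⁻¹ := sum_Ioc_inv_sq_le_sub one_ne_zero (by omega)
    _ ≤ 1 := by
        have : (0:ℝ) ≤ (K:ℝ)⁻¹ := by positivity
        push_cast; linarith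

lemma exists_SS (T : ℝ) : ∃ P : Finset ℕ, (∀ p ∈ P, p.Prime) ∧ T ≤ SS P := by
  have h := not_summable_one_div_on_primes
  rw [not_summable_iff_tendsto_nat_atTop_of_nonneg (fun n => by
    apply Set.indicator_nonneg; intro x _; positivity)] at h
  obtain ⟨W, hW⟩ := (h.eventually_ge_atTop T).exists
  refine ⟨(Finset.range W).filter Nat.Prime, fun p hp => (Finset.mem_filter.mp hp).2, hW.trans (le_of_eq ?_)⟩
  unfold SS
  rw [Finset.sum_filter]
  apply Finset.sum_congr rfl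
  intro n _
  simp only [Set.indicator_apply, Set.mem_ofPred_eq]

/-- the criterion of Daboussi and Kátai, uniformly over multiplicative functions -/
theorem katai {F : ℕ → ℂ} (hF : ∀ n, ‖F n‖ ≤ 1)
    (hpq : ∀ p q : ℕ, p.Prime → q.Prime → p ≠ q → Tendsto (fun M : ℕ => cor F p q M / M) atTop (𝓝 0))
    {ε : ℝ} (hε : 0 < ε) :
    ∃ N0 : ℕ, ∀ N : ℕ, N0 ≤ N → ∀ g : ℕ → ℂ, Mul1 g → ‖∑ n ∈ Ioc 0 N, g n * F n‖ ≤ ε * N := by
  obtain ⟨P, hP, hS⟩ := exists_SS (max 1 (64 / ε^2))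
  have hS1 : 1 ≤ SS P := (le_max_left _ _).trans hS
  have hS2 : 64 / ε^2 ≤ SS P := (le_max_right _ _).trans hS
  set S := SS P with hSdef
  have hS0 : 0 < S := by linarith
  set c : ℝ := (P.card : ℝ) with hc
  have hc0 : 0 ≤ c := Nat.cast_nonneg _
  -- correlations
  have h1 : ∀ p ∈ P, ∀ q ∈ P, p ≠ q → ∃ K : ℕ, ∀ M : ℕ, ‖cor F p q M‖ ≤ 1 / (c^2 + 1) * M + K := by
    intro p hp q hq hne
    have h2 := hpq p q (hP p hp) (hP q hq) hne
    rw [Metric.tendsto_atTop] at h2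
    obtain ⟨K, hK⟩ := h2 (1 / (c^2 + 1)) (by positivity)
    refine ⟨K, fun M => ?_⟩
    have hb : ‖cor F p q M‖ ≤ M := by
      unfold cor
      refine (norm_sum_le _ _).trans ?_
      calc ∑ m ∈ Ioc 0 M, ‖F (p * m) * (starRingEnd ℂ) (F (q * m))‖ ≤ ∑ m ∈ Ioc 0 M, (1:ℝ) := by
            apply Finset.sum_le_sum
            intro m _
            rw [norm_mul, RCLike.norm_conj]
            have h3 := hF (p * m)
            have h4 := hF (q * m)
            calc _ ≤ (1:ℝ) * 1 := by gcongr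
              _ = 1 := by ring
        _ = _ := by simp
    by_cases hM : K ≤ M
    · have h3 := (hK M hM).le
      rw [dist_zero_right, norm_div, Complex.norm_natCast] at h3
      rcases Nat.eq_zero_or_pos M with rfl | hM0
      · simp at hb ⊢
        rw [hb]; simp
      · have hM0' : (0:ℝ) < M := by exact_mod_cast hM0
        rw [div_le_iff₀ hM0'] at h3
        have : (0:ℝ) ≤ K := Nat.cast_nonneg K
        linarith
    · push Not at hM
      have : (M:ℝ) ≤ K := by exact_mod_cast hM.le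
      have h4 : 0 ≤ 1 / (c^2 + 1) * (M:ℝ) := by positivity
      linarith
  choose! K hK using h1
  set K1 : ℕ := ∑ p ∈ P, ∑ q ∈ P, K p q with hK1
  have h2 : ∀ p ∈ P, ∀ q ∈ P, p ≠ q → ∀ M : ℕ, ∀ N : ℕ, M ≤ N → ‖cor F p q M‖ ≤ 1 / (c^2 + 1) * N + K1 := by
    intro p hp q hq hne M N hMN
    have h3 := hK p hp q hq hne M
    have h4 : K p q ≤ K1 := by
      calc K p q ≤ ∑ q ∈ P, K p q := Finset.single_le_sum (f := fun q => K p q) (fun _ _ => Nat.zero_le _) hq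
        _ ≤ K1 := Finset.single_le_sum (f := fun p => ∑ q ∈ P, K p q) (fun _ _ => Nat.zero_le _) hp
    have h5 : (K p q : ℝ) ≤ K1 := by exact_mod_cast h4
    have h6 : (M:ℝ) ≤ N := by exact_mod_cast hMN
    have h7 : 1 / (c^2 + 1) * (M:ℝ) ≤ 1 / (c^2 + 1) * N := by gcongr
    linarith
  obtain ⟨N1, hN1⟩ := exists_nat_ge (c^2 * K1)
  obtain ⟨N2, hN2⟩ := exists_nat_ge (2 * c)
  refine ⟨max N1 N2, fun N hN g hg => ?_⟩
  have hNN1 : c^2 * K1 ≤ N := hN1.trans (by exact_mod_cast (le_max_left _ _).trans hN)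
  have hNN2 : 2 * c ≤ N := hN2.trans (by exact_mod_cast (le_max_right _ _).trans hN)
  have hN0 : (0:ℝ) ≤ N := Nat.cast_nonneg N
  have s1 := step1 hP hF hg N
  have s2 := step2 hP hF hg N
  have s5 := step5 hP hF hg N (B := 1 / (c^2 + 1) * N + K1) (by positivity)
    (fun p hp q hq hne M hM => h2 p hp q hq hne M N hM)
  have s6 := sum_inv_sq_le hP
  rw [← hSdef, ← hc] at s1 s5
  -- the square roots
  have hsS : √S ≤ S := by
    rw [Real.sqrt_le_left hS0.le]; nlinarith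
  have hs1 : 1 ≤ √S := by rw [Real.one_le_sqrt]; exact hS1
  have r1 : √(N * (N * S + 2 * S * c)) ≤ 2 * √S * N := by
    rw [Real.sqrt_le_left (by positivity)]
    have : (2 * √S * N)^2 = 4 * S * N^2 := by
      rw [mul_pow, mul_pow, Real.sq_sqrt hS0.le]; ring
    rw [this]
    have : 2 * S * c ≤ S * N := by nlinarith
    nlinarith [mul_le_mul_of_nonneg_left this hN0]
  have r5 : √(N * (N * S + c^2 * (1 / (c^2 + 1) * N + K1))) ≤ 2 * √S * N := by
    rw [Real.sqrt_le_left (by positivity)]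
    have : (2 * √S * N)^2 = 4 * S * N^2 := by
      rw [mul_pow, mul_pow, Real.sq_sqrt hS0.le]; ring
    rw [this]
    have e1 : c^2 * (1 / (c^2 + 1) * N) ≤ N := by
      have : c^2 / (c^2+1) ≤ 1 := by rw [div_le_one (by positivity)]; linarith
      calc c^2 * (1 / (c^2 + 1) * (N:ℝ)) = c^2 / (c^2+1) * (N:ℝ) := by ring
        _ ≤ 1 * (N:ℝ) := by gcongr
        _ = N := one_mul _
    have e2 : N * S + c^2 * (1 / (c^2 + 1) * N + K1) ≤ 3 * S * N := by nlinarith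
    nlinarith [mul_le_mul_of_nonneg_left e2 hN0, mul_nonneg hS0.le (sq_nonneg (N:ℝ))]
  have t1 : ‖(S : ℂ) * ∑ n ∈ Ioc 0 N, g n * F n‖ ≤ 2 * √S * N + 2 * N + 2 * √S * N := by
    have e1 : (S : ℂ) * ∑ n ∈ Ioc 0 N, g n * F n =
        ((S : ℂ) * ∑ n ∈ Ioc 0 N, g n * F n - ∑ p ∈ P, ∑ m ∈ Ioc 0 (N / p), g (p * m) * F (p * m)) +
        (∑ p ∈ P, ∑ m ∈ Ioc 0 (N / p), g (p * m) * F (p * m) -
      ∑ p ∈ P, ∑ m ∈ Ioc 0 (N / p), g p * g m * F (p * m)) +
        ∑ p ∈ P, ∑ m ∈ Ioc 0 (N / p), g p * g m * F (p * m) := by ring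
    rw [e1]
    refine (norm_add_le _ _).trans ?_
    refine (add_le_add (norm_add_le _ _) le_rfl).trans ?_
    have : 2 * (N:ℝ) * ∑ p ∈ P, 1 / (p:ℝ)^2 ≤ 2 * N * 1 := by gcongr
    linarith
  rw [norm_mul, Complex.norm_real, Real.norm_eq_abs, abs_of_pos hS0] at t1
  have t2 : S * ‖∑ n ∈ Ioc 0 N, g n * F n‖ ≤ 8 * √S * N := by nlinarith
  have t3 : √S * ‖∑ n ∈ Ioc 0 N, g n * F n‖ ≤ 8 * N := by
    have e1 : S = √S * √S := (Real.mul_self_sqrt hS0.le).symm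
    have hs0 : 0 < √S := by linarith
    have : √S * (√S * ‖∑ n ∈ Ioc 0 N, g n * F n‖) ≤ √S * (8 * N) := by
      calc √S * (√S * ‖∑ n ∈ Ioc 0 N, g n * F n‖) = S * ‖∑ n ∈ Ioc 0 N, g n * F n‖ := by
            rw [← mul_assoc, ← e1]
        _ ≤ 8 * √S * N := t2
        _ = _ := by ring
    exact le_of_mul_le_mul_left this hs0
  have t4 : 8 / ε ≤ √S := by
    apply Real.le_sqrt_of_sq_le
    refine le_trans (le_of_eq ?_) hS2
    rw [div_pow]; norm_num
  have t5 : 8 / ε * ‖∑ n ∈ Ioc 0 N, g n * F n‖ ≤ 8 * N :=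
    (mul_le_mul_of_nonneg_right t4 (norm_nonneg _)).trans t3
  have t6 : ‖∑ n ∈ Ioc 0 N, g n * F n‖ = ε / 8 * (8 / ε * ‖∑ n ∈ Ioc 0 N, g n * F n‖) := by
    field_simp
  rw [t6]
  calc ε / 8 * (8 / ε * ‖∑ n ∈ Ioc 0 N, g n * F n‖) ≤ ε / 8 * (8 * N) := by gcongr
    _ = ε * N := by ring

end Pool.Agent.W24.Katai
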