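import Mathlib
import Pool.Agent.W24.MulOrth

/-!
# Weights without irrational spectrum: general error terms
-/

open Filter Topology MeasureTheory
open Pool.Agent.H383.AP Pool.Agent.H425R3.JL Pool.Agent.H383.Gen

namespace Pool.Agent.W24.MulOrth

open Pool.Agent.W24.Katai

lemma cor_chr (θ : ℝ) (p q M : ℕ) : cor (chr θ) p q M = ∑ m ∈ Finset.Ioc 0 M, chr (((p:ℝ) - q) * θ) m := by
  unfold cor
  apply Finset.sum_congr rfl
  intro m _
  rw [chr_conj]
  unfold chr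
  rw [← Complex.exp_add]
  congr 1
  push_cast; ring

lemma chr_sum_Ioc (θ : ℝ) (M : ℕ) : ∑ m ∈ Finset.Ioc 0 M, chr θ m = chr θ 1 * ∑ n ∈ Finset.range M, chr θ n := by
  have := sum_Icc_range M (chr θ)
  rw [show Finset.Ioc 0 M = Finset.Icc 1 M from rfl, this, Finset.mul_sum]
  apply Finset.sum_congr rfl
  intro n _
  unfold chr
  rw [← Complex.exp_add]
  congr 1
  push_cast; ring

/-- multiplicative functions have no irrational spectrum, uniformly -/
lemma WC_mul : WC (fun _ => {g | Mul1 g}) := by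
  refine ⟨fun N w hw => hw.1, fun θ hθ ε hε => ?_⟩
  apply katai (fun n => (norm_chr θ n).le) _ hε
  intro p q hp hq hpq
  have h1 : ¬ ∃ k : ℤ, ((p:ℝ) - q) * θ = k := by
    rintro ⟨k, hk⟩
    have hne : ((p:ℤ) - q) ≠ 0 := by
      intro h
      apply hpq
      exact_mod_cast sub_eq_zero.mp h
    have h2 : Irrational (((((p:ℤ) - q : ℤ)) : ℝ) * θ) := hθ.intCast_mul hne
    apply h2
    refine ⟨k, ?_⟩
    push_cast
    rw [hk]
  have h2 := chr_mean_non h1
  unfold HasMean cm at h2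
  have h3 := h2.const_mul (chr (((p:ℝ) - q) * θ) 1)
  rw [mul_zero] at h3
  refine h3.congr (fun M => ?_)
  rw [cor_chr, chr_sum_Ioc, mul_div_assoc]

lemma WC_seq {w : ℕ → ℕ → ℂ} (h1 : ∀ N n, ‖w N n‖ ≤ 1)
    (h2 : ∀ θ : ℝ, Irrational θ → Tendsto (fun N : ℕ =>
      (∑ n ∈ Finset.Icc 1 N, w N n * Complex.exp (2 * Real.pi * θ * n * Complex.I)) / N) atTop (𝓝 0)) :
    WC (fun N => {w N}) := by
  refine ⟨fun N v hv => ?_, fun θ hθ ε hε => ?_⟩
  · rw [Set.mem_singleton_iff] at hv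
    subst hv
    exact h1 N
  · have h3 := h2 θ hθ
    rw [Metric.tendsto_atTop] at h3
    obtain ⟨N0, hN0⟩ := h3 ε hε
    refine ⟨max N0 1, fun N hN v hv => ?_⟩
    rw [Set.mem_singleton_iff] at hv
    subst hv
    have hNpos : (0:ℝ) < N := by exact_mod_cast (by omega : 0 < N)
    have h4 := (hN0 N (by omega)).le
    rw [dist_zero_right, norm_div, Complex.norm_natCast, div_le_iff₀ hNpos] at h4
    refine le_trans (le_of_eq ?_) h4
    congr 1
    apply Finset.sum_congr rfl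
    intro n _
    unfold chr
    congr 2
    push_cast; ring

open Classical in
/-- test functions: continuous of quadratic growth, or the indicator function of a continuity set -/
theorem mo_gen {Ex : ℝ → ℝ} {af : ℕ → ℝ} {φ : ℝ} {κ : ℕ → ℕ} {X : ℕ → ℝ → ℝ} (hD : Data Ex af φ κ X)
    {k : ℕ} (a : Fin k → ℕ) (b c : Fin k → ℝ) (ha : ∀ i, 0 < a i)
    (hP : ∀ i, ∀ n : ℕ, 1 ≤ n → 0 < (a i:ℝ) * (n:ℝ)^2 + b i * n + c i) :
    ∃ μ : ProbabilityMeasure (Fin k → ℝ),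
      Integrable (fun x : Fin k → ℝ => ∑ i, x i ^ 2) (μ : Measure (Fin k → ℝ)) ∧
      (∀ i, ∃ g : ℂ → ℂ, Differentiable ℂ g ∧ (∀ x : ℝ, 0 ≤ (g x).re ∧ (g x).im = 0) ∧
        (μ : Measure (Fin k → ℝ)).map (fun x => x i) = volume.withDensity (fun x : ℝ => ENNReal.ofReal (g x).re) ∧
        ∀ u v : ℝ, u < v → 0 < (μ : Measure (Fin k → ℝ)) {x | u < x i ∧ x i < v}) ∧
      ∀ f : (Fin k → ℝ) → ℝ,
        ((Continuous f ∧ ∃ C : ℝ, ∀ x, |f x| ≤ C * (1 + ∑ i, x i ^ 2)) ∨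
          ∃ A : Set (Fin k → ℝ), (μ : Measure (Fin k → ℝ)) (frontier A) = 0 ∧ f = A.indicator 1) →
        (∀ ε : ℝ, 0 < ε → ∃ N₀ : ℕ, ∀ N : ℕ, N₀ ≤ N → ∀ g : ℕ → ℂ, (∀ n, ‖g n‖ ≤ 1) →
          (∀ m n : ℕ, Nat.Coprime m n → g (m * n) = g m * g n) →
          ‖∑ n ∈ Finset.Icc 1 N, g n *
            ((f (fun i => Ex ((a i:ℝ) * (n:ℝ)^2 + b i * n + c i)) -
              ∫ x, f x ∂(μ : Measure (Fin k → ℝ)) : ℝ) : ℂ)‖ ≤ ε * N) ∧
        (∀ w : ℕ → ℕ → ℂ, (∀ N n, ‖w N n‖ ≤ 1) →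
          (∀ θ : ℝ, Irrational θ → Tendsto (fun N : ℕ =>
            (∑ n ∈ Finset.Icc 1 N, w N n * Complex.exp (2 * Real.pi * θ * n * Complex.I)) / N) atTop (𝓝 0)) →
          Tendsto (fun N : ℕ => (∑ n ∈ Finset.Icc 1 N, w N n *
            ((f (fun i => Ex ((a i:ℝ) * (n:ℝ)^2 + b i * n + c i)) -
              ∫ x, f x ∂(μ : Measure (Fin k → ℝ)) : ℝ) : ℂ)) / N) atTop (𝓝 0)) := by
  -- shifted polynomials
  set b' : Fin k → ℝ := fun i => 2 * a i + b i with hb'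
  set c' : Fin k → ℝ := fun i => a i + b i + c i with hc'
  have hsh : ∀ i, ∀ n : ℕ, (a i:ℝ) * (n:ℝ)^2 + b' i * n + c' i = (a i:ℝ) * ((n+1 : ℕ):ℝ)^2 + b i * ((n+1 : ℕ):ℝ) + c i := by
    intro i n; simp only [hb', hc']; push_cast; ring
  have hP' : ∀ i, ∀ n : ℕ, 0 < (a i:ℝ) * (n:ℝ)^2 + b' i * n + c' i := by
    intro i n; rw [hsh]; exact hP i (n+1) (by omega)
  set e : ℕ → Fin k → ℝ := fun n i => Ex ((a i:ℝ) * (n:ℝ)^2 + b' i * n + c' i) with he
  set G : ℕ → Fin k → ℝ := fun n i => Ex ((a i:ℝ) * (n:ℝ)^2 + b i * n + c i) with hG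
  have heG : ∀ n, 1 ≤ n → e (n-1) = G n := by
    intro n hn; funext i; simp only [he, hG]; rw [hsh, show n - 1 + 1 = n by omega]
  set α : Fin k → ℝ := fun i => √((κ (a i) : ℕ):ℝ) with hα
  have hΓ : ∀ i, ∀ m : ℕ, α i * √(m:ℝ) ∈ GI := by
    intro i m
    simp only [hα]
    rw [← Real.sqrt_mul (Nat.cast_nonneg _), ← Nat.cast_mul]
    exact sqrt_GI _
  have hU : ∀ M i, (fun n => ((UU (fun _ : Fin k => af) (fun _ => φ) α (fun i => X (a i) (b' i)) M n i : ℝ) : ℂ)) ∈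
      Pool.Agent.H425R3.JL.TG GI := fun M i => UU_TG hΓ M i
  have h1 : ApU (UU (fun _ : Fin k => af) (fun _ => φ) α (fun i => X (a i) (b' i))) e RS :=
    ApU_RS (fun i => hD.ap _ _ _ (ha i) (hP' i))
  obtain ⟨μ, hμ1, hμ2⟩ := law hU RS_ne (AvOK_RS GI) h1
  -- the uniform statement
  have key : ∀ f : (Fin k → ℝ) → ℝ,
        ((Continuous f ∧ ∃ C : ℝ, ∀ x, |f x| ≤ C * (1 + ∑ i, x i ^ 2)) ∨
          ∃ A : Set (Fin k → ℝ), (μ : Measure (Fin k → ℝ)) (frontier A) = 0 ∧ f = A.indicator 1) →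
        ∀ W, WC W → ∀ ε : ℝ, 0 < ε → ∃ N₀ : ℕ, ∀ N : ℕ, N₀ ≤ N → ∀ w ∈ W N,
          ‖∑ n ∈ Finset.Icc 1 N, w n * ((f (G n) - ∫ x, f x ∂(μ : Measure (Fin k → ℝ)) : ℝ) : ℂ)‖ ≤ ε * N := by
    intro f hf W hW ε hε
    rcases hf with ⟨hfc, hfC⟩ | ⟨A, hA, rfl⟩
    · obtain ⟨N0, hN0⟩ := UO_f hW hU h1 hfc hfC (hμ2 f hfc hfC) hε
      refine ⟨N0, fun N hN w hw => ?_⟩
      refine le_trans (le_of_eq ?_) (hN0 N hN w hw)
      congr 1
      apply Finset.sum_congr rfl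
      intro n hn
      rw [Finset.mem_Icc] at hn
      rw [heG n hn.1]
    · obtain ⟨N0, hN0⟩ := UO_A hW hU h1 hμ2 hA hε
      refine ⟨N0, fun N hN w hw => ?_⟩
      refine le_trans (le_of_eq ?_) (hN0 N hN w hw)
      have hcl : NullMeasurableSet A (μ : Measure (Fin k → ℝ)) := by
        apply NullMeasurableSet.congr (isClosed_closure (s := A)).measurableSet.nullMeasurableSet
        have h5 : (μ : Measure (Fin k → ℝ)) (closure A \ A) = 0 := by
          apply measure_mono_null _ hA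
          intro x hx
          rw [closure_eq_self_union_frontier] at hx
          rcases hx with ⟨h | h, h'⟩
          · exact absurd h h'
          · exact h
        exact (ae_eq_set.mpr ⟨h5, by
          have : A \ closure A = ∅ := Set.sdiff_eq_empty.mpr subset_closure
          rw [this, measure_empty]⟩)
      have hint : ∫ x, A.indicator (1 : (Fin k → ℝ) → ℝ) x ∂(μ : Measure (Fin k → ℝ)) =
          (μ : Measure (Fin k → ℝ)).real A := by
        have h6 : ∫ x, A.indicator (fun _ => (1:ℝ)) x ∂(μ : Measure (Fin k → ℝ)) =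
            (μ : Measure (Fin k → ℝ)).real A := by
          rw [integral_indicator₀ hcl]
          simp
        exact h6
      congr 1
      apply Finset.sum_congr rfl
      intro n hn
      rw [Finset.mem_Icc] at hn
      rw [heG n hn.1, hint, Set.indicator_apply]
      rfl
  refine ⟨μ, hμ1, ?_, ?_⟩
  · intro i
    obtain ⟨ν, g, g1, g2, g3, g4, g5⟩ := hD.law1 (a i) (b' i) (c' i) (ha i) (hP' i)
    have hm : (μ : Measure (Fin k → ℝ)).map (fun x => x i) = (ν : Measure ℝ) :=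
      marg (S := RS) (e := e) i (fun f hf hC => hμ2 f hf hC) g5
    refine ⟨g, g1, g2, by rw [hm, g3], ?_⟩
    intro u v huv
    have h1 := g4 u v huv
    rw [← hm, Measure.map_apply (measurable_pi_apply i) measurableSet_Ioo] at h1
    exact h1
  · intro f hf
    constructor
    · intro ε hε
      obtain ⟨N0, hN0⟩ := key f hf _ WC_mul ε hε
      exact ⟨N0, fun N hN g hg1 hg2 => hN0 N hN g ⟨hg1, hg2⟩⟩
    · intro w hw1 hw2
      rw [Metric.tendsto_atTop]
      intro ε hε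
      obtain ⟨N0, hN0⟩ := key f hf _ (WC_seq hw1 hw2) (ε/2) (by positivity)
      refine ⟨max N0 1, fun N hN => ?_⟩
      have hNpos : (0:ℝ) < N := by exact_mod_cast (by omega : 0 < N)
      have h4 := hN0 N (by omega) (w N) rfl
      rw [dist_zero_right, norm_div, Complex.norm_natCast, div_lt_iff₀ hNpos]
      refine lt_of_le_of_lt h4 ?_
      nlinarith

end Pool.Agent.W24.MulOrth
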